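import Mathlib

/-! Definitions for the final statement of MP_9d3768_al (`Ã₂` complexes and actions on them). -/

set_option autoImplicit false

namespace Pool.A2L

/-- An `Ã₂` complex (every triangle is oriented cyclically): vertices `V`, oriented edges `E`,
`tri e f g` says that `e`, `f`, `g` are three consecutive edges of a triangle. The axioms say that
the link of every vertex `v` is the incidence graph of a projective plane of order `q ≥ 2`, whose
points are the edges starting at `v`, whose lines are the edges ending at `v`, and in which the line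
`e` contains the point `f` if `e`, `f` are consecutive edges of a triangle. -/
structure A2Complex (V E : Type) where
  src : E → V
  tgt : E → V
  tri : E → E → E → Prop
  q : ℕ
  two_le : 2 ≤ q
  comp : ∀ e f g, tri e f g → tgt e = src f
  rot : ∀ e f g, tri e f g → tri f g e
  uniq : ∀ e f g g', tri e f g → tri e f g' → g = g'
  join : ∀ f f', f ≠ f' → src f = src f' → ∃! e, (∃ g, tri e f g) ∧ (∃ g, tri e f' g)
  meet : ∀ e e', e ≠ e' → tgt e = tgt e' → ∃! f, (∃ g, tri e f g) ∧ (∃ g, tri e' f g)
  card_line : ∀ e, Nat.card {f // ∃ g, tri e f g} = q + 1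
  card_pencil : ∀ f, Nat.card {e // ∃ g, tri e f g} = q + 1
  card_points : ∀ v, Nat.card {f // src f = v} = q ^ 2 + q + 1
  card_lines : ∀ v, Nat.card {e // tgt e = v} = q ^ 2 + q + 1

/-- The complex is connected. -/
def A2Complex.Connected {V E : Type} (C : A2Complex V E) : Prop :=
  ∀ v w : V, Relation.EqvGen (fun v w => ∃ e, C.src e = v ∧ C.tgt e = w) v w

/-- The group `Γ` acts on the complex by automorphisms, freely on the vertices and with finitely
many orbits of vertices. -/
structure FreeCofinite {V E : Type} (C : A2Complex V E) (Γ : Type) [Group Γ] [MulAction Γ V]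
    [MulAction Γ E] : Prop where
  src_smul : ∀ (γ : Γ) (e : E), C.src (γ • e) = γ • C.src e
  tgt_smul : ∀ (γ : Γ) (e : E), C.tgt (γ • e) = γ • C.tgt e
  tri_smul : ∀ (γ : Γ) (e f g : E), C.tri e f g → C.tri (γ • e) (γ • f) (γ • g)
  free : ∀ (γ : Γ) (v : V), γ • v = v → γ = 1
  cofinite : Finite (MulAction.orbitRel.Quotient Γ V)

end Pool.A2L
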