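import Pool.Agent.A2L.Defs

/-! Basic facts on finite `Ã₂` complexes and straight words (squad A2L). -/

set_option autoImplicit false

open Finset
open scoped Classical

noncomputable section

namespace Pool.A2L

variable {V E : Type} [Fintype V] [Fintype E]

theorem op_op (C : Cx V E) : C.op.op = C := rfl

theorem T_rot2 {C : Cx V E} {e f g : E} (h : C.T e f g) : C.T g e f := C.rot (C.rot h)

theorem T_comp {C : Cx V E} {e f g : E} (h : C.T e f g) :
    C.tgt e = C.src f ∧ C.tgt f = C.src g ∧ C.tgt g = C.src e :=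
  ⟨C.comp h, C.comp (C.rot h), C.comp (T_rot2 h)⟩

theorem I_comp {C : Cx V E} {e f : E} (h : C.I e f) : C.tgt e = C.src f := by
  obtain ⟨g, h⟩ := h; exact C.comp h

theorem I_of_T1 {C : Cx V E} {e f g : E} (h : C.T e f g) : C.I e f := ⟨g, h⟩
theorem I_of_T2 {C : Cx V E} {e f g : E} (h : C.T e f g) : C.I f g := ⟨e, C.rot h⟩
theorem I_of_T3 {C : Cx V E} {e f g : E} (h : C.T e f g) : C.I g e := ⟨f, T_rot2 h⟩

theorem I_op {C : Cx V E} {e f : E} : C.op.I e f ↔ C.I f e := by
  constructor
  · rintro ⟨g, h⟩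
    have h' : C.T g f e := h
    exact ⟨g, C.rot h'⟩
  · rintro ⟨g, h⟩
    have h' : C.T g f e := T_rot2 h
    exact ⟨g, h'⟩

theorem T_op {C : Cx V E} {e f g : E} : C.op.T e f g ↔ C.T g f e := Iff.rfl

theorem St_op {C : Cx V E} {e f : E} : C.op.St e f ↔ C.St f e := by
  unfold Cx.St
  rw [I_op]
  constructor
  · rintro ⟨h1, h2⟩; exact ⟨h1.symm, h2⟩
  · rintro ⟨h1, h2⟩; exact ⟨h1.symm, h2⟩

theorem q_pos (C : Cx V E) : 0 < C.q := lt_of_lt_of_le (by norm_num) C.two_le

/-- the other two letters of a triangle are determined by one adjacent pair -/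
theorem T_uniq1 {C : Cx V E} {e f g e' : E} (h : C.T e f g) (h' : C.T e' f g) : e = e' :=
  C.uniq (C.rot h) (C.rot h')

theorem T_uniq2 {C : Cx V E} {e f g f' : E} (h : C.T e f g) (h' : C.T e f' g) : f = f' :=
  C.uniq (T_rot2 h) (T_rot2 h')

/-- two distinct lines meet in at most one point, two distinct points lie on at most one line -/
theorem I_two {C : Cx V E} {e e' f f' : E} (h1 : C.I e f) (h2 : C.I e f') (h3 : C.I e' f)
    (h4 : C.I e' f') : e = e' ∨ f = f' := C.two h1 h2 h3 h4

theorem card_succ (C : Cx V E) (e : E) : (univ.filter (fun f => C.St e f)).card = C.q ^ 2 := by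
  have h1 := C.card_src (C.tgt e)
  have h2 := C.card_out e
  have h3 : (univ.filter (fun f => C.src f = C.tgt e)) =
      (univ.filter (fun f => C.St e f)) ∪ (univ.filter (fun f => ∃ g, C.T e f g)) := by
    ext f
    simp only [mem_filter, mem_univ, true_and, mem_union]
    constructor
    · intro h
      by_cases h' : ∃ g, C.T e f g
      · exact Or.inr h'
      · exact Or.inl ⟨h.symm, h'⟩
    · rintro (h | ⟨g, h⟩)
      · exact h.1.symm
      · exact (C.comp h).symm
  have h4 : Disjoint (univ.filter (fun f => C.St e f)) (univ.filter (fun f => ∃ g, C.T e f g)) := by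
    rw [Finset.disjoint_left]
    intro f hf hf'
    simp only [mem_filter, mem_univ, true_and] at hf hf'
    exact hf.2 hf'
  rw [h3, Finset.card_union_of_disjoint h4] at h1
  omega

theorem card_pred (C : Cx V E) (f : E) : (univ.filter (fun e => C.St e f)).card = C.q ^ 2 := by
  have h := card_succ C.op f
  have : (univ.filter (fun e => C.St e f)) = (univ.filter (fun e => C.op.St f e)) := by
    ext e
    simp only [mem_filter, mem_univ, true_and, St_op]
  rw [this]; exact h

theorem mem_words {C : Cx V E} {n : ℕ} {W : List E} :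
    W ∈ C.words n ↔ W.length = n ∧ W.IsChain C.St := by
  unfold Cx.words
  simp only [mem_filter, mem_image, mem_univ, true_and]
  constructor
  · rintro ⟨⟨f, rfl⟩, h⟩
    exact ⟨List.length_ofFn, h⟩
  · rintro ⟨h1, h2⟩
    refine ⟨⟨fun i => W.get (i.cast h1.symm), ?_⟩, h2⟩
    subst h1
    exact List.ofFn_get W

theorem words_zero (C : Cx V E) : C.words 0 = {[]} := by
  ext W
  rw [mem_words, mem_singleton]
  constructor
  · rintro ⟨h, _⟩; exact List.length_eq_zero_iff.mp h
  · rintro rfl; exact ⟨rfl, List.isChain_nil⟩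

theorem isChain_op {C : Cx V E} {W : List E} :
    W.IsChain C.op.St ↔ W.reverse.IsChain C.St := by
  rw [List.isChain_reverse]
  exact List.IsChain.iff (fun a b => St_op)

theorem mem_words_op {C : Cx V E} {n : ℕ} {W : List E} :
    W ∈ C.op.words n ↔ W.reverse ∈ C.words n := by
  rw [mem_words, mem_words, isChain_op, List.length_reverse]

theorem cons_mem_words {C : Cx V E} {n : ℕ} {e : E} {W : List E} :
    e :: W ∈ C.words (n + 1) ↔ W ∈ C.words n ∧ ∀ f ∈ W.head?, C.St e f := by
  rw [mem_words, mem_words, List.isChain_cons, List.length_cons]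
  constructor
  · rintro ⟨h1, h2, h3⟩; exact ⟨⟨by omega, h3⟩, fun f hf => h2 f hf⟩
  · rintro ⟨⟨h1, h2⟩, h3⟩; exact ⟨by omega, fun f hf => h3 f hf, h2⟩

/-- straight words which can follow the letter `e` -/
def Cx.aft (C : Cx V E) (n : ℕ) (e : E) : Finset (List E) :=
  (C.words n).filter (fun W => ∀ f ∈ W.head?, C.St e f)

theorem mem_aft {C : Cx V E} {n : ℕ} {e : E} {W : List E} :
    W ∈ C.aft n e ↔ e :: W ∈ C.words (n + 1) := by
  rw [cons_mem_words]; unfold Cx.aft; rw [mem_filter]

theorem aft_zero (C : Cx V E) (e : E) : C.aft 0 e = {[]} := by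
  ext W
  rw [mem_aft, cons_mem_words, words_zero, mem_singleton]
  constructor
  · rintro ⟨h, _⟩; exact h
  · rintro rfl; exact ⟨rfl, by simp⟩

/-- sum over words by first letter -/
theorem sum_words_succ (C : Cx V E) (n : ℕ) (F : List E → ℝ) :
    ∑ W ∈ C.words (n + 1), F W = ∑ e, ∑ W ∈ C.aft n e, F (e :: W) := by
  symm
  rw [Finset.sum_sigma']
  refine Finset.sum_bij (fun p _ => p.1 :: p.2) ?_ ?_ ?_ ?_
  · rintro ⟨e, W⟩ h
    simp only [mem_sigma, mem_univ, true_and] at h
    exact mem_aft.mp h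
  · rintro ⟨e, W⟩ _ ⟨e', W'⟩ _ h
    simp only [List.cons.injEq] at h
    obtain ⟨rfl, rfl⟩ := h
    rfl
  · intro W hW
    cases W with
    | nil => simp [mem_words] at hW
    | cons e W =>
      exact ⟨⟨e, W⟩, by simp only [mem_sigma, mem_univ, true_and]; exact mem_aft.mpr hW, rfl⟩
  · intro _ _; rfl

/-- sum over continuations by first letter -/
theorem sum_aft_succ (C : Cx V E) (n : ℕ) (e : E) (F : List E → ℝ) :
    ∑ W ∈ C.aft (n + 1) e, F W =
      ∑ f ∈ univ.filter (fun f => C.St e f), ∑ W ∈ C.aft n f, F (f :: W) := by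
  rw [Finset.sum_sigma']
  symm
  refine Finset.sum_bij (fun p _ => p.1 :: p.2) ?_ ?_ ?_ ?_
  · rintro ⟨f, W⟩ h
    simp only [mem_sigma, mem_filter, mem_univ, true_and] at h
    rw [mem_aft, cons_mem_words]
    exact ⟨mem_aft.mp h.2, by simpa using h.1⟩
  · rintro ⟨e, W⟩ _ ⟨e', W'⟩ _ h
    simp only [List.cons.injEq] at h
    obtain ⟨rfl, rfl⟩ := h
    rfl
  · intro W hW
    rw [mem_aft, cons_mem_words] at hW
    cases W with
    | nil => simp [mem_words] at hW
    | cons f W =>
      refine ⟨⟨f, W⟩, ?_, rfl⟩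
      simp only [mem_sigma, mem_filter, mem_univ, true_and]
      exact ⟨by simpa using hW.2, mem_aft.mpr hW.1⟩
  · intro _ _; rfl

theorem card_aft (C : Cx V E) (n : ℕ) (e : E) : (C.aft n e).card = C.q ^ (2 * n) := by
  induction n generalizing e with
  | zero => rw [aft_zero]; simp
  | succ n ih =>
    have h := sum_aft_succ C n e (fun _ => (1 : ℝ))
    simp only [sum_const, nsmul_eq_mul, mul_one] at h
    have h2 : ((C.aft (n + 1) e).card : ℝ) = ((C.q ^ (2 * (n + 1)) : ℕ) : ℝ) := by
      rw [h]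
      rw [Finset.sum_congr rfl (fun f _ => by rw [ih f])]
      rw [sum_const, card_succ, nsmul_eq_mul]
      push_cast
      ring
    exact_mod_cast h2

/-- straight words starting at the vertex `v` -/
def Cx.wfrom (C : Cx V E) (n : ℕ) (v : V) : Finset (List E) :=
  (C.words n).filter (fun W => ∀ f ∈ W.head?, C.src f = v)

theorem sum_wfrom_succ (C : Cx V E) (n : ℕ) (v : V) (F : List E → ℝ) :
    ∑ W ∈ C.wfrom (n + 1) v, F W =
      ∑ f ∈ univ.filter (fun f => C.src f = v), ∑ W ∈ C.aft n f, F (f :: W) := by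
  rw [Finset.sum_sigma']
  symm
  refine Finset.sum_bij (fun p _ => p.1 :: p.2) ?_ ?_ ?_ ?_
  · rintro ⟨f, W⟩ h
    simp only [mem_sigma, mem_filter, mem_univ, true_and] at h
    unfold Cx.wfrom
    rw [mem_filter]
    exact ⟨mem_aft.mp h.2, by simpa using h.1⟩
  · rintro ⟨e, W⟩ _ ⟨e', W'⟩ _ h
    simp only [List.cons.injEq] at h
    obtain ⟨rfl, rfl⟩ := h
    rfl
  · intro W hW
    unfold Cx.wfrom at hW
    rw [mem_filter] at hW
    cases W with
    | nil => simp [mem_words] at hW
    | cons f W =>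
      refine ⟨⟨f, W⟩, ?_, rfl⟩
      simp only [mem_sigma, mem_filter, mem_univ, true_and]
      exact ⟨by simpa using hW.2, mem_aft.mpr hW.1⟩
  · intro _ _; rfl

theorem card_wfrom (C : Cx V E) (n : ℕ) (v : V) :
    (C.wfrom (n + 1) v).card = (C.q ^ 2 + C.q + 1) * C.q ^ (2 * n) := by
  have h := sum_wfrom_succ C n v (fun _ => (1 : ℝ))
  simp only [sum_const, nsmul_eq_mul, mul_one] at h
  have h2 : ((C.wfrom (n + 1) v).card : ℝ) = (((C.q ^ 2 + C.q + 1) * C.q ^ (2 * n) : ℕ) : ℝ) := by
    rw [h]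
    rw [Finset.sum_congr rfl (fun f _ => by rw [card_aft C n f])]
    rw [sum_const, C.card_src v, nsmul_eq_mul]
    push_cast
    ring
  exact_mod_cast h2

/-- a sum over words is the sum over the starting vertex -/
theorem sum_words_wfrom (C : Cx V E) (n : ℕ) (F : List E → ℝ) :
    ∑ W ∈ C.words (n + 1), F W = ∑ v, ∑ W ∈ C.wfrom (n + 1) v, F W := by
  rw [sum_words_succ]
  have h : ∀ v, ∑ W ∈ C.wfrom (n + 1) v, F W = ∑ f, if C.src f = v then
      ∑ W ∈ C.aft n f, F (f :: W) else 0 := by
    intro v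
    rw [sum_wfrom_succ, Finset.sum_filter]
  rw [Finset.sum_congr rfl (fun v _ => h v), Finset.sum_comm]
  refine Finset.sum_congr rfl (fun f _ => ?_)
  rw [Finset.sum_ite_eq]
  simp

theorem card_E (C : Cx V E) : Fintype.card E = Fintype.card V * (C.q ^ 2 + C.q + 1) := by
  have h : Fintype.card E = ∑ v : V, (univ.filter (fun f => C.src f = v)).card := by
    rw [← Finset.card_univ]
    exact Finset.card_eq_sum_card_fiberwise (fun f _ => Finset.mem_univ (C.src f))
  rw [h, Finset.sum_congr rfl (fun v _ => C.card_src v), Finset.sum_const, Finset.card_univ,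
    smul_eq_mul]

theorem card_words (C : Cx V E) (n : ℕ) :
    (C.words (n + 1)).card = Fintype.card V * (C.q ^ 2 + C.q + 1) * C.q ^ (2 * n) := by
  have h := sum_words_succ C n (fun _ => (1 : ℝ))
  simp only [sum_const, nsmul_eq_mul, mul_one] at h
  have h2 : ((C.words (n + 1)).card : ℝ) =
      ((Fintype.card V * (C.q ^ 2 + C.q + 1) * C.q ^ (2 * n) : ℕ) : ℝ) := by
    rw [h, Finset.sum_congr rfl (fun f _ => by rw [card_aft C n f]), sum_const, Finset.card_univ,
      card_E C, nsmul_eq_mul]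
    push_cast
    ring
  exact_mod_cast h2

end Pool.A2L
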