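import Pool.Agent.A2L.Mix

/-! Module ClsAvg: class averages. -/

set_option autoImplicit false

open Finset
open scoped Classical

noncomputable section

namespace Pool.A2L

variable {V E : Type} [Fintype V] [Fintype E]

private theorem clsAvg_equiv (C : Cx V E) : Equivalence (Cls C) :=
  Relation.EqvGen.is_equivalence _

/-- parallel words starting in the same class end in the same class -/
private theorem clsAvg_last (C : Cx V E) : ∀ (j : ℕ) (p p' : List E) (t t' : E),
    p ++ [t] ∈ C.words (j + 1) → p' ++ [t'] ∈ C.words (j + 1) →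
    (∀ e ∈ (p ++ [t]).head?, ∀ e' ∈ (p' ++ [t']).head?, Cls C (C.src e) (C.src e')) →
    Cls C (C.src t) (C.src t') := by
  intro j
  induction j with
  | zero =>
    intro p p' t t' h h' hc
    have h1 := (mem_words.mp h).1
    have h2 := (mem_words.mp h').1
    simp only [List.length_append, List.length_cons, List.length_nil] at h1 h2
    have h3 : p = [] := List.length_eq_zero_iff.mp (by omega)
    have h4 : p' = [] := List.length_eq_zero_iff.mp (by omega)
    subst h3
    subst h4
    exact hc t rfl t' rfl
  | succ j ih =>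
    intro p p' t t' h h' hc
    cases p with
    | nil =>
      have h1 := (mem_words.mp h).1
      simp at h1
    | cons e p =>
      cases p' with
      | nil =>
        have h1 := (mem_words.mp h').1
        simp at h1
      | cons e' p' =>
        rw [List.cons_append, cons_mem_words] at h h'
        refine ih p p' t t' h.1 h'.1 ?_
        intro f hf f' hf'
        have h5 := h.2 f hf
        have h6 := h'.2 f' hf'
        rw [← h5.1, ← h6.1]
        exact cls_step C (hc e rfl e' rfl) rfl rfl

/-- the words with a given prefix -/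
private theorem clsAvg_pre (C : Cx V E) {n j : ℕ} (hj : j ≤ n) {p : List E} {t : E}
    (h : p ++ [t] ∈ C.words (j + 1)) :
    (C.words (n + 1)).filter (fun W => (p ++ [t]) <+: W) =
      (C.aft (n - j) t).image (fun W => (p ++ [t]) ++ W) := by
  obtain ⟨hl, hc⟩ := mem_words.mp h
  ext W
  simp only [mem_filter, mem_image]
  constructor
  · rintro ⟨hW, ⟨W', rfl⟩⟩
    refine ⟨W', ?_, rfl⟩
    obtain ⟨h1, h2⟩ := mem_words.mp hW
    rw [mem_aft, mem_words]
    rw [List.length_append] at h1
    refine ⟨by rw [List.length_cons]; omega, ?_⟩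
    rw [List.append_assoc] at h2
    exact (List.isChain_append.mp h2).2.1
  · rintro ⟨W', hW', rfl⟩
    rw [mem_aft, mem_words] at hW'
    obtain ⟨h1, h2⟩ := hW'
    rw [List.length_cons] at h1
    refine ⟨?_, List.prefix_append _ _⟩
    rw [mem_words]
    refine ⟨by rw [List.length_append]; omega, ?_⟩
    rw [List.isChain_cons] at h2
    rw [List.isChain_append]
    refine ⟨hc, h2.2, ?_⟩
    intro x hx y hy
    rw [List.getLast?_append] at hx
    simp only [List.getLast?_singleton, Option.some_or, Option.mem_def, Option.some.injEq] at hx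
    subst hx
    exact h2.1 y hy

private theorem clsAvg_card (C : Cx V E) {n j : ℕ} (hj : j ≤ n) {p : List E} {t : E}
    (h : p ++ [t] ∈ C.words (j + 1)) :
    ((C.words (n + 1)).filter (fun W => (p ++ [t]) <+: W)).card = C.q ^ (2 * (n - j)) := by
  rw [clsAvg_pre C hj h, Finset.card_image_of_injective _ (List.append_right_injective _),
    card_aft]

/-- head class predicate -/
private def hcl (C : Cx V E) (v : V) (W : List E) : Prop := ∀ e ∈ W.head?, Cls C v (C.src e)

/-- decomposition over prefixes -/
private theorem clsAvg_dec (C : Cx V E) {n j : ℕ} (hj : j ≤ n) (v : V) (F : List E → ℝ) :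
    ∑ W ∈ (C.words (n + 1)).filter (hcl C v), F W =
      ∑ P ∈ (C.words (j + 1)).filter (hcl C v),
        ∑ W ∈ (C.words (n + 1)).filter (fun W => P <+: W), F W := by
  have hmaps : ∀ W ∈ (C.words (n + 1)).filter (hcl C v),
      W.take (j + 1) ∈ (C.words (j + 1)).filter (hcl C v) := by
    intro W hW
    rw [mem_filter] at hW ⊢
    obtain ⟨h1, h2⟩ := hW
    obtain ⟨h3, h4⟩ := mem_words.mp h1
    refine ⟨?_, ?_⟩
    · rw [mem_words]
      exact ⟨by rw [List.length_take]; omega, h4.take _⟩
    · intro e he
      apply h2 e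
      cases W with
      | nil => simp at he
      | cons a W => simpa using he
  rw [← Finset.sum_fiberwise_of_maps_to hmaps]
  refine Finset.sum_congr rfl fun P hP => ?_
  refine Finset.sum_congr ?_ fun _ _ => rfl
  ext W
  simp only [mem_filter] at hP ⊢
  have hPl := (mem_words.mp hP.1).1
  constructor
  · rintro ⟨⟨h1, _⟩, h3⟩
    exact ⟨h1, by rw [← h3]; exact List.take_prefix _ _⟩
  · rintro ⟨h1, h2⟩
    have h3 : W.take (j + 1) = P := by
      rw [List.prefix_iff_eq_take, hPl] at h2
      exact h2.symm
    refine ⟨⟨h1, ?_⟩, h3⟩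
    intro e he
    apply hP.2 e
    rw [← h3]
    cases W with
    | nil => simp at he
    | cons a W => simpa using he

private theorem clsAvg_ne (C : Cx V E) {n : ℕ} {W : List E} (hW : W ∈ C.words (n + 1)) :
    ∃ e W', W = e :: W' := by
  cases W with
  | nil => simp [mem_words] at hW
  | cons e W' => exact ⟨e, W', rfl⟩

theorem cls_avg (C : Cx V E) (n : ℕ) (S : List E → ℝ) (hS : ∀ W ∈ C.words (n + 1), |S W| ≤ 1) :
    ∃ m : V → ℝ, (∀ v, |m v| ≤ 1) ∧ (∀ v w, Cls C v w → m v = m w) ∧
      0 ≤ ∑ W ∈ C.words (n + 1), msrc C m W * S W ∧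
      ∀ (j : ℕ) (β : E → ℝ) (ε δ : ℝ), j ≤ n →
        (∀ (p : List E) (t : E), p ++ [t] ∈ C.words (j + 1) →
          |∑ W ∈ (C.words (n + 1)).filter (fun W => (p ++ [t]) <+: W), S W -
            (C.q : ℝ) ^ (2 * (n - j)) * β t| ≤ ε * (C.q : ℝ) ^ (2 * (n - j))) →
        (∀ e e', Cls C (C.src e) (C.src e') → |β e - β e'| ≤ δ) →
        ∀ (p : List E) (t : E), p ++ [t] ∈ C.words (j + 1) →
          |∑ W ∈ (C.words (n + 1)).filter (fun W => (p ++ [t]) <+: W), (S W - msrc C m W)| ≤
            (2 * ε + δ) * (C.q : ℝ) ^ (2 * (n - j)) := by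
  have hq : (0 : ℝ) < C.q := by exact_mod_cast q_pos C
  have heqv := clsAvg_equiv C
  -- class sizes and class sums
  let Cl : V → Finset (List E) := fun v => (C.words (n + 1)).filter (hcl C v)
  let m : V → ℝ := fun v => (∑ W ∈ Cl v, S W) / ((Cl v).card : ℝ)
  have hClEq : ∀ v w, Cls C v w → Cl v = Cl w := by
    intro v w hvw
    apply Finset.filter_congr
    intro W _
    constructor
    · intro h e he
      exact heqv.trans (heqv.symm hvw) (h e he)
    · intro h e he
      exact heqv.trans hvw (h e he)
  have hmEq : ∀ v w, Cls C v w → m v = m w := by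
    intro v w hvw
    show (∑ W ∈ Cl v, S W) / ((Cl v).card : ℝ) = (∑ W ∈ Cl w, S W) / ((Cl w).card : ℝ)
    rw [hClEq v w hvw]
  have hm1 : ∀ v, |m v| ≤ 1 := by
    intro v
    show |(∑ W ∈ Cl v, S W) / ((Cl v).card : ℝ)| ≤ 1
    rw [abs_div, Nat.abs_cast]
    apply div_le_one_of_le₀ _ (Nat.cast_nonneg _)
    calc |∑ W ∈ Cl v, S W| ≤ ∑ W ∈ Cl v, |S W| := Finset.abs_sum_le_sum_abs _ _
      _ ≤ ∑ W ∈ Cl v, (1 : ℝ) := Finset.sum_le_sum fun W hW => hS W (mem_filter.mp hW).1
      _ = ((Cl v).card : ℝ) := by simp
  -- m times the class size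
  have hmul : ∀ v, m v * ((Cl v).card : ℝ) = ∑ W ∈ Cl v, S W := by
    intro v
    by_cases hc : ((Cl v).card : ℝ) = 0
    · have h0 : Cl v = ∅ := by
        rw [← Finset.card_eq_zero]
        exact_mod_cast hc
      rw [h0]
      simp
    · exact div_mul_cancel₀ _ hc
  refine ⟨m, hm1, hmEq, ?_, ?_⟩
  · -- third claim
    have hkey : ∑ W ∈ C.words (n + 1), msrc C m W * S W =
        ∑ W ∈ C.words (n + 1), msrc C m W ^ 2 := by
      -- expand m W ^ 2 as a double sum
      let R : List E → List E → Prop := fun W W' => ∀ e ∈ W.head?, hcl C (C.src e) W'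
      have hR : ∀ W ∈ C.words (n + 1), ∀ W' ∈ C.words (n + 1), R W W' → R W' W := by
        intro W hW W' hW' h e' he' e he
        obtain ⟨f, U, rfl⟩ := clsAvg_ne C hW
        obtain ⟨f', U', rfl⟩ := clsAvg_ne C hW'
        exact heqv.symm (h e he e' he')
      let N : List E → ℝ := fun W => (((C.words (n + 1)).filter (R W)).card : ℝ)
      have hN : ∀ W ∈ C.words (n + 1), ∀ W' ∈ C.words (n + 1), R W W' →
          msrc C m W = msrc C m W' ∧ N W = N W' := by
        intro W hW W' hW' h
        obtain ⟨f, U, rfl⟩ := clsAvg_ne C hW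
        obtain ⟨f', U', rfl⟩ := clsAvg_ne C hW'
        have h1 : Cls C (C.src f) (C.src f') := h f rfl f' rfl
        refine ⟨hmEq _ _ h1, ?_⟩
        show (((C.words (n + 1)).filter _).card : ℝ) = (((C.words (n + 1)).filter _).card : ℝ)
        congr 2
        apply Finset.filter_congr
        intro W'' _
        constructor
        · intro h2 e he e'' he''
          simp only [List.head?_cons, Option.mem_def, Option.some.injEq] at he
          subst he
          exact heqv.trans (heqv.symm h1) (h2 f rfl e'' he'')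
        · intro h2 e he e'' he''
          simp only [List.head?_cons, Option.mem_def, Option.some.injEq] at he
          subst he
          exact heqv.trans h1 (h2 f' rfl e'' he'')
      have hNpos : ∀ W ∈ C.words (n + 1), N W ≠ 0 := by
        intro W hW
        have : W ∈ (C.words (n + 1)).filter (R W) := by
          rw [mem_filter]
          refine ⟨hW, ?_⟩
          obtain ⟨f, U, rfl⟩ := clsAvg_ne C hW
          intro e he e' he'
          simp only [List.head?_cons, Option.mem_def, Option.some.injEq] at he he'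
          rw [← he, ← he']
          exact heqv.refl _
        have h2 : 0 < ((C.words (n + 1)).filter (R W)).card := Finset.card_pos.mpr ⟨W, this⟩
        show ((((C.words (n + 1)).filter (R W)).card : ℝ)) ≠ 0
        exact_mod_cast h2.ne'
      have hmW : ∀ W ∈ C.words (n + 1), msrc C m W * N W =
          ∑ W' ∈ (C.words (n + 1)).filter (R W), S W' := by
        intro W hW
        obtain ⟨f, U, rfl⟩ := clsAvg_ne C hW
        have h1 : (C.words (n + 1)).filter (R (f :: U)) = Cl (C.src f) := by
          apply Finset.filter_congr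
          intro W' _
          constructor
          · intro h; exact h f rfl
          · intro h e he
            simp only [List.head?_cons, Option.mem_def, Option.some.injEq] at he
            rw [← he]
            exact h
        show m (C.src f) * (((C.words (n + 1)).filter (R (f :: U))).card : ℝ) = _
        rw [h1, hmul]
      have e1 : ∀ W ∈ C.words (n + 1), msrc C m W ^ 2 =
          ∑ W' ∈ C.words (n + 1), if R W W' then msrc C m W * S W' / N W else 0 := by
        intro W hW
        rw [← Finset.sum_filter]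
        have h2 : msrc C m W ^ 2 = msrc C m W * (msrc C m W * N W) / N W := by
          field_simp [hNpos W hW]
        rw [h2, hmW W hW, Finset.mul_sum, Finset.sum_div]
      rw [Finset.sum_congr rfl e1, Finset.sum_comm]
      refine Finset.sum_congr rfl fun W' hW' => ?_
      have e2 : ∀ W ∈ C.words (n + 1),
          (if R W W' then msrc C m W * S W' / N W else 0) =
          (if R W' W then msrc C m W' * S W' / N W' else 0) := by
        intro W hW
        by_cases h : R W W'
        · have h3 := hR W hW W' hW' h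
          rw [if_pos h, if_pos h3]
          obtain ⟨h4, h5⟩ := hN W hW W' hW' h
          rw [h4, h5]
        · have h3 : ¬ R W' W := fun h4 => h (hR W' hW' W hW h4)
          rw [if_neg h, if_neg h3]
      rw [Finset.sum_congr rfl e2, ← Finset.sum_filter, Finset.sum_const, nsmul_eq_mul]
      show _ = N W' * _
      field_simp [hNpos W' hW']
    rw [hkey]
    exact Finset.sum_nonneg fun W _ => sq_nonneg _
  · -- last claim
    intro j β ε δ hj hB hβ p t hp
    set Rr : ℝ := (C.q : ℝ) ^ (2 * (n - j)) with hRr
    have hRpos : 0 < Rr := by positivity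
    obtain ⟨e0, P0, hP0⟩ := clsAvg_ne C hp
    -- the sum of m over the words with prefix p ++ [t]
    have h1 : ∀ W ∈ (C.words (n + 1)).filter (fun W => (p ++ [t]) <+: W),
        msrc C m W = m (C.src e0) := by
      intro W hW
      obtain ⟨_, ⟨W', rfl⟩⟩ := mem_filter.mp hW
      rw [hP0]
      rfl
    have h2 : ∑ W ∈ (C.words (n + 1)).filter (fun W => (p ++ [t]) <+: W), (S W - msrc C m W) =
        ∑ W ∈ (C.words (n + 1)).filter (fun W => (p ++ [t]) <+: W), S W - Rr * m (C.src e0) := by
      rw [Finset.sum_sub_distrib, Finset.sum_congr rfl h1, Finset.sum_const, clsAvg_card C hj hp,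
        nsmul_eq_mul, hRr]
      push_cast
      rfl
    -- bound |m - β t|
    have hprefix : ∀ P ∈ (C.words (j + 1)).filter (hcl C (C.src e0)),
        |∑ W ∈ (C.words (n + 1)).filter (fun W => P <+: W), S W - Rr * β t| ≤ (ε + δ) * Rr := by
      intro P hP
      obtain ⟨hPw, hPc⟩ := mem_filter.mp hP
      have hne : P ≠ [] := by
        obtain ⟨f, U, rfl⟩ := clsAvg_ne C hPw
        simp
      obtain ⟨p', t', rfl⟩ : ∃ p' t', P = p' ++ [t'] :=
        ⟨P.dropLast, P.getLast hne, (List.dropLast_append_getLast hne).symm⟩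
      have hcl' : Cls C (C.src t') (C.src t) := by
        apply clsAvg_last C j p' p t' t hPw hp
        intro e he e' he'
        rw [hP0] at he'
        simp only [List.head?_cons, Option.mem_def, Option.some.injEq] at he'
        rw [← he']
        exact heqv.symm (hPc e he)
      have h3 := hB p' t' hPw
      have h4 := hβ t' t hcl'
      have h5 : |Rr * β t' - Rr * β t| ≤ δ * Rr := by
        rw [← mul_sub, abs_mul, abs_of_pos hRpos, mul_comm]
        exact mul_le_mul_of_nonneg_right h4 hRpos.le
      calc |∑ W ∈ (C.words (n + 1)).filter (fun W => (p' ++ [t']) <+: W), S W - Rr * β t|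
          ≤ |∑ W ∈ (C.words (n + 1)).filter (fun W => (p' ++ [t']) <+: W), S W - Rr * β t'| +
            |Rr * β t' - Rr * β t| := abs_sub_le _ _ _
        _ ≤ ε * Rr + δ * Rr := add_le_add h3 h5
        _ = (ε + δ) * Rr := by ring
    set Pf := (C.words (j + 1)).filter (hcl C (C.src e0)) with hPf
    have hPne : p ++ [t] ∈ Pf := by
      rw [hPf, mem_filter]
      refine ⟨hp, ?_⟩
      intro e he
      rw [hP0] at he
      simp only [List.head?_cons, Option.mem_def, Option.some.injEq] at he
      rw [← he]
      exact heqv.refl _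
    have hPpos : (0 : ℝ) < (Pf.card : ℝ) := by
      exact_mod_cast Finset.card_pos.mpr ⟨_, hPne⟩
    have hcardP : ∀ P ∈ Pf, (((C.words (n + 1)).filter (fun W => P <+: W)).card : ℝ) = Rr := by
      intro P hP
      obtain ⟨hPw, _⟩ := mem_filter.mp hP
      have hne : P ≠ [] := by
        obtain ⟨f, U, rfl⟩ := clsAvg_ne C hPw
        simp
      obtain ⟨p', t', rfl⟩ : ∃ p' t', P = p' ++ [t'] :=
        ⟨P.dropLast, P.getLast hne, (List.dropLast_append_getLast hne).symm⟩
      rw [clsAvg_card C hj hPw, hRr]
      push_cast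
      rfl
    have hcardCl : ((Cl (C.src e0)).card : ℝ) = (Pf.card : ℝ) * Rr := by
      have h6 := clsAvg_dec C hj (C.src e0) (fun _ => (1 : ℝ))
      simp only [Finset.sum_const, nsmul_eq_mul, mul_one] at h6
      rw [show Cl (C.src e0) = (C.words (n + 1)).filter (hcl C (C.src e0)) from rfl, h6,
        Finset.sum_congr rfl hcardP, Finset.sum_const, nsmul_eq_mul]
    have hsumCl : m (C.src e0) * ((Pf.card : ℝ) * Rr) =
        ∑ P ∈ Pf, ∑ W ∈ (C.words (n + 1)).filter (fun W => P <+: W), S W := by
      rw [← hcardCl, hmul]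
      exact clsAvg_dec C hj (C.src e0) S
    have h7 : |(m (C.src e0) - β t) * ((Pf.card : ℝ) * Rr)| ≤ (Pf.card : ℝ) * ((ε + δ) * Rr) := by
      have h8 : (m (C.src e0) - β t) * ((Pf.card : ℝ) * Rr) =
          ∑ P ∈ Pf, (∑ W ∈ (C.words (n + 1)).filter (fun W => P <+: W), S W - Rr * β t) := by
        rw [Finset.sum_sub_distrib, ← hsumCl, Finset.sum_const, nsmul_eq_mul]
        ring
      rw [h8]
      calc |∑ P ∈ Pf, (∑ W ∈ (C.words (n + 1)).filter (fun W => P <+: W), S W - Rr * β t)|
          ≤ ∑ P ∈ Pf, |∑ W ∈ (C.words (n + 1)).filter (fun W => P <+: W), S W - Rr * β t| :=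
            Finset.abs_sum_le_sum_abs _ _
        _ ≤ ∑ P ∈ Pf, (ε + δ) * Rr := Finset.sum_le_sum hprefix
        _ = (Pf.card : ℝ) * ((ε + δ) * Rr) := by rw [Finset.sum_const, nsmul_eq_mul]
    have h9 : |m (C.src e0) - β t| ≤ ε + δ := by
      rw [abs_mul, abs_of_pos (mul_pos hPpos hRpos)] at h7
      have h10 : |m (C.src e0) - β t| * ((Pf.card : ℝ) * Rr) ≤
          (ε + δ) * ((Pf.card : ℝ) * Rr) := by
        refine h7.trans_eq ?_
        ring
      exact le_of_mul_le_mul_right h10 (mul_pos hPpos hRpos)
    rw [h2]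
    have h11 := hB p t hp
    have h12 : |Rr * β t - Rr * m (C.src e0)| ≤ (ε + δ) * Rr := by
      rw [← mul_sub, abs_mul, abs_of_pos hRpos, mul_comm, abs_sub_comm]
      exact mul_le_mul_of_nonneg_right h9 hRpos.le
    calc |∑ W ∈ (C.words (n + 1)).filter (fun W => (p ++ [t]) <+: W), S W - Rr * m (C.src e0)|
        ≤ |∑ W ∈ (C.words (n + 1)).filter (fun W => (p ++ [t]) <+: W), S W - Rr * β t| +
          |Rr * β t - Rr * m (C.src e0)| := abs_sub_le _ _ _
      _ ≤ ε * Rr + (ε + δ) * Rr := add_le_add h11 h12
      _ = (2 * ε + δ) * Rr := by ring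

end Pool.A2L
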