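import Pool.Agent.A2L.TriA

/-! Module Cnt: number of flat triangles with given first side. -/

set_option autoImplicit false

open Finset
open scoped Classical

noncomputable section

namespace Pool.A2L

variable {V E : Type} [Fintype V] [Fintype E]

/-- inversion of `Tri` for nonempty words -/
theorem tri_cons_iff {C : Cx V E} {W D : List E} {g : E} {Z : List E} :
    Tri C W D (g :: Z) ↔ ∃ W1 l D', D = l :: D' ∧ Row C W g W1 l ∧ Tri C W1 D' Z ∧
      ∀ z ∈ Z.head?, C.St z g := by
  constructor
  · intro h
    cases h with
    | cons h1 h2 h3 => exact ⟨_, _, _, rfl, h1, h2, h3⟩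
  · rintro ⟨W1, l, D', rfl, h1, h2, h3⟩
    exact Tri.cons h1 h2 h3

theorem mem_inc {C : Cx V E} {n : ℕ} {W Z : List E} (hW : W.length = n) :
    Z ∈ C.inc n W ↔ ∃ D, Tri C W D Z := by
  unfold Cx.inc
  rw [mem_filter]
  constructor
  · exact fun h => h.2
  · rintro ⟨D, hD⟩
    refine ⟨?_, D, hD⟩
    have := (tri_words hD).2.2
    rwa [hW] at this

private theorem cnt_fib {C : Cx V E} {n : ℕ} {w : E} {W : List E}
    (hW : w :: W ∈ C.words (n + 1)) (P : E → Prop) (k : ℕ)
    (hk : ∀ z, C.I z w → P z →
      ((C.inc (n + 1) (w :: W)).filter (fun Z => Z.head? = some z)).card = k) :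
    ((C.inc (n + 1) (w :: W)).filter (fun Z => ∀ z ∈ Z.head?, P z)).card =
      (univ.filter (fun z => C.I z w ∧ P z)).card * k := by
  have hlen : (w :: W).length = n + 1 := (mem_words.mp hW).1
  have h1 : (C.inc (n + 1) (w :: W)).filter (fun Z => ∀ z ∈ Z.head?, P z) =
      (univ.filter (fun z => C.I z w ∧ P z)).biUnion
        (fun z => (C.inc (n + 1) (w :: W)).filter (fun Z => Z.head? = some z)) := by
    ext Z
    simp only [mem_filter, mem_biUnion, mem_univ, true_and]
    constructor
    · rintro ⟨hZ, hP⟩
      obtain ⟨D, hD⟩ := (mem_inc hlen).mp hZ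
      cases Z with
      | nil =>
        have := (tri_length hD).2
        simp at this
      | cons z Z =>
        exact ⟨z, ⟨by
          cases D with
          | nil => exact tri_endA hD
          | cons d D => exact tri_endA hD, hP z rfl⟩, hZ, rfl⟩
    · rintro ⟨z, ⟨_, hP⟩, hZ, hz⟩
      refine ⟨hZ, ?_⟩
      intro z' hz'
      rw [hz] at hz'
      cases hz'
      exact hP
  rw [h1, Finset.card_biUnion, Finset.sum_const_nat (m := k)]
  · intro z hz
    simp only [mem_filter, mem_univ, true_and] at hz
    exact hk z hz.1 hz.2
  · intro z _ z' _ hne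
    rw [Function.onFun, Finset.disjoint_left]
    intro Z hZ hZ'
    simp only [mem_filter] at hZ hZ'
    apply hne
    have := hZ.2.symm.trans hZ'.2
    exact Option.some_injective _ this

theorem card_inc_first (C : Cx V E) {n : ℕ} {w g : E} {W : List E}
    (hW : w :: W ∈ C.words (n + 1)) (hg : C.I g w) :
    ((C.inc (n + 1) (w :: W)).filter (fun Z => Z.head? = some g)).card = C.q ^ n := by
  induction n generalizing w g W with
  | zero =>
    have hlen : (w :: W).length = 0 + 1 := (mem_words.mp hW).1
    have hW0 : W = [] := by
      rw [List.length_cons] at hlen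
      exact List.length_eq_zero_iff.mp (by omega)
    subst hW0
    rw [pow_zero, Finset.card_eq_one]
    refine ⟨[g], ?_⟩
    ext Z
    rw [mem_filter, mem_singleton, mem_inc hlen]
    constructor
    · rintro ⟨⟨D, hD⟩, hh⟩
      have h2 := (tri_length hD).2
      cases Z with
      | nil => simp at h2
      | cons z Z =>
        simp only [List.length_cons, List.length_nil] at h2
        have : Z = [] := List.length_eq_zero_iff.mp (by omega)
        subst this
        simp only [List.head?_cons, Option.some.injEq] at hh
        rw [hh]
    · rintro rfl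
      refine ⟨?_, rfl⟩
      obtain ⟨b, hb⟩ := hg
      exact ⟨[b], Tri.cons (Row.one (C.rot hb)) Tri.nil (by simp)⟩
  | succ n ih =>
    have hlen : (w :: W).length = n + 1 + 1 := (mem_words.mp hW).1
    have hch : (w :: W).IsChain C.St := (mem_words.mp hW).2
    obtain ⟨W1, l, hrow⟩ := row_exists C hch hg
    have hl1 := row_length hrow
    have hW1 : W1 ∈ C.words (n + 1) := by
      rw [mem_words]
      exact ⟨by omega, row_out_chain hrow⟩
    cases W1 with
    | nil => simp [mem_words] at hW1
    | cons a W1t =>
      obtain ⟨hs, hne, b, hT, hIba⟩ := row_out_head hrow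
      -- the fibre is the image of the set of continuations
      have h1 : (C.inc (n + 1 + 1) (w :: W)).filter (fun Z => Z.head? = some g) =
          ((C.inc (n + 1) (a :: W1t)).filter (fun Z => ∀ z ∈ Z.head?, C.St z g)).image
            (fun Z => g :: Z) := by
        ext Z
        rw [mem_filter, mem_inc hlen, mem_image]
        constructor
        · rintro ⟨⟨D, hD⟩, hh⟩
          cases Z with
          | nil => simp at hh
          | cons z Z =>
            simp only [List.head?_cons, Option.some.injEq] at hh
            subst hh
            obtain ⟨W1', l', D', rfl, hr, ht, hz⟩ := tri_cons_iff.mp hD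
            obtain ⟨hw, hl⟩ := row_unique hrow hr
            subst hw
            subst hl
            refine ⟨Z, ?_, rfl⟩
            rw [mem_filter, mem_inc (mem_words.mp hW1).1]
            exact ⟨⟨D', ht⟩, hz⟩
        · rintro ⟨Z', hZ', rfl⟩
          rw [mem_filter, mem_inc (mem_words.mp hW1).1] at hZ'
          obtain ⟨⟨D', ht⟩, hz⟩ := hZ'
          exact ⟨⟨l :: D', Tri.cons hrow ht hz⟩, rfl⟩
      rw [h1, Finset.card_image_of_injective _ (List.cons_injective)]
      rw [cnt_fib hW1 (fun z => C.St z g) (C.q ^ n) (fun z hz _ => ih hW1 hz)]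
      have h2 : (univ.filter (fun z => C.I z a ∧ C.St z g)) =
          (univ.filter (fun z => ∃ g', C.T z a g')).erase b := by
        ext z
        simp only [mem_filter, mem_univ, true_and, mem_erase]
        constructor
        · rintro ⟨h3, h4⟩
          refine ⟨?_, h3⟩
          rintro rfl
          exact h4.2 (I_of_T2 hT)
        · rintro ⟨h3, h4⟩
          refine ⟨h4, ?_, ?_⟩
          · rw [← hs]
            exact I_comp h4
          · intro h5
            rcases I_two h4 h5 hIba (I_of_T2 hT) with h6 | h6
            · exact h3 h6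
            · exact hne h6
      have h7 : b ∈ univ.filter (fun z => ∃ g', C.T z a g') := by
        simp only [mem_filter, mem_univ, true_and]
        exact hIba
      rw [h2, Finset.card_erase_of_mem h7, C.card_in a, Nat.add_sub_cancel, pow_succ, mul_comm]

theorem card_inc (C : Cx V E) {n : ℕ} {W : List E} (hW : W ∈ C.words (n + 1)) :
    (C.inc (n + 1) W).card = (C.q + 1) * C.q ^ n := by
  cases W with
  | nil => simp [mem_words] at hW
  | cons w W =>
    have hlen : (w :: W).length = n + 1 := (mem_words.mp hW).1
    have h1 := cnt_fib hW (fun z => C.I z w) (C.q ^ n) (fun z hz _ => card_inc_first C hW hz)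
    have h0 : ∀ Z ∈ C.inc (n + 1) (w :: W), ∀ z ∈ Z.head?, C.I z w := by
      intro Z hZ z hz
      obtain ⟨D, hD⟩ := (mem_inc hlen).mp hZ
      cases Z with
      | nil => simp at hz
      | cons z' Z =>
        simp only [List.head?_cons, Option.mem_def, Option.some.injEq] at hz
        subst hz
        cases D with
        | nil => exact tri_endA hD
        | cons d D => exact tri_endA hD
    rw [Finset.filter_true_of_mem h0] at h1
    rw [h1]
    congr 1
    rw [← C.card_in w]
    congr 1
    ext z
    simp only [mem_filter, mem_univ, true_and, and_self]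
    rfl

end Pool.A2L
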