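import Pool.Agent.A2L.TrapK

/-! Module ETrap: if the stationary means charge a bounded interval, the harmonic function is
constant on `O`.

`half`: let `ι` be real with `ι ≤ h y e` for all `e`, `y ∈ O (src e)`, and for every `s > ι` there are
`e`, `y ∈ O (src e)` with `h y e ≤ s`. Then `K e (1_{z ≥ y} (h z e - ι)) = 0` for all `e`,
`y ∈ O (src e)`. Proof: let `s > ι` and suppose `y ∈ O (src e) ∩ RK h K s e` for some `e`, `y`. By
`RK_inv`, `β v = {y | ∀ e, src e = v → y ∈ RK h K s e}` equals `RK h K s e` for every `e` with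
`src e = v` (every vertex has incoming and outgoing edges) and satisfies the invariance required
in `hO`, so `O v ⊆ β v` for all `v`. Then for all `e`, `y ∈ O (src e)`: `0 < K e (1_{z ≥ y}
(h z e - s)_+)`, so there is `z ≥ y` with `h z e > s` (otherwise the function is `0`, `K_zero`), so
`h y e ≥ h z e > s` (`h_anti`); this contradicts the choice of `e, y` with `h y e ≤ s`. So for
`y ∈ O (src e)` and `s > ι`: `K e (1_{z ≥ y} (h z e - s)_+) ≤ 0`, and
`1_{z ≥ y} (h z e - ι) ≤ 1_{z ≥ y} (h z e - s)_+ + (s - ι)` on `O`, so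
`0 ≤ K e (1_{z ≥ y} (h z e - ι)) ≤ s - ι` for all `s > ι`.
Dual: apply `half` to the order dual `Xᵒᵈ` with `h' y e = - h (ofDual y) e`,
`a' e = (a e).dual`, `K' e φ = K e (φ ∘ toDual)`, `O'`: get for `ς = sup h` on `O`:
`K e (1_{z ≤ y} (ς - h z e)) = 0`.
Conclusion: let `ι = inf`, `ς = sup` of `h y e` over `e`, `y ∈ O (src e)` (bounded, nonempty). With
`e0, y1, y2` of `hK` and `J = 1_{y1 ≤ z ≤ y2}`: `K e0 (J (h - ι)) = 0` and `K e0 (J (ς - h)) = 0`
(both between `0` and the functions above), so `(ς - ι) K e0 J = 0`, `ς = ι`. -/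

set_option autoImplicit false

open Finset
open scoped Classical

noncomputable section

namespace Pool.A2L

variable {V E : Type} [Fintype V] [Fintype E] {X : Type} [LinearOrder X]

private theorem etr_bd {C : Cx V E} {a : E → X ≃o X} {O : V → Set X} {h : X → E → ℝ}
    {K : E → (X → ℝ) → ℝ} (H : HK C a O h K) (e : E) (y : X) (s : ℝ) :
    BdX (fun z => if y ≤ z then max (h z e - s) 0 else 0) := by
  refine ⟨1 + |s|, fun z => ?_⟩
  have h1 := abs_le.mp (H.h_bdd z e)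
  have h2 := neg_abs_le s
  have h3 := abs_nonneg s
  show |if y ≤ z then max (h z e - s) 0 else 0| ≤ 1 + |s|
  split_ifs
  · rw [abs_of_nonneg (le_max_right _ _)]
    apply max_le <;> linarith
  · rw [abs_zero]; linarith

private theorem etr_bd2 {C : Cx V E} {a : E → X ≃o X} {O : V → Set X} {h : X → E → ℝ}
    {K : E → (X → ℝ) → ℝ} (H : HK C a O h K) (e : E) (P : X → Prop) [DecidablePred P] (s : ℝ) :
    BdX (fun z => if P z then h z e - s else 0) := by
  refine ⟨1 + |s|, fun z => ?_⟩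
  have h1 := abs_le.mp (H.h_bdd z e)
  have h2 := neg_abs_le s
  have h4 := le_abs_self s
  have h3 := abs_nonneg s
  show |if P z then h z e - s else 0| ≤ 1 + |s|
  split_ifs
  · rw [abs_le]; constructor <;> linarith
  · rw [abs_zero]; linarith

private theorem etr_out (C : Cx V E) (v : V) : ∃ f, C.src f = v := by
  have h1 := C.card_src v
  have h2 : 0 < (univ.filter (fun f => C.src f = v)).card := by rw [h1]; omega
  obtain ⟨f, hf⟩ := Finset.card_pos.mp h2
  exact ⟨f, (Finset.mem_filter.mp hf).2⟩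

private theorem etr_in (C : Cx V E) (v : V) : ∃ f, C.tgt f = v := etr_out C.op v

theorem half {C : Cx V E} {a : E → X ≃o X} (ha : Lab C a) {O : V → Set X} {h : X → E → ℝ}
    {K : E → (X → ℝ) → ℝ} (H : HK C a O h K)
    (hO : ∀ β : V → Set X, (∀ e y, y ∈ β (C.src e) ↔ (a e).symm y ∈ β (C.tgt e)) →
      (∃ v, ∃ y ∈ O v, y ∈ β v) → ∀ v, ∀ y ∈ O v, y ∈ β v)
    {ι : ℝ} (h1 : ∀ e, ∀ y ∈ O (C.src e), ι ≤ h y e)
    (h2 : ∀ s, ι < s → ∃ e, ∃ y ∈ O (C.src e), h y e ≤ s) :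
    ∀ e, ∀ y ∈ O (C.src e), K e (fun z => if y ≤ z then h z e - ι else 0) = 0 := by
  -- first step: nothing in `RK`
  have key : ∀ s, ι < s → ∀ e, ∀ y ∈ O (C.src e), y ∉ RK h K s e := by
    intro s hs e y hy hyR
    have hinv := RK_inv ha H s
    have hsame : ∀ e e', C.src e = C.src e' → ∀ y, y ∈ RK h K s e → y ∈ RK h K s e' := by
      intro e e' hee y hyy
      obtain ⟨d, hd⟩ := etr_in C (C.src e)
      have k1 := hinv d e hd (a d y)
      have k2 := hinv d e' (hd.trans hee) (a d y)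
      rw [OrderIso.symm_apply_apply] at k1 k2
      exact k2.mp (k1.mpr hyy)
    have hall := hO (fun v => {y | ∀ e, C.src e = v → y ∈ RK h K s e}) (by
      intro e y
      constructor
      · intro hy f hf
        exact (hinv e f hf.symm y).mp (hy e rfl)
      · intro hy e' he'
        obtain ⟨f, hf⟩ := etr_out C (C.tgt e)
        have k1 : y ∈ RK h K s e := (hinv e f hf.symm y).mpr (hy f hf)
        exact hsame e e' he'.symm y k1)
      ⟨C.src e, y, hy, fun e' he' => hsame e e' he'.symm y hyR⟩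
    obtain ⟨e1, y1, hy1, hle⟩ := h2 s hs
    have k1 : y1 ∈ RK h K s e1 := hall (C.src e1) y1 hy1 e1 rfl
    have k2 : K e1 (fun z => if y1 ≤ z then max (h z e1 - s) 0 else 0) ≤ K e1 (fun _ => 0) := by
      refine H.K_mono e1 _ _ (etr_bd H e1 y1 s) ⟨0, fun _ => by simp⟩ (fun z _ => ?_)
      show (if y1 ≤ z then max (h z e1 - s) 0 else 0) ≤ 0
      split_ifs with hz
      · have := H.h_anti e1 hz
        simp only at this
        exact max_le (by linarith) le_rfl
      · exact le_rfl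
    rw [K_zero H e1] at k2
    have k3 : 0 < K e1 (fun z => if y1 ≤ z then max (h z e1 - s) 0 else 0) := k1
    linarith
  intro e y hy
  have hlow : 0 ≤ K e (fun z => if y ≤ z then h z e - ι else 0) := by
    refine K_nonneg H e (etr_bd2 H e (fun z => y ≤ z) ι) (fun z hz => ?_)
    have := h1 e z hz
    show 0 ≤ if y ≤ z then h z e - ι else 0
    split_ifs
    · linarith
    · exact le_rfl
  have hup : ∀ s, ι < s → K e (fun z => if y ≤ z then h z e - ι else 0) ≤ s - ι := by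
    intro s hs
    have k0 : K e (fun z => if y ≤ z then max (h z e - s) 0 else 0) ≤ 0 := not_lt.mp (key s hs e y hy)
    have hb1 := etr_bd H e y s
    have hb2 : BdX (fun _ : X => (s - ι) * (1 : ℝ)) := ⟨|(s - ι) * 1|, fun _ => le_rfl⟩
    have hb3 : BdX (fun z => (if y ≤ z then max (h z e - s) 0 else 0) + (s - ι) * (1 : ℝ)) := by
      obtain ⟨M, hM⟩ := hb1
      obtain ⟨M', hM'⟩ := hb2
      exact ⟨M + M', fun z => (abs_add_le _ _).trans (add_le_add (hM z) (hM' z))⟩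
    have k1 := H.K_mono e (fun z => if y ≤ z then h z e - ι else 0)
      (fun z => (if y ≤ z then max (h z e - s) 0 else 0) + (s - ι) * (1 : ℝ))
      (etr_bd2 H e (fun z => y ≤ z) ι) hb3 (fun z _ => by
        show (if y ≤ z then h z e - ι else 0) ≤
          (if y ≤ z then max (h z e - s) 0 else 0) + (s - ι) * (1 : ℝ)
        split_ifs
        · have := le_max_left (h z e - s) 0
          linarith
        · linarith)
    rw [H.K_add e _ _ hb1 hb2, H.K_smul e _ _ ⟨1, fun _ => by simp⟩, H.K_one] at k1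
    linarith
  apply le_antisymm _ hlow
  by_contra hcon
  push Not at hcon
  have := hup (ι + K e (fun z => if y ≤ z then h z e - ι else 0) / 2) (by linarith)
  linarith

theorem const_of_HK {C : Cx V E} {a : E → X ≃o X} (ha : Lab C a) {O : V → Set X} {h : X → E → ℝ}
    {K : E → (X → ℝ) → ℝ} (H : HK C a O h K)
    (hO : ∀ β : V → Set X, (∀ e y, y ∈ β (C.src e) ↔ (a e).symm y ∈ β (C.tgt e)) →
      (∃ v, ∃ y ∈ O v, y ∈ β v) → ∀ v, ∀ y ∈ O v, y ∈ β v)
    (hK : ∃ e0 : E, ∃ y1 ∈ O (C.src e0), ∃ y2 ∈ O (C.src e0),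
      0 < K e0 (fun z => if y1 ≤ z ∧ z ≤ y2 then 1 else 0)) :
    ∃ c : ℝ, ∀ e, ∀ y ∈ O (C.src e), h y e = c := by
  obtain ⟨e0, y1, hy1, y2, hy2, hKpos⟩ := hK
  set S : Set ℝ := {r | ∃ e, ∃ y ∈ O (C.src e), h y e = r} with hS
  have hne : S.Nonempty := ⟨h y1 e0, e0, y1, hy1, rfl⟩
  have hbb : BddBelow S := ⟨-1, by rintro r ⟨e, y, _, rfl⟩; exact (abs_le.mp (H.h_bdd y e)).1⟩
  have hba : BddAbove S := ⟨1, by rintro r ⟨e, y, _, rfl⟩; exact (abs_le.mp (H.h_bdd y e)).2⟩
  have hι1 : ∀ e, ∀ y ∈ O (C.src e), sInf S ≤ h y e := fun e y hy => csInf_le hbb ⟨e, y, hy, rfl⟩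
  have hς1 : ∀ e, ∀ y ∈ O (C.src e), h y e ≤ sSup S := fun e y hy => le_csSup hba ⟨e, y, hy, rfl⟩
  have hι2 : ∀ s, sInf S < s → ∃ e, ∃ y ∈ O (C.src e), h y e ≤ s := by
    intro s hs
    obtain ⟨r, ⟨e, y, hy, rfl⟩, hr⟩ := exists_lt_of_csInf_lt hne hs
    exact ⟨e, y, hy, hr.le⟩
  have hς2 : ∀ s, -sSup S < s → ∃ e, ∃ y ∈ O (C.src e), -h y e ≤ s := by
    intro s hs
    obtain ⟨r, ⟨e, y, hy, rfl⟩, hr⟩ := exists_lt_of_lt_csSup hne (show -s < sSup S by linarith)
    exact ⟨e, y, hy, by linarith⟩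
  have A1 := half ha H hO hι1 hι2 e0 y1 hy1
  -- the dual
  let a' : E → Xᵒᵈ ≃o Xᵒᵈ := fun e => (a e).dual
  let O' : V → Set Xᵒᵈ := fun v => {y | OrderDual.ofDual y ∈ O v}
  let h' : Xᵒᵈ → E → ℝ := fun y e => - h (OrderDual.ofDual y) e
  let K' : E → (Xᵒᵈ → ℝ) → ℝ := fun e φ => K e (fun y => φ (OrderDual.toDual y))
  have bdx : ∀ φ : Xᵒᵈ → ℝ, BdX φ → BdX (fun y : X => φ (OrderDual.toDual y)) := by
    rintro φ ⟨M, hM⟩
    exact ⟨M, fun y => hM _⟩
  have ha' : Lab C a' := fun e f g hT y => ha e f g hT (OrderDual.ofDual y)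
  have H' : HK C a' O' h' K' := by
    refine ⟨?_, ?_, ?_, ?_, ?_, ?_, ?_, ?_⟩
    · intro y e
      show |-h (OrderDual.ofDual y) e| ≤ 1
      rw [abs_neg]; exact H.h_bdd _ _
    · intro e y y' hyy
      show -h (OrderDual.ofDual y') e ≤ -h (OrderDual.ofDual y) e
      have hle : OrderDual.ofDual y' ≤ OrderDual.ofDual y := hyy
      have := H.h_anti e hle
      simp only at this
      linarith
    · intro y e
      show -h (OrderDual.ofDual y) e = (∑ f ∈ univ.filter (fun f => C.St e f),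
        -h ((a e).symm (OrderDual.ofDual y)) f) / (C.q : ℝ) ^ 2
      rw [H.h_harm (OrderDual.ofDual y) e, Finset.sum_neg_distrib, neg_div]
    · intro e φ ψ hφ hψ
      exact H.K_add e _ _ (bdx φ hφ) (bdx ψ hψ)
    · intro e c φ hφ
      exact H.K_smul e c _ (bdx φ hφ)
    · intro e φ ψ hφ hψ hle
      exact H.K_mono e _ _ (bdx φ hφ) (bdx ψ hψ) (fun y hy => hle (OrderDual.toDual y) hy)
    · intro e
      exact H.K_one e
    · intro f φ hφ
      exact H.K_stat f _ (bdx φ hφ)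
  have hO' : ∀ β : V → Set Xᵒᵈ, (∀ e y, y ∈ β (C.src e) ↔ (a' e).symm y ∈ β (C.tgt e)) →
      (∃ v, ∃ y ∈ O' v, y ∈ β v) → ∀ v, ∀ y ∈ O' v, y ∈ β v := by
    intro β hβ ⟨v, y, hy, hyβ⟩ v' y' hy'
    exact hO (fun v => {y | OrderDual.toDual y ∈ β v}) (fun e y => hβ e (OrderDual.toDual y))
      ⟨v, OrderDual.ofDual y, hy, hyβ⟩ v' (OrderDual.ofDual y') hy'
  have A2 := half ha' H' hO' (ι := -sSup S) (fun e y hy => by
      have := hς1 e (OrderDual.ofDual y) hy
      show -sSup S ≤ -h (OrderDual.ofDual y) e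
      linarith)
    (fun s hs => by
      obtain ⟨e, y, hy, hle⟩ := hς2 s hs
      exact ⟨e, OrderDual.toDual y, hy, hle⟩) e0 (OrderDual.toDual y2) hy2
  have A2' : K e0 (fun z => if z ≤ y2 then -h z e0 - -sSup S else 0) = 0 := by
    refine Eq.trans ?_ A2
    show K e0 _ = K e0 (fun z => if OrderDual.toDual y2 ≤ OrderDual.toDual z then
      -h z e0 - -sSup S else 0)
    refine congrArg (K e0) ?_
    funext z
    by_cases hz : z ≤ y2
    · rw [if_pos hz, if_pos (OrderDual.toDual_le_toDual.mpr hz)]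
    · rw [if_neg hz, if_neg (fun hh => hz (OrderDual.toDual_le_toDual.mp hh))]
  -- bounds
  have hbJ : ∀ c : ℝ, BdX (fun z : X => if y1 ≤ z ∧ z ≤ y2 then c else 0) := by
    intro c
    refine ⟨|c|, fun z => ?_⟩
    show |if y1 ≤ z ∧ z ≤ y2 then c else 0| ≤ |c|
    split_ifs
    · exact le_rfl
    · rw [abs_zero]; exact abs_nonneg c
  have hb1 := etr_bd2 H e0 (fun z => y1 ≤ z ∧ z ≤ y2) (sInf S)
  have hb1' := etr_bd2 H e0 (fun z => y1 ≤ z) (sInf S)
  have hbn : ∀ (P : X → Prop) [DecidablePred P], BdX (fun z => if P z then -h z e0 - -sSup S else 0) := by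
    intro P _
    obtain ⟨M, hM⟩ := etr_bd2 H e0 P (sSup S)
    refine ⟨M, fun z => ?_⟩
    have := hM z
    simp only at this
    show |if P z then -h z e0 - -sSup S else 0| ≤ M
    split_ifs at this ⊢ with hz
    · rw [abs_sub_comm] at this
      have e : -h z e0 - -sSup S = sSup S - h z e0 := by ring
      rw [e]; exact this
    · exact this
  have B1 : K e0 (fun z => if y1 ≤ z ∧ z ≤ y2 then h z e0 - sInf S else 0) ≤ 0 := by
    refine le_of_le_of_eq ?_ A1
    refine H.K_mono e0 _ _ hb1 hb1' (fun z hz => ?_)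
    have := hι1 e0 z hz
    show (if y1 ≤ z ∧ z ≤ y2 then h z e0 - sInf S else 0) ≤ if y1 ≤ z then h z e0 - sInf S else 0
    by_cases c1 : y1 ≤ z
    · by_cases c2 : z ≤ y2
      · rw [if_pos ⟨c1, c2⟩, if_pos c1]
      · rw [if_neg (fun hh => c2 hh.2), if_pos c1]; linarith
    · rw [if_neg (fun hh => c1 hh.1), if_neg c1]
  have B2 : K e0 (fun z => if y1 ≤ z ∧ z ≤ y2 then -h z e0 - -sSup S else 0) ≤ 0 := by
    refine le_of_le_of_eq ?_ A2'
    refine H.K_mono e0 _ _ (hbn (fun z => y1 ≤ z ∧ z ≤ y2)) (hbn (fun z => z ≤ y2)) (fun z hz => ?_)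
    have := hς1 e0 z hz
    show (if y1 ≤ z ∧ z ≤ y2 then -h z e0 - -sSup S else 0) ≤
      if z ≤ y2 then -h z e0 - -sSup S else 0
    by_cases c2 : z ≤ y2
    · by_cases c1 : y1 ≤ z
      · rw [if_pos ⟨c1, c2⟩, if_pos c2]
      · rw [if_neg (fun hh => c1 hh.1), if_pos c2]; linarith
    · rw [if_neg (fun hh => c2 hh.2), if_neg c2]
  have B3 := H.K_add e0 _ _ hb1 (hbn (fun z => y1 ≤ z ∧ z ≤ y2))
  have B4 := H.K_smul e0 (sSup S - sInf S) _ (hbJ 1)
  have B5 : (fun z => (if y1 ≤ z ∧ z ≤ y2 then h z e0 - sInf S else 0) +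
      (if y1 ≤ z ∧ z ≤ y2 then -h z e0 - -sSup S else 0)) =
      (fun z => (sSup S - sInf S) * (if y1 ≤ z ∧ z ≤ y2 then (1 : ℝ) else 0)) := by
    funext z
    split_ifs <;> ring
  have B3' : K e0 (fun z => (if y1 ≤ z ∧ z ≤ y2 then h z e0 - sInf S else 0) +
      (if y1 ≤ z ∧ z ≤ y2 then -h z e0 - -sSup S else 0)) =
      K e0 (fun z => if y1 ≤ z ∧ z ≤ y2 then h z e0 - sInf S else 0) +
      K e0 (fun z => if y1 ≤ z ∧ z ≤ y2 then -h z e0 - -sSup S else 0) := B3
  rw [B5, B4] at B3'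
  have B6 : sInf S ≤ sSup S := (hι1 e0 y1 hy1).trans (hς1 e0 y1 hy1)
  have B7 : sSup S - sInf S ≤ 0 := by
    by_contra hcon
    push Not at hcon
    have := mul_pos hcon hKpos
    linarith
  refine ⟨sInf S, fun e y hy => ?_⟩
  have := hι1 e y hy
  have := hς1 e y hy
  linarith

end Pool.A2L
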