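import Pool.Agent.A2L.Basic

/-! Module KapH: relation between `kap` and the functions `Hh` of the opposite complex; the
finite averages `kap m e` are positive linear functionals.

* `Lab_op`: `C.op.T e f g` is `C.T g f e`; from `a g (a f (a e z)) = z` for all `z`.
* `Hh_op_eq`: induction on `m` (for all `y`, `e`). `m = 0`: both are
  `sg ((a e).symm (x (C.src e))) y`. Step: `Hh C.op .. (m+1) y e` is the average over `e'` with
  `C.op.St e e'` (i.e. `C.St e' e`) of `Hh C.op .. m ((a e).symm.symm y) e'`, by induction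
  `kap m e' (fun p => sg ((a e').symm p) (a e y))`, and
  `kap (m+1) e φ` is the average over `e'` with `C.St e' e` of `kap m e' (fun p => φ ((a e').symm p))`
  with `φ p = sg ((a e).symm p) y`; use `sg ((a e).symm p') y = sg p' (a e y)`.
* the rest: induction on `m`, `card_pred` for `kap_one` and `kap_abs`. -/

set_option autoImplicit false

open Finset
open scoped Classical

noncomputable section

namespace Pool.A2L

variable {V E : Type} [Fintype V] [Fintype E] {X : Type} [LinearOrder X]

theorem Lab_op {C : Cx V E} {a : E → X ≃o X} (ha : Lab C a) :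
    Lab C.op (fun e => (a e).symm) := by
  intro e f g h y
  have h' : C.T g f e := h
  have h1 := ha g f e h' ((a e).symm ((a f).symm ((a g).symm y)))
  simp only [OrderIso.apply_symm_apply] at h1
  exact h1.symm

private theorem KapH_sg (b : X ≃o X) (p y : X) : sg p (b y) = sg (b.symm p) y := by
  unfold sg
  have h1 : b y < p ↔ y < b.symm p := by
    rw [← b.symm.lt_iff_lt (x := b y), OrderIso.symm_apply_apply]
  have h2 : p < b y ↔ b.symm p < y := by
    rw [← b.symm.lt_iff_lt (y := b y), OrderIso.symm_apply_apply]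
  simp only [h1, h2]

theorem Hh_op_eq (C : Cx V E) (a : E → X ≃o X) (x : V → X) (m : ℕ) (y : X) (e : E) :
    Hh C.op (fun e => (a e).symm) x m y e =
      kap C a x m e (fun p => sg ((a e).symm p) y) := by
  induction m generalizing y e with
  | zero => rfl
  | succ m ih =>
    have h1 : Hh C.op (fun e => (a e).symm) x (m + 1) y e =
        (∑ f ∈ univ.filter (fun f => C.op.St e f),
          Hh C.op (fun e => (a e).symm) x m ((a e).symm.symm y) f) / (C.q : ℝ) ^ 2 := rfl
    have h2 : kap C a x (m + 1) e (fun p => sg ((a e).symm p) y) =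
        (∑ f ∈ univ.filter (fun f => C.St f e),
          kap C a x m f (fun p => sg ((a e).symm ((a f).symm p)) y)) / (C.q : ℝ) ^ 2 := rfl
    rw [h1, h2]
    congr 1
    refine Finset.sum_congr ?_ ?_
    · ext f
      simp only [mem_filter, mem_univ, true_and]
      exact St_op
    · intro f _
      rw [ih]
      congr 1
      funext p
      exact KapH_sg (a e) _ _

theorem kap_add (C : Cx V E) (a : E → X ≃o X) (x : V → X) (m : ℕ) (e : E) (φ ψ : X → ℝ) :
    kap C a x m e (fun y => φ y + ψ y) = kap C a x m e φ + kap C a x m e ψ := by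
  induction m generalizing e φ ψ with
  | zero => rfl
  | succ m ih =>
    have h2 : ∀ θ : X → ℝ, kap C a x (m + 1) e θ =
        (∑ f ∈ univ.filter (fun f => C.St f e),
          kap C a x m f (fun p => θ ((a f).symm p))) / (C.q : ℝ) ^ 2 := fun _ => rfl
    rw [h2, h2, h2, ← add_div, ← Finset.sum_add_distrib]
    congr 1
    refine Finset.sum_congr rfl (fun f _ => ?_)
    exact ih f (fun p => φ ((a f).symm p)) (fun p => ψ ((a f).symm p))

theorem kap_smul (C : Cx V E) (a : E → X ≃o X) (x : V → X) (m : ℕ) (e : E) (c : ℝ) (φ : X → ℝ) :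
    kap C a x m e (fun y => c * φ y) = c * kap C a x m e φ := by
  induction m generalizing e φ with
  | zero => rfl
  | succ m ih =>
    have h2 : ∀ θ : X → ℝ, kap C a x (m + 1) e θ =
        (∑ f ∈ univ.filter (fun f => C.St f e),
          kap C a x m f (fun p => θ ((a f).symm p))) / (C.q : ℝ) ^ 2 := fun _ => rfl
    rw [h2, h2, ← mul_div_assoc, Finset.mul_sum]
    congr 1
    refine Finset.sum_congr rfl (fun f _ => ?_)
    exact ih f (fun p => φ ((a f).symm p))

theorem kap_one (C : Cx V E) (a : E → X ≃o X) (x : V → X) (m : ℕ) (e : E) :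
    kap C a x m e (fun _ => 1) = 1 := by
  induction m generalizing e with
  | zero => rfl
  | succ m ih =>
    have h2 : kap C a x (m + 1) e (fun _ => 1) =
        (∑ f ∈ univ.filter (fun f => C.St f e),
          kap C a x m f (fun _ => 1)) / (C.q : ℝ) ^ 2 := rfl
    rw [h2, Finset.sum_congr rfl (fun f _ => ih f), Finset.sum_const, card_pred, nsmul_eq_mul,
      mul_one]
    have hq : (0 : ℝ) < (C.q : ℝ) := by exact_mod_cast q_pos C
    push_cast
    exact div_self (by positivity)

theorem kap_mono (C : Cx V E) (a : E → X ≃o X) (x : V → X) (O : V → Set X)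
    (hx : ∀ v, x v ∈ O v) (hO : ∀ e, ∀ y ∈ O (C.src e), (a e).symm y ∈ O (C.tgt e))
    (m : ℕ) (e : E) (φ ψ : X → ℝ) (h : ∀ y ∈ O (C.src e), φ y ≤ ψ y) :
    kap C a x m e φ ≤ kap C a x m e ψ := by
  induction m generalizing e φ ψ with
  | zero => exact h _ (hx _)
  | succ m ih =>
    have h2 : ∀ θ : X → ℝ, kap C a x (m + 1) e θ =
        (∑ f ∈ univ.filter (fun f => C.St f e),
          kap C a x m f (fun p => θ ((a f).symm p))) / (C.q : ℝ) ^ 2 := fun _ => rfl
    rw [h2, h2]
    have hq : (0 : ℝ) < (C.q : ℝ) := by exact_mod_cast q_pos C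
    refine div_le_div_of_nonneg_right ?_ (by positivity)
    refine Finset.sum_le_sum (fun f hf => ?_)
    simp only [mem_filter, mem_univ, true_and] at hf
    refine ih f _ _ (fun y hy => h _ ?_)
    rw [← hf.1]
    exact hO f y hy

theorem kap_abs (C : Cx V E) (a : E → X ≃o X) (x : V → X) (m : ℕ) (e : E) {φ : X → ℝ} {M : ℝ}
    (h : ∀ y, |φ y| ≤ M) : |kap C a x m e φ| ≤ M := by
  have key : ∀ c : ℝ, kap C a x m e (fun _ => c) = c := by
    intro c
    have h1 := kap_smul C a x m e c (fun _ => 1)
    rw [kap_one, mul_one] at h1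
    simpa using h1
  have hm := fun (ψ1 ψ2 : X → ℝ) (hh : ∀ y, ψ1 y ≤ ψ2 y) =>
    kap_mono C a x (fun _ => Set.univ) (fun _ => Set.mem_univ _)
      (fun _ _ _ => Set.mem_univ _) m e ψ1 ψ2 (fun y _ => hh y)
  rw [abs_le]
  constructor
  · have h1 := hm (fun _ => -M) φ (fun y => (abs_le.mp (h y)).1)
    rw [key] at h1
    exact h1
  · have h1 := hm φ (fun _ => M) (fun y => (abs_le.mp (h y)).2)
    rw [key] at h1
    exact h1

end Pool.A2L
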