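import Pool.Agent.A2L.Basic

/-! Module SumH: sums of signs over words and the functions `Hh`; propagation of approximations.

* `sum_aft_sg`: induction on `n` (`aft_zero`, `sum_aft_succ`), with
  `sg (a e p) y = sg p ((a e).symm y)` and `ep C a x (tgt e) (f :: W) = a f (ep C a x (tgt f) W)`.
* `Hh_anti`: `sg p` is antitone in `y`; induction. `Hh_abs`: induction, `card_succ`.
* `Yk_mono`, `Yk_step`: from the definition.
* `Hh_approx`: induction on `k`: `Hh (n0+k+1) y e` is the average over `f` with `St e f` of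
  `Hh (n0+k) ((a e).symm y) f`, and `(a e).symm y ∈ Yk (j+1) (tgt e)`, `tgt e = src f`;
  `(Bop C)^[k+1] φ = Bop C ((Bop C)^[k] φ)` (`Function.iterate_succ_apply'`). For `k = 0` use
  `Yk_mono`. -/

set_option autoImplicit false

open Finset
open scoped Classical

noncomputable section

namespace Pool.A2L

variable {V E : Type} [Fintype V] [Fintype E] {X : Type} [LinearOrder X]

private theorem SumH_avg_abs (C : Cx V E) (e : E) (g : E → ℝ) {M : ℝ}
    (hg : ∀ f, C.St e f → |g f| ≤ M) :
    |(∑ f ∈ univ.filter (fun f => C.St e f), g f) / (C.q : ℝ) ^ 2| ≤ M := by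
  have hq : (0 : ℝ) < (C.q : ℝ) ^ 2 := by
    have := q_pos C
    positivity
  rw [abs_div, abs_of_pos hq, div_le_iff₀ hq]
  calc |∑ f ∈ univ.filter (fun f => C.St e f), g f|
      ≤ ∑ f ∈ univ.filter (fun f => C.St e f), |g f| := Finset.abs_sum_le_sum_abs _ _
    _ ≤ ∑ f ∈ univ.filter (fun f => C.St e f), M := by
        apply Finset.sum_le_sum
        intro f hf
        rw [mem_filter] at hf
        exact hg f hf.2
    _ = M * (C.q : ℝ) ^ 2 := by
        rw [sum_const, card_succ, nsmul_eq_mul]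
        push_cast
        ring

private theorem SumH_sg (b : X ≃o X) (p y : X) : sg (b p) y = sg p (b.symm y) := by
  have h1 : (y < b p) = (b.symm y < p) := by
    rw [← b.lt_iff_lt (x := b.symm y) (y := p), b.apply_symm_apply]
  have h2 : (b p < y) = (p < b.symm y) := by
    rw [← b.lt_iff_lt (x := p) (y := b.symm y), b.apply_symm_apply]
  unfold sg
  simp only [h1, h2]

theorem sum_aft_sg (C : Cx V E) (a : E → X ≃o X) (x : V → X) (n : ℕ) (e : E) (y : X) :
    ∑ W ∈ C.aft n e, sg (a e (ep C a x (C.tgt e) W)) y = (C.q : ℝ) ^ (2 * n) * Hh C a x n y e := by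
  induction n generalizing e y with
  | zero =>
    rw [aft_zero]
    simp [ep, Hh]
  | succ n ih =>
    rw [sum_aft_succ]
    have h1 : ∀ f ∈ univ.filter (fun f => C.St e f),
        ∑ W ∈ C.aft n f, sg (a e (ep C a x (C.tgt e) (f :: W))) y =
          (C.q : ℝ) ^ (2 * n) * Hh C a x n ((a e).symm y) f := by
      intro f _
      rw [← ih f ((a e).symm y)]
      refine Finset.sum_congr rfl fun W _ => ?_
      rw [SumH_sg]
      rfl
    rw [Finset.sum_congr rfl h1, ← Finset.mul_sum]
    have hq : (C.q : ℝ) ≠ 0 := by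
      have := q_pos C
      positivity
    change _ = (C.q : ℝ) ^ (2 * (n + 1)) * ((∑ f ∈ univ.filter (fun f => C.St e f),
      Hh C a x n ((a e).symm y) f) / (C.q : ℝ) ^ 2)
    field_simp
    ring

theorem sum_aft_sigma (C : Cx V E) (a : E → X ≃o X) (x : V → X) (n : ℕ) (e : E) :
    ∑ W ∈ C.aft n e, sigma C a x (e :: W) =
      (C.q : ℝ) ^ (2 * n) * Hh C a x n (x (C.src e)) e :=
  sum_aft_sg C a x n e (x (C.src e))

theorem Hh_abs (C : Cx V E) (a : E → X ≃o X) (x : V → X) (n : ℕ) (y : X) (e : E) :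
    |Hh C a x n y e| ≤ 1 := by
  induction n generalizing e y with
  | zero =>
    change |sg (a e (x (C.tgt e))) y| ≤ 1
    unfold sg
    split_ifs <;> norm_num
  | succ n ih =>
    exact SumH_avg_abs C e (fun f => Hh C a x n ((a e).symm y) f) fun f _ => ih _ f

private theorem SumH_sg_anti (p : X) {y y' : X} (h : y ≤ y') : sg p y' ≤ sg p y := by
  unfold sg
  by_cases h1 : y' < p
  · have h2 : y < p := lt_of_le_of_lt h h1
    simp [h1, h2]
  · by_cases h3 : p < y'
    · simp only [h1, h3, if_true, if_false]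
      split_ifs <;> norm_num
    · have h4 : y' = p := le_antisymm (not_lt.mp h3) (not_lt.mp h1)
      have h5 : ¬ p < y := not_lt.mpr (h4 ▸ h)
      simp only [h1, h3, h5, if_false]
      split_ifs <;> norm_num

theorem Hh_anti (C : Cx V E) (a : E → X ≃o X) (x : V → X) (n : ℕ) (e : E) :
    Antitone (fun y => Hh C a x n y e) := by
  induction n generalizing e with
  | zero =>
    intro y y' h
    exact SumH_sg_anti _ h
  | succ n ih =>
    intro y y' h
    change (∑ f ∈ univ.filter (fun f => C.St e f), Hh C a x n ((a e).symm y') f) / (C.q : ℝ) ^ 2 ≤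
      (∑ f ∈ univ.filter (fun f => C.St e f), Hh C a x n ((a e).symm y) f) / (C.q : ℝ) ^ 2
    apply div_le_div_of_nonneg_right _ (by positivity)
    apply Finset.sum_le_sum
    intro f _
    exact ih f ((a e).symm.monotone h)

theorem Yk_mono (C : Cx V E) (a : E → X ≃o X) (x ylo yhi : V → X) {j K : ℕ} (h : j ≤ K) (v : V) :
    Yk C a x ylo yhi j v ⊆ Yk C a x ylo yhi K v := by
  induction h with
  | refl => exact fun _ hy => hy
  | step _ ih => exact ih.trans Finset.subset_union_left

theorem Yk_step (C : Cx V E) (a : E → X ≃o X) (x ylo yhi : V → X) {j : ℕ} {e : E} {y : X}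
    (h : y ∈ Yk C a x ylo yhi j (C.src e)) : (a e).symm y ∈ Yk C a x ylo yhi (j + 1) (C.tgt e) := by
  change _ ∈ Yk C a x ylo yhi j (C.tgt e) ∪
      (univ.filter (fun e' => C.tgt e' = C.tgt e)).biUnion
        (fun e' => (Yk C a x ylo yhi j (C.src e')).image (fun y => (a e').symm y))
  rw [mem_union]
  right
  rw [mem_biUnion]
  exact ⟨e, by simp, mem_image_of_mem _ h⟩

theorem Hh_approx (C : Cx V E) (a : E → X ≃o X) (x ylo yhi : V → X) {K n0 : ℕ} {φ : E → ℝ}
    {ε : ℝ} (hφ : ∀ e, ∀ y ∈ Yk C a x ylo yhi K (C.src e), |Hh C a x n0 y e - φ e| ≤ ε) :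
    ∀ (k j : ℕ) (e : E) (y : X), j + k ≤ K → y ∈ Yk C a x ylo yhi j (C.src e) →
      |Hh C a x (n0 + k) y e - (Bop C)^[k] φ e| ≤ ε := by
  intro k
  induction k with
  | zero =>
    intro j e y hj hy
    exact hφ e y (Yk_mono C a x ylo yhi (by omega) _ hy)
  | succ k ih =>
    intro j e y hj hy
    rw [Function.iterate_succ_apply']
    have h1 : Hh C a x (n0 + (k + 1)) y e - Bop C ((Bop C)^[k] φ) e =
        (∑ f ∈ univ.filter (fun f => C.St e f),
          (Hh C a x (n0 + k) ((a e).symm y) f - (Bop C)^[k] φ f)) / (C.q : ℝ) ^ 2 := by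
      rw [Finset.sum_sub_distrib, sub_div]
      rfl
    rw [h1]
    apply SumH_avg_abs
    intro f hf
    apply ih (j + 1) f _ (by omega)
    have h2 := Yk_step C a x ylo yhi hy
    rwa [hf.1] at h2

theorem Bop_abs (C : Cx V E) {f : E → ℝ} {M : ℝ} (hf : ∀ e, |f e| ≤ M) (e : E) :
    |Bop C f e| ≤ M :=
  SumH_avg_abs C e f fun g _ => hf g

end Pool.A2L
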