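import Pool.Agent.A2L.Lim
import Pool.Agent.A2L.KapH
import Pool.Agent.A2L.SumH

/-! Module HKmk: the Banach limits of `Hh n` and `kap m` form a pair `HK`.

`h_bdd`, `h_anti`: `Hh_abs`, `Hh_anti` and `BL.mono`, `BL.const`. `h_harm`: by `BL.shift`,
`L (Hh n y e) = L (Hh (n+1) y e)`, and `Hh (n+1) y e` is a finite linear combination: `BL.add`,
`BL.smul` (induction over the finset; a helper lemma: `L (fun n => (∑ i ∈ s, u i n) / c) =
(∑ i ∈ s, L (u i)) / c` for bounded `u i`). `K_stat` in the same way from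
`kap (m+1) f φ`. `K_add, K_smul, K_mono, K_one`: `kap_add, kap_smul, kap_mono, kap_one`;
boundedness of the sequences by `kap_abs`. -/

set_option autoImplicit false

open Finset
open scoped Classical

noncomputable section

namespace Pool.A2L

variable {V E : Type} [Fintype V] [Fintype E] {X : Type} [LinearOrder X]

private theorem BL_sum {L : (ℕ → ℝ) → ℝ} (hL : BL L) {ι : Type} (s : Finset ι) (u : ι → ℕ → ℝ)
    (hu : ∀ i ∈ s, Bd (u i)) :
    Bd (fun n => ∑ i ∈ s, u i n) ∧ L (fun n => ∑ i ∈ s, u i n) = ∑ i ∈ s, L (u i) := by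
  induction s using Finset.induction_on with
  | empty =>
      refine ⟨⟨0, fun n => by simp⟩, ?_⟩
      simp only [Finset.sum_empty]
      exact hL.const 0
  | insert i s hi ih =>
      have h1 := ih (fun j hj => hu j (Finset.mem_insert_of_mem hj))
      have h2 := hu i (Finset.mem_insert_self i s)
      have h3 : (fun n => ∑ j ∈ insert i s, u j n) = fun n => u i n + ∑ j ∈ s, u j n := by
        funext n
        rw [Finset.sum_insert hi]
      rw [h3]
      refine ⟨?_, ?_⟩
      · obtain ⟨M1, hM1⟩ := h1.1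
        obtain ⟨M2, hM2⟩ := h2
        exact ⟨M2 + M1, fun n => (abs_add_le _ _).trans (add_le_add (hM2 n) (hM1 n))⟩
      · rw [Finset.sum_insert hi, ← h1.2]
        exact hL.add _ _ h2 h1.1

private theorem BL_avg {L : (ℕ → ℝ) → ℝ} (hL : BL L) {ι : Type} (s : Finset ι) (u : ι → ℕ → ℝ)
    (hu : ∀ i ∈ s, Bd (u i)) (c : ℝ) :
    L (fun n => (∑ i ∈ s, u i n) / c) = (∑ i ∈ s, L (u i)) / c := by
  have h := BL_sum hL s u hu
  have h1 : (fun n => (∑ i ∈ s, u i n) / c) = fun n => c⁻¹ * (∑ i ∈ s, u i n) := by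
    funext n
    rw [div_eq_inv_mul]
  rw [h1, hL.smul c⁻¹ _ h.1, h.2, div_eq_inv_mul]

omit [LinearOrder X] in
private theorem BdX_comp {φ : X → ℝ} (h : BdX φ) (g : X → X) : BdX (fun y => φ (g y)) := by
  obtain ⟨M, hM⟩ := h
  exact ⟨M, fun y => hM _⟩

private theorem Bd_kap (C : Cx V E) (a : E → X ≃o X) (x : V → X) (e : E) {φ : X → ℝ}
    (h : BdX φ) : Bd (fun m => kap C a x m e φ) := by
  obtain ⟨M, hM⟩ := h
  exact ⟨M, fun m => kap_abs C a x m e hM⟩

private theorem Bd_Hh (C : Cx V E) (a : E → X ≃o X) (x : V → X) (y : X) (e : E) :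
    Bd (fun n => Hh C a x n y e) := ⟨1, fun n => Hh_abs C a x n y e⟩

theorem HK_mk {L : (ℕ → ℝ) → ℝ} (hL : BL L) (C : Cx V E) (a : E → X ≃o X) (x : V → X)
    (O : V → Set X) (hx : ∀ v, x v ∈ O v)
    (hO : ∀ e, ∀ y ∈ O (C.src e), (a e).symm y ∈ O (C.tgt e)) :
    HK C a O (fun y e => L (fun n => Hh C a x n y e)) (fun e φ => L (fun m => kap C a x m e φ)) := by
  have bc : ∀ c : ℝ, Bd (fun _ => c) := fun c => ⟨|c|, fun _ => le_rfl⟩
  refine ⟨?_, ?_, ?_, ?_, ?_, ?_, ?_, ?_⟩
  · intro y e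
    have h1 : L (fun n => Hh C a x n y e) ≤ L (fun _ => (1 : ℝ)) :=
      hL.mono _ _ (Bd_Hh C a x y e) (bc 1) (fun n => (abs_le.mp (Hh_abs C a x n y e)).2)
    have h2 : L (fun _ => (-1 : ℝ)) ≤ L (fun n => Hh C a x n y e) :=
      hL.mono _ _ (bc (-1)) (Bd_Hh C a x y e) (fun n => (abs_le.mp (Hh_abs C a x n y e)).1)
    rw [hL.const] at h1 h2
    exact abs_le.mpr ⟨h2, h1⟩
  · intro e y z hyz
    exact hL.mono _ _ (Bd_Hh C a x z e) (Bd_Hh C a x y e) (fun n => Hh_anti C a x n e hyz)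
  · intro y e
    have h1 : L (fun n => Hh C a x n y e) = L (fun n => Hh C a x (n + 1) y e) :=
      (hL.shift _ (Bd_Hh C a x y e)).symm
    show L (fun n => Hh C a x n y e) = _
    rw [h1]
    exact BL_avg hL (univ.filter (fun f => C.St e f))
      (fun f n => Hh C a x n ((a e).symm y) f) (fun f _ => Bd_Hh C a x _ f) ((C.q : ℝ) ^ 2)
  · intro e φ ψ hφ hψ
    show L (fun m => kap C a x m e (fun y => φ y + ψ y)) = _
    rw [show (fun m => kap C a x m e (fun y => φ y + ψ y)) =
      fun m => kap C a x m e φ + kap C a x m e ψ from funext (fun m => kap_add C a x m e φ ψ)]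
    exact hL.add _ _ (Bd_kap C a x e hφ) (Bd_kap C a x e hψ)
  · intro e c φ hφ
    show L (fun m => kap C a x m e (fun y => c * φ y)) = _
    rw [show (fun m => kap C a x m e (fun y => c * φ y)) =
      fun m => c * kap C a x m e φ from funext (fun m => kap_smul C a x m e c φ)]
    exact hL.smul c _ (Bd_kap C a x e hφ)
  · intro e φ ψ hφ hψ h
    exact hL.mono _ _ (Bd_kap C a x e hφ) (Bd_kap C a x e hψ)
      (fun m => kap_mono C a x O hx hO m e φ ψ h)
  · intro e
    show L (fun m => kap C a x m e (fun _ => 1)) = 1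
    rw [show (fun m => kap C a x m e (fun _ => 1)) =
      fun _ => (1 : ℝ) from funext (fun m => kap_one C a x m e)]
    exact hL.const 1
  · intro f φ hφ
    have h1 : L (fun m => kap C a x m f φ) = L (fun m => kap C a x (m + 1) f φ) :=
      (hL.shift _ (Bd_kap C a x f hφ)).symm
    show L (fun m => kap C a x m f φ) = _
    rw [h1]
    exact BL_avg hL (univ.filter (fun e => C.St e f))
      (fun e m => kap C a x m e (fun y => φ ((a e).symm y)))
      (fun e _ => Bd_kap C a x e (BdX_comp hφ _)) ((C.q : ℝ) ^ 2)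

end Pool.A2L
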