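import Pool.Agent.A2L.Basic

/-! Module Holo: the transport groupoid.

`Hol C a v w g` (inductive): `g : X ≃o X` is the transport along some path from `v` to `w`
(`g y` is the point seen from `w` corresponding to `y` seen from `v`).
* `reach_iff`: `Reach C a v0 y0 w z ↔ ∃ g, Hol C a v0 w g ∧ g y0 = z`.
* `hol_trans`, `hol_symm`: composition and inverse of paths.
* `reach_trans_prop` (transitivity property): the invariance of `β` gives
  `y ∈ β v ↔ g y ∈ β w` for `Hol v w g`; any two points of `O v`, `O w` are related by some `g`.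
* `exists_triples`: let `h0 : Hol v0 v0 g0` with `g0 y0 = y1 ≠ y0`. For a vertex `v` take
  `Hol v0 v g` (from `hconn`, induction over `EqvGen`); the three points
  `g y0, g (g0 y0), g (g0⁻¹ y0)` are in `O v`, and `g0 y0 < y0 < g0⁻¹ y0` or
  `g0⁻¹ y0 < y0 < g0 y0`. -/

set_option autoImplicit false

open Finset
open scoped Classical

noncomputable section

namespace Pool.A2L

variable {V E : Type} [Fintype V] [Fintype E] {X : Type} [LinearOrder X]

inductive Hol (C : Cx V E) (a : E → X ≃o X) (v0 : V) : V → (X ≃o X) → Prop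
  | base : Hol C a v0 v0 (OrderIso.refl X)
  | fwd {e : E} {g : X ≃o X} : Hol C a v0 (C.src e) g → Hol C a v0 (C.tgt e) (g.trans (a e).symm)
  | bwd {e : E} {g : X ≃o X} : Hol C a v0 (C.tgt e) g → Hol C a v0 (C.src e) (g.trans (a e))

theorem reach_iff (C : Cx V E) (a : E → X ≃o X) (v0 : V) (y0 : X) (w : V) (z : X) :
    Reach C a v0 y0 w z ↔ ∃ g, Hol C a v0 w g ∧ g y0 = z := by
  constructor
  · intro h
    induction h with
    | base => exact ⟨OrderIso.refl X, Hol.base, rfl⟩
    | fwd _ ih =>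
      obtain ⟨g, hg, rfl⟩ := ih
      exact ⟨_, Hol.fwd hg, rfl⟩
    | bwd _ ih =>
      obtain ⟨g, hg, rfl⟩ := ih
      exact ⟨_, Hol.bwd hg, rfl⟩
  · rintro ⟨g, hg, rfl⟩
    induction hg with
    | base => exact Reach.base
    | fwd _ ih => exact Reach.fwd ih
    | bwd _ ih => exact Reach.bwd ih

theorem hol_trans (C : Cx V E) (a : E → X ≃o X) {u v w : V} {g g' : X ≃o X}
    (h : Hol C a u v g) (h' : Hol C a v w g') : Hol C a u w (g.trans g') := by
  induction h' with
  | base => exact h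
  | fwd _ ih => exact Hol.fwd ih
  | bwd _ ih => exact Hol.bwd ih

theorem hol_symm (C : Cx V E) (a : E → X ≃o X) {v w : V} {g : X ≃o X}
    (h : Hol C a v w g) : Hol C a w v g.symm := by
  induction h with
  | base => exact Hol.base
  | @fwd e g _ ih =>
    have h1 : Hol C a (C.tgt e) (C.src e) ((OrderIso.refl X).trans (a e)) := Hol.bwd Hol.base
    exact hol_trans C a h1 ih
  | @bwd e g _ ih =>
    have h1 : Hol C a (C.src e) (C.tgt e) ((OrderIso.refl X).trans (a e).symm) := Hol.fwd Hol.base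
    exact hol_trans C a h1 ih

theorem reach_trans_prop (C : Cx V E) (a : E → X ≃o X) (v0 : V) (y0 : X) (β : V → Set X)
    (hβ : ∀ e y, y ∈ β (C.src e) ↔ (a e).symm y ∈ β (C.tgt e))
    (h : ∃ v y, Reach C a v0 y0 v y ∧ y ∈ β v) :
    ∀ v y, Reach C a v0 y0 v y → y ∈ β v := by
  have key : ∀ v y, Reach C a v0 y0 v y → (y ∈ β v ↔ y0 ∈ β v0) := by
    intro v y hr
    induction hr with
    | base => exact Iff.rfl
    | fwd _ ih => exact (hβ _ _).symm.trans ih
    | @bwd e y _ ih =>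
      have h1 := hβ e (a e y)
      rw [OrderIso.symm_apply_apply] at h1
      exact h1.trans ih
  obtain ⟨v, y, hr, hy⟩ := h
  have h0 : y0 ∈ β v0 := (key v y hr).mp hy
  intro v' y' hr'
  exact (key v' y' hr').mpr h0

theorem exists_triples (C : Cx V E) (a : E → X ≃o X)
    (hconn : ∀ v w : V, Relation.EqvGen (fun v w => ∃ e, C.src e = v ∧ C.tgt e = w) v w)
    (v0 : V) (y0 y1 : X) (h : Reach C a v0 y0 v0 y1) (hne : y1 ≠ y0) :
    ∃ x ylo yhi : V → X, ∀ v, Reach C a v0 y0 v (x v) ∧ Reach C a v0 y0 v (ylo v) ∧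
      Reach C a v0 y0 v (yhi v) ∧ ylo v < x v ∧ x v < yhi v := by
  have hex : ∀ v w : V, Relation.EqvGen (fun v w => ∃ e, C.src e = v ∧ C.tgt e = w) v w →
      ∃ g, Hol C a v w g := by
    intro v w hvw
    induction hvw with
    | rel v w h =>
      obtain ⟨e, rfl, rfl⟩ := h
      exact ⟨_, Hol.fwd Hol.base⟩
    | refl v => exact ⟨_, Hol.base⟩
    | symm v w _ ih =>
      obtain ⟨g, hg⟩ := ih
      exact ⟨_, hol_symm C a hg⟩
    | trans u v w _ _ ih1 ih2 =>
      obtain ⟨g1, h1⟩ := ih1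
      obtain ⟨g2, h2⟩ := ih2
      exact ⟨_, hol_trans C a h1 h2⟩
  have hch : ∀ v : V, ∃ g, Hol C a v0 v g := fun v => hex v0 v (hconn v0 v)
  choose g hg using hch
  obtain ⟨g0, hg0, hy1⟩ := (reach_iff C a v0 y0 v0 y1).mp h
  have r0 : ∀ v, Reach C a v0 y0 v (g v y0) := fun v =>
    (reach_iff C a v0 y0 v _).mpr ⟨g v, hg v, rfl⟩
  have r1 : ∀ v, Reach C a v0 y0 v (g v (g0 y0)) := fun v =>
    (reach_iff C a v0 y0 v _).mpr ⟨g0.trans (g v), hol_trans C a hg0 (hg v), rfl⟩
  have r2 : ∀ v, Reach C a v0 y0 v (g v (g0.symm y0)) := fun v =>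
    (reach_iff C a v0 y0 v _).mpr ⟨g0.symm.trans (g v),
      hol_trans C a (hol_symm C a hg0) (hg v), rfl⟩
  rcases lt_or_gt_of_ne hne with h1 | h1
  · -- `g0 y0 < y0`
    rw [← hy1] at h1
    have h2 : y0 < g0.symm y0 := by
      have := g0.symm.strictMono h1
      rwa [OrderIso.symm_apply_apply] at this
    exact ⟨fun v => g v y0, fun v => g v (g0 y0), fun v => g v (g0.symm y0), fun v =>
      ⟨r0 v, r1 v, r2 v, (g v).strictMono h1, (g v).strictMono h2⟩⟩
  · rw [← hy1] at h1
    have h2 : g0.symm y0 < y0 := by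
      have := g0.symm.strictMono h1
      rwa [OrderIso.symm_apply_apply] at this
    exact ⟨fun v => g v y0, fun v => g v (g0.symm y0), fun v => g v (g0 y0), fun v =>
      ⟨r0 v, r2 v, r1 v, (g v).strictMono h2, (g v).strictMono h1⟩⟩

end Pool.A2L
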