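import Pool.Agent.A2L.NPlus
import Pool.Agent.A2L.HKmk
import Pool.Agent.A2L.ETrap
import Pool.Agent.A2L.Holo

/-! Module Main: labelled finite `Ã₂` complexes have trivial monodromy on linear orders.

Suppose `Reach C a v0 y0 v0 y1` with `y1 ≠ y0`. `exists_triples` gives `x, ylo, yhi`, let
`O v = {y | Reach C a v0 y0 v y}` (closed under transport both ways). `nplus` for `C` gives
`K, ε`, and for `C.op` with labels `(a e).symm` (`Lab_op`) and the same `x, ylo, yhi` gives
`K', ε'`. All points of the finite sets `Yk` are in `O` (for `C.op` the transport is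
`(a e).symm.symm` from `tgt e` to `src e`). Let `mn v, mx v` be the minimum and maximum of
`Yk K v ∪ Yk' K' v`. Then for all `n`: `∑_e (Hh n (mn (src e)) e - Hh n (mx (src e)) e) > ε`
(`Hh_anti`), so with the Banach limit `h y e = L (Hh n y e)`:
`∑_e (h (mn (src e)) e - h (mx (src e)) e) ≥ ε > 0`, so `h` is not constant on `O`. Similarly for all
`m` there is `e` with `ε' < Hh C.op m (mn (tgt e)) e - Hh C.op m (mx (tgt e)) e`
`= kap m e (fun p => sg ((a e).symm p) mn - sg ((a e).symm p) mx) ≤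
2 kap m e (1_{a e mn ≤ p ≤ a e mx})` (`Hh_op_eq`), so `∑_e kap m e (1_{..}) ≥ ε'/2` for all `m`, and
`K e (1_{..}) > 0` for some `e`. `const_of_HK` (with `HK_mk`, `reach_trans_prop`) gives a
contradiction. -/

set_option autoImplicit false

open Finset
open scoped Classical

noncomputable section

namespace Pool.A2L

variable {V E : Type} [Fintype V] [Fintype E] {X : Type} [LinearOrder X]

private theorem main_bd_finsum {ι : Type} (s : Finset ι) (u : ι → ℕ → ℝ)
    (hb : ∀ i ∈ s, Bd (u i)) : Bd (fun n => ∑ i ∈ s, u i n) := by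
  classical
  induction s using Finset.induction_on with
  | empty => exact ⟨0, fun n => by simp⟩
  | insert i s hi ih =>
    obtain ⟨M, hM⟩ := hb i (Finset.mem_insert_self i s)
    obtain ⟨M', hM'⟩ := ih (fun j hj => hb j (Finset.mem_insert_of_mem hj))
    refine ⟨M + M', fun n => ?_⟩
    simp only [Finset.sum_insert hi]
    exact (abs_add_le _ _).trans (add_le_add (hM n) (hM' n))

private theorem main_L_finsum {L : (ℕ → ℝ) → ℝ} (hL : BL L) {ι : Type} (s : Finset ι)
    (u : ι → ℕ → ℝ) (hb : ∀ i ∈ s, Bd (u i)) :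
    L (fun n => ∑ i ∈ s, u i n) = ∑ i ∈ s, L (u i) := by
  classical
  induction s using Finset.induction_on with
  | empty => simpa using hL.const 0
  | insert i s hi ih =>
    have h1 := hL.add (u i) (fun n => ∑ j ∈ s, u j n) (hb i (Finset.mem_insert_self i s))
      (main_bd_finsum s u (fun j hj => hb j (Finset.mem_insert_of_mem hj)))
    rw [Finset.sum_insert hi, ← ih (fun j hj => hb j (Finset.mem_insert_of_mem hj)), ← h1]
    congr 1
    funext n
    rw [Finset.sum_insert hi]

private theorem main_L_sub {L : (ℕ → ℝ) → ℝ} (hL : BL L) (u w : ℕ → ℝ) (hu : Bd u) (hw : Bd w) :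
    L (fun n => u n - w n) = L u - L w := by
  have hw' : Bd (fun n => (-1) * w n) := by
    obtain ⟨M, hM⟩ := hw
    exact ⟨M, fun n => by simpa using hM n⟩
  have h1 := hL.add u (fun n => (-1) * w n) hu hw'
  have h2 := hL.smul (-1) w hw
  have h3 : (fun n => u n - w n) = (fun n => u n + (-1) * w n) := by
    funext n; ring
  rw [h3, h1, h2]; ring

private theorem main_Yk_mem (C : Cx V E) (a : E → X ≃o X) (x ylo yhi : V → X) (O : V → Set X)
    (hx : ∀ v, x v ∈ O v) (hlo : ∀ v, ylo v ∈ O v) (hhi : ∀ v, yhi v ∈ O v)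
    (hO : ∀ e, ∀ y ∈ O (C.src e), (a e).symm y ∈ O (C.tgt e)) :
    ∀ (k : ℕ) (v : V), ∀ y ∈ Yk C a x ylo yhi k v, y ∈ O v := by
  intro k
  induction k with
  | zero =>
    intro v y hy
    simp only [Yk, mem_insert, mem_singleton] at hy
    rcases hy with rfl | rfl | rfl
    · exact hx v
    · exact hlo v
    · exact hhi v
  | succ k ih =>
    intro v y hy
    simp only [Yk, mem_union, mem_biUnion, mem_filter, mem_univ, true_and, mem_image] at hy
    rcases hy with hy | ⟨e, he, z, hz, rfl⟩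
    · exact ih v y hy
    · rw [← he]
      exact hO e z (ih _ z hz)

private theorem main_osc (C : Cx V E) (a : E → X ≃o X) (x : V → X) (n : ℕ) (e : E)
    {y y' lo hi : X} (h1 : lo ≤ y) (h2 : y ≤ hi) (h1' : lo ≤ y') (h2' : y' ≤ hi) :
    |Hh C a x n y e - Hh C a x n y' e| ≤ Hh C a x n lo e - Hh C a x n hi e := by
  have k1 := Hh_anti C a x n e h1
  have k2 := Hh_anti C a x n e h2
  have k3 := Hh_anti C a x n e h1'
  have k4 := Hh_anti C a x n e h2'
  simp only at k1 k2 k3 k4
  rw [abs_le]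
  constructor <;> linarith

private theorem main_sg (p lo hi : X) :
    sg p lo ≤ sg p hi + 2 * (if lo ≤ p ∧ p ≤ hi then 1 else 0) := by
  have hlo : sg p lo ≤ 1 := (abs_le.mp (sg_abs p lo)).2
  have hhi : -1 ≤ sg p hi := (abs_le.mp (sg_abs p hi)).1
  by_cases h1 : lo ≤ p
  · by_cases h2 : p ≤ hi
    · rw [if_pos ⟨h1, h2⟩]; linarith
    · have : sg p hi = 1 := by
        unfold sg; rw [if_pos (not_le.mp h2)]
      rw [this, if_neg (fun h => h2 h.2)]
      linarith
  · have : sg p lo = -1 := by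
      unfold sg
      rw [if_neg (fun h => h1 h.le), if_pos (not_le.mp h1)]
    rw [this, if_neg (fun h => h1 h.1)]
    linarith

theorem main_cx (C : Cx V E)
    (hconn : ∀ v w : V, Relation.EqvGen (fun v w => ∃ e, C.src e = v ∧ C.tgt e = w) v w)
    {a : E → X ≃o X} (ha : Lab C a) (v0 : V) (y0 y1 : X) (h : Reach C a v0 y0 v0 y1) :
    y1 = y0 := by
  by_contra hne
  obtain ⟨x, ylo, yhi, hx⟩ := exists_triples C a hconn v0 y0 y1 h hne
  have : Nonempty V := ⟨v0⟩
  let O : V → Set X := fun v => {y | Reach C a v0 y0 v y}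
  have hxO : ∀ v, x v ∈ O v := fun v => (hx v).1
  have hloO : ∀ v, ylo v ∈ O v := fun v => (hx v).2.1
  have hhiO : ∀ v, yhi v ∈ O v := fun v => (hx v).2.2.1
  have hlo : ∀ v, ylo v < x v := fun v => (hx v).2.2.2.1
  have hhi : ∀ v, x v < yhi v := fun v => (hx v).2.2.2.2
  have hOf : ∀ e, ∀ y ∈ O (C.src e), (a e).symm y ∈ O (C.tgt e) := fun e y hy => Reach.fwd hy
  have hOb : ∀ e, ∀ y ∈ O (C.tgt e), a e y ∈ O (C.src e) := fun e y hy => Reach.bwd hy
  obtain ⟨K, ε, hε, hK⟩ := nplus C ha x ylo yhi hlo hhi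
  obtain ⟨K', ε', hε', hK'⟩ := nplus C.op (a := fun e => (a e).symm) (Lab_op ha) x ylo yhi hlo hhi
  let a' : E → X ≃o X := fun e => (a e).symm
  have hY : ∀ v, ∀ y ∈ Yk C a x ylo yhi K v, y ∈ O v :=
    main_Yk_mem C a x ylo yhi O hxO hloO hhiO hOf K
  have hY' : ∀ v, ∀ y ∈ Yk C.op a' x ylo yhi K' v, y ∈ O v := by
    refine main_Yk_mem C.op a' x ylo yhi O hxO hloO hhiO ?_ K'
    intro e y hy
    exact hOb e y hy
  let S : V → Finset X := fun v => Yk C a x ylo yhi K v ∪ Yk C.op a' x ylo yhi K' v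
  have hxS : ∀ v, x v ∈ S v := by
    intro v
    refine Finset.mem_union_left _ (Yk_mono C a x ylo yhi (Nat.zero_le K) v ?_)
    simp [Yk]
  have hSO : ∀ v, ∀ y ∈ S v, y ∈ O v := by
    intro v y hy
    rcases Finset.mem_union.mp hy with hy | hy
    · exact hY v y hy
    · exact hY' v y hy
  let mn : V → X := fun v => (S v).min' ⟨x v, hxS v⟩
  let mx : V → X := fun v => (S v).max' ⟨x v, hxS v⟩
  have hmn : ∀ v, ∀ y ∈ S v, mn v ≤ y := fun v y hy => Finset.min'_le _ _ hy
  have hmx : ∀ v, ∀ y ∈ S v, y ≤ mx v := fun v y hy => Finset.le_max' _ _ hy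
  have hmnO : ∀ v, mn v ∈ O v := fun v => hSO v _ (Finset.min'_mem _ _)
  have hmxO : ∀ v, mx v ∈ O v := fun v => hSO v _ (Finset.max'_mem _ _)
  have hmm : ∀ v, mn v ≤ mx v := fun v => (hmn v _ (hxS v)).trans (hmx v _ (hxS v))
  obtain ⟨L, hL⟩ := exists_BL
  have H := HK_mk hL C a x O hxO hOf
  -- the harmonic function is not constant
  have hbd : ∀ y e, Bd (fun n => Hh C a x n y e) := fun y e => ⟨1, fun n => Hh_abs C a x n y e⟩
  have hsum : ∀ n, ε ≤ ∑ e, (Hh C a x n (mn (C.src e)) e - Hh C a x n (mx (C.src e)) e) := by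
    intro n
    obtain ⟨e, y, hy, hlt⟩ := hK n
    have hyS : y ∈ S (C.src e) := Finset.mem_union_left _ hy
    have h1 := main_osc C a x n e (hmn _ y hyS) (hmx _ y hyS) (hmn _ _ (hxS (C.src e)))
      (hmx _ _ (hxS (C.src e)))
    have h2 : Hh C a x n (mn (C.src e)) e - Hh C a x n (mx (C.src e)) e ≤
        ∑ e, (Hh C a x n (mn (C.src e)) e - Hh C a x n (mx (C.src e)) e) := by
      refine Finset.single_le_sum (f := fun e => Hh C a x n (mn (C.src e)) e -
        Hh C a x n (mx (C.src e)) e) (fun f _ => ?_) (Finset.mem_univ e)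
      exact sub_nonneg.mpr (Hh_anti C a x n f (hmm _))
    linarith
  have hLsum : ε ≤ ∑ e, (L (fun n => Hh C a x n (mn (C.src e)) e) -
      L (fun n => Hh C a x n (mx (C.src e)) e)) := by
    have hbd2 : ∀ e ∈ (univ : Finset E), Bd (fun n => Hh C a x n (mn (C.src e)) e -
        Hh C a x n (mx (C.src e)) e) := by
      intro e _
      refine ⟨2, fun n => ?_⟩
      have k1 := Hh_abs C a x n (mn (C.src e)) e
      have k2 := Hh_abs C a x n (mx (C.src e)) e
      rw [abs_le] at k1 k2 ⊢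
      constructor <;> linarith
    have h1 := main_L_finsum hL univ (fun e n => Hh C a x n (mn (C.src e)) e -
      Hh C a x n (mx (C.src e)) e) hbd2
    have h2 := hL.mono (fun _ => ε) _ ⟨|ε|, fun _ => le_refl _⟩ (main_bd_finsum univ _ hbd2) hsum
    rw [hL.const, h1] at h2
    refine h2.trans (le_of_eq (Finset.sum_congr rfl (fun e _ => ?_)))
    exact main_L_sub hL _ _ (hbd _ _) (hbd _ _)
  -- the means charge a bounded interval
  let J : E → X → ℝ := fun e p => if a e (mn (C.tgt e)) ≤ p ∧ p ≤ a e (mx (C.tgt e)) then 1 else 0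
  have hJabs : ∀ e y, |J e y| ≤ 1 := by
    intro e y
    simp only [J]
    split_ifs <;> simp
  have hJ0 : ∀ m e, 0 ≤ kap C a x m e (J e) := by
    intro m e
    have h1 := kap_smul C a x m e 0 (J e)
    have h2 := kap_mono C a x O hxO hOf m e (fun y => 0 * J e y) (J e) (fun y _ => by
      simp only [zero_mul, J]
      split_ifs <;> norm_num)
    rw [h1] at h2
    linarith
  have hsum' : ∀ m, ε' / 2 ≤ ∑ e, kap C a x m e (J e) := by
    intro m
    obtain ⟨e, y, hy, hlt⟩ := hK' m
    have hyS : y ∈ S (C.tgt e) := Finset.mem_union_right _ hy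
    have h1 := main_osc C.op a' x m e (hmn _ y hyS) (hmx _ y hyS) (hmn _ _ (hxS (C.tgt e)))
      (hmx _ _ (hxS (C.tgt e)))
    have h2 : Hh C.op a' x m (mn (C.tgt e)) e - Hh C.op a' x m (mx (C.tgt e)) e ≤
        2 * kap C a x m e (J e) := by
      have k1 := Hh_op_eq C a x m (mn (C.tgt e)) e
      have k2 := Hh_op_eq C a x m (mx (C.tgt e)) e
      have k3 := kap_mono C a x O hxO hOf m e (fun p => sg ((a e).symm p) (mn (C.tgt e)))
        (fun p => sg ((a e).symm p) (mx (C.tgt e)) + 2 * J e p) (fun p _ => by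
          have k4 := main_sg ((a e).symm p) (mn (C.tgt e)) (mx (C.tgt e))
          have k5 : (mn (C.tgt e) ≤ (a e).symm p ∧ (a e).symm p ≤ mx (C.tgt e)) ↔
              (a e (mn (C.tgt e)) ≤ p ∧ p ≤ a e (mx (C.tgt e))) := by
            rw [OrderIso.le_symm_apply, OrderIso.symm_apply_le]
          simp only [k5] at k4
          exact k4)
      rw [kap_add, kap_smul] at k3
      change Hh C.op a' x m (mn (C.tgt e)) e = _ at k1
      change Hh C.op a' x m (mx (C.tgt e)) e = _ at k2
      rw [k1, k2]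
      linarith
    have h3 : kap C a x m e (J e) ≤ ∑ e, kap C a x m e (J e) :=
      Finset.single_le_sum (f := fun e => kap C a x m e (J e)) (fun f _ => hJ0 m f)
        (Finset.mem_univ e)
    change ε' < |Hh C.op a' x m y e - Hh C.op a' x m (x (C.tgt e)) e| at hlt
    linarith
  have hbdJ : ∀ e ∈ (univ : Finset E), Bd (fun m => kap C a x m e (J e)) :=
    fun e _ => ⟨1, fun m => kap_abs C a x m e (hJabs e)⟩
  have hLsum' : ε' / 2 ≤ ∑ e, L (fun m => kap C a x m e (J e)) := by
    have h1 := main_L_finsum hL univ (fun e m => kap C a x m e (J e)) hbdJ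
    have h2 := hL.mono (fun _ => ε' / 2) _ ⟨|ε' / 2|, fun _ => le_refl _⟩
      (main_bd_finsum univ _ hbdJ) hsum'
    rw [hL.const, h1] at h2
    exact h2
  have hpos : ∃ e0 : E, 0 < L (fun m => kap C a x m e0 (J e0)) := by
    by_contra hcon
    push Not at hcon
    have := Finset.sum_nonpos (s := (univ : Finset E)) (fun e _ => hcon e)
    linarith
  obtain ⟨e0, he0⟩ := hpos
  obtain ⟨c, hc⟩ := const_of_HK ha H
    (fun β hβ ⟨v, y, hy, hyβ⟩ => reach_trans_prop C a v0 y0 β hβ ⟨v, y, hy, hyβ⟩)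
    ⟨e0, a e0 (mn (C.tgt e0)), hOb e0 _ (hmnO _), a e0 (mx (C.tgt e0)), hOb e0 _ (hmxO _), he0⟩
  have : ∑ e, (L (fun n => Hh C a x n (mn (C.src e)) e) -
      L (fun n => Hh C a x n (mx (C.src e)) e)) = 0 := by
    refine Finset.sum_eq_zero (fun e _ => ?_)
    have k1 := hc e _ (hmnO (C.src e))
    have k2 := hc e _ (hmxO (C.src e))
    rw [k1, k2, sub_self]
  linarith

end Pool.A2L
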