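import Pool.Agent.A2L.Quo
import Pool.Agent.A2L.Main

/-! Module CorD: groups acting freely and cofinitely on `Ã₂` complexes do not act on linear orders. -/

set_option autoImplicit false

open Finset
open scoped Classical

noncomputable section

namespace Pool.A2L

section

variable {V E : Type} {C : A2Complex V E} {Γ : Type} [Group Γ] [MulAction Γ V] [MulAction Γ E]

theorem co_edge (hA : FreeCofinite C Γ) (e : E) :
    co Γ (C.tgt e) = co Γ (C.src e) * lb C Γ (nrm hA e).1 := by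
  have h := nrm_spec hA e
  calc co Γ (C.tgt e) = co Γ (C.tgt (co Γ (C.src e) • (nrm hA e).1)) := by rw [h]
    _ = _ := by rw [hA.tgt_smul, co_smul hA]; rfl

theorem nrm_src (hA : FreeCofinite C Γ) (e : E) : cl Γ (C.src (nrm hA e).1) = cl Γ (C.src e) := by
  unfold nrm
  rw [hA.src_smul, cl_smul]

theorem nrm_tgt (hA : FreeCofinite C Γ) (e : E) : cl Γ (C.tgt (nrm hA e).1) = cl Γ (C.tgt e) := by
  unfold nrm
  rw [hA.tgt_smul, cl_smul]

theorem quo_conn (hA : FreeCofinite C Γ) [Fintype (Om Γ V)] [Fintype (Eq' C Γ)]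
    (hconn : C.Connected) (v w : Om Γ V) :
    Relation.EqvGen (fun v w => ∃ e, (quo hA).src e = v ∧ (quo hA).tgt e = w) v w := by
  have key : ∀ v w : V, Relation.EqvGen (fun v w => ∃ e, C.src e = v ∧ C.tgt e = w) v w →
      Relation.EqvGen (fun v w => ∃ e, (quo hA).src e = v ∧ (quo hA).tgt e = w)
        (cl Γ v) (cl Γ w) := by
    intro v w h
    induction h with
    | rel v w h =>
      obtain ⟨e, rfl, rfl⟩ := h
      exact Relation.EqvGen.rel _ _ ⟨nrm hA e, nrm_src hA e, nrm_tgt hA e⟩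
    | refl v => exact Relation.EqvGen.refl _
    | symm v w _ ih => exact Relation.EqvGen.symm _ _ ih
    | trans u v w _ _ ih1 ih2 => exact Relation.EqvGen.trans _ _ _ ih1 ih2
  have h := key (rp Γ v) (rp Γ w) (hconn _ _)
  rw [cl_rp, cl_rp] at h
  exact h

theorem quo_lab (hA : FreeCofinite C Γ) [Fintype (Om Γ V)] [Fintype (Eq' C Γ)]
    {X : Type} [LinearOrder X] (φ : Γ →* (X ≃o X)) :
    Lab (quo hA) (fun e => φ (lb C Γ e.1)) := by
  intro e f g h y
  have h1 : lb C Γ e.1 * lb C Γ f.1 * lb C Γ g.1 = 1 := T'_lab hA e.2 h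
  have h2 : φ (lb C Γ e.1) (φ (lb C Γ f.1) (φ (lb C Γ g.1) y)) =
      φ (lb C Γ e.1 * lb C Γ f.1 * lb C Γ g.1) y := by
    rw [map_mul, map_mul]; rfl
  show φ (lb C Γ e.1) (φ (lb C Γ f.1) (φ (lb C Γ g.1) y)) = y
  rw [h2, h1, map_one]
  rfl

theorem reach_path (hA : FreeCofinite C Γ) [Fintype (Om Γ V)] [Fintype (Eq' C Γ)]
    {X : Type} [LinearOrder X] (φ : Γ →* (X ≃o X)) (ω0 : Om Γ V) (y0 : X) (v w : V)
    (h : Relation.EqvGen (fun v w => ∃ e, C.src e = v ∧ C.tgt e = w) v w) :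
    ∀ y, Reach (quo hA) (fun e => φ (lb C Γ e.1)) ω0 y0 (cl Γ v) (φ (co Γ v)⁻¹ y) ↔
      Reach (quo hA) (fun e => φ (lb C Γ e.1)) ω0 y0 (cl Γ w) (φ (co Γ w)⁻¹ y) := by
  induction h with
  | rel v w h =>
    obtain ⟨e, rfl, rfl⟩ := h
    intro y
    have h1 : φ (co Γ (C.tgt e))⁻¹ y =
        (φ (lb C Γ (nrm hA e).1)).symm (φ (co Γ (C.src e))⁻¹ y) := by
      rw [co_edge hA e, mul_inv_rev, map_mul, map_inv]
      rfl
    constructor
    · intro h
      have h2 : Reach (quo hA) (fun e => φ (lb C Γ e.1)) ω0 y0 ((quo hA).src (nrm hA e))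
          (φ (co Γ (C.src e))⁻¹ y) := by
        have : (quo hA).src (nrm hA e) = cl Γ (C.src e) := nrm_src hA e
        rw [this]; exact h
      have h3 := Reach.fwd h2
      have h4 : (quo hA).tgt (nrm hA e) = cl Γ (C.tgt e) := nrm_tgt hA e
      rw [h4] at h3
      rw [h1]
      exact h3
    · intro h
      have h2 : Reach (quo hA) (fun e => φ (lb C Γ e.1)) ω0 y0 ((quo hA).tgt (nrm hA e))
          (φ (co Γ (C.tgt e))⁻¹ y) := by
        have : (quo hA).tgt (nrm hA e) = cl Γ (C.tgt e) := nrm_tgt hA e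
        rw [this]; exact h
      have h3 := Reach.bwd h2
      have h4 : (quo hA).src (nrm hA e) = cl Γ (C.src e) := nrm_src hA e
      rw [h4] at h3
      have h5 : (φ (lb C Γ (nrm hA e).1)) (φ (co Γ (C.tgt e))⁻¹ y) =
          φ (co Γ (C.src e))⁻¹ y := by
        rw [h1, OrderIso.apply_symm_apply]
      rw [← h5]
      exact h3
  | refl v => intro y; rfl
  | symm v w _ ih => intro y; exact (ih y).symm
  | trans u v w _ _ ih1 ih2 => intro y; exact (ih1 y).trans (ih2 y)

theorem free_trivial [Nonempty V] (hconn : C.Connected) (hA : FreeCofinite C Γ)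
    {X : Type} [LinearOrder X] (φ : Γ →* (X ≃o X)) : φ = 1 := by
  have hfin1 := hA.cofinite
  have hfin2 := fin_Eq' hA
  let _ : Fintype (Om Γ V) := Fintype.ofFinite _
  let _ : Fintype (Eq' C Γ) := Fintype.ofFinite _
  ext γ y0
  show φ γ y0 = y0
  obtain ⟨v⟩ := ‹Nonempty V›
  let ω0 : Om Γ V := cl Γ v
  have h1 := (reach_path hA φ ω0 y0 (rp Γ ω0) (γ • rp Γ ω0) (hconn _ _) y0).mp (by
    rw [cl_rp, co_rp hA, inv_one, map_one]
    exact Reach.base)
  rw [cl_smul, cl_rp, co_smul hA, co_rp hA, mul_one] at h1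
  have h2 := main_cx (quo hA) (quo_conn hA hconn) (quo_lab hA φ) ω0 y0 _ h1
  rw [map_inv] at h2
  have h3 : (φ γ).symm y0 = y0 := h2
  rw [OrderIso.symm_apply_eq] at h3
  exact h3.symm

theorem free_subgroup (hA : FreeCofinite C Γ) (Γ' : Subgroup Γ) [Γ'.FiniteIndex] :
    FreeCofinite C Γ' where
  src_smul := fun γ e => hA.src_smul γ.1 e
  tgt_smul := fun γ e => hA.tgt_smul γ.1 e
  tri_smul := fun γ e f g h => hA.tri_smul γ.1 e f g h
  free := fun γ v h => Subtype.ext (hA.free γ.1 v h)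
  cofinite := by
    have h1 := hA.cofinite
    have h2 : Finite (Γ ⧸ Γ') := inferInstance
    refine Finite.of_surjective (fun p : Om Γ V × (Γ ⧸ Γ') => cl Γ' ((p.2.out)⁻¹ • rp Γ p.1)) ?_
    intro o
    let v : V := rp Γ' o
    refine ⟨(cl Γ v, ((co Γ v)⁻¹ : Γ)), ?_⟩
    show cl Γ' ((((co Γ v)⁻¹ : Γ) : Γ ⧸ Γ').out⁻¹ • rp Γ (cl Γ v)) = o
    obtain ⟨k, hk⟩ := QuotientGroup.mk_out_eq_mul Γ' (co Γ v)⁻¹
    rw [hk, mul_inv_rev, inv_inv, mul_smul, co_spec]
    have h3 : ((k : Γ)⁻¹) • v = k⁻¹ • v := rfl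
    rw [h3, cl_smul]
    exact cl_rp o

end

theorem order_torsion {X : Type} [LinearOrder X] (f : X ≃o X) (n : ℕ) (hn : 0 < n)
    (h : f ^ n = 1) : f = 1 := by
  ext y
  have h1 : (⇑f)^[n] y = id^[n] y := by
    have h2 : ∀ m : ℕ, (f ^ m) y = (⇑f)^[m] y := by
      intro m
      induction m with
      | zero => rfl
      | succ m ih =>
        rw [pow_succ', Function.iterate_succ_apply', ← ih]
        rfl
    rw [← h2, h]
    simp
  have h3 := (Function.Commute.iterate_pos_eq_iff_map_eq (Function.Commute.id_right) f.monotone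
    strictMono_id hn).mp h1
  exact h3

theorem a2_trivial {V E : Type} [Nonempty V] {C : A2Complex V E} (hconn : C.Connected)
    {Λ : Type} [Group Λ] (Γ : Subgroup Λ) [Γ.FiniteIndex] [MulAction Γ V] [MulAction Γ E]
    (hA : FreeCofinite C Γ) (Δ : Subgroup Λ) [Δ.FiniteIndex]
    {X : Type} [LinearOrder X] (φ : Δ →* (X ≃o X)) : φ = 1 := by
  have hfi : (Δ.subgroupOf Γ).FiniteIndex := inferInstance
  let ι : (Δ.subgroupOf Γ) →* Δ :=
    { toFun := fun γ => ⟨γ.1.1, γ.2⟩
      map_one' := rfl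
      map_mul' := fun _ _ => rfl }
  have h0 := free_trivial hconn (free_subgroup hA (Δ.subgroupOf Γ)) (φ.comp ι)
  ext1 δ
  obtain ⟨n, hn, -, hmem⟩ := Subgroup.exists_pow_mem_of_index_ne_zero
    (H := Γ) Subgroup.FiniteIndex.index_ne_zero δ.1
  apply order_torsion _ n hn
  let γ : Δ.subgroupOf Γ := ⟨⟨δ.1 ^ n, hmem⟩, Δ.pow_mem δ.2 n⟩
  have h1 : ι γ = δ ^ n := rfl
  rw [← map_pow, ← h1]
  exact DFunLike.congr_fun h0 γ

theorem a2_interval {V E : Type} [Nonempty V] {C : A2Complex V E} (hconn : C.Connected)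
    {Λ : Type} [Group Λ] (Γ : Subgroup Λ) [Γ.FiniteIndex] [MulAction Γ V] [MulAction Γ E]
    (hA : FreeCofinite C Γ) (Δ : Subgroup Λ) [Δ.FiniteIndex]
    (φ : Δ →* (Set.Icc (0 : ℝ) 1 ≃ₜ Set.Icc (0 : ℝ) 1)) (hφ : ∀ g, Monotone (φ g)) : φ = 1 := by
  have hinv : ∀ g y, φ g⁻¹ (φ g y) = y := by
    intro g y
    have : φ g⁻¹ (φ g y) = (φ (g⁻¹ * g)) y := by rw [map_mul]; rfl
    rw [this, inv_mul_cancel, map_one]
    rfl
  let ψ : Δ →* (Set.Icc (0 : ℝ) 1 ≃o Set.Icc (0 : ℝ) 1) :=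
    { toFun := fun g =>
        { toEquiv := (φ g).toEquiv
          map_rel_iff' := by
            intro x y
            constructor
            · intro h
              have := hφ g⁻¹ h
              have h1 := hinv g x
              have h2 := hinv g y
              change (φ g⁻¹) ((φ g) x) ≤ (φ g⁻¹) ((φ g) y) at this
              rwa [h1, h2] at this
            · intro h; exact hφ g h }
      map_one' := by
        ext y
        show ((φ 1) y : ℝ) = y
        rw [map_one]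
        rfl
      map_mul' := by
        intro g g'
        ext y
        show ((φ (g * g')) y : ℝ) = (φ g) ((φ g') y)
        rw [map_mul]
        rfl }
  have h := a2_trivial hconn Γ hA Δ ψ
  ext g y
  have h1 := DFunLike.congr_fun (DFunLike.congr_fun h g) y
  exact congrArg Subtype.val h1

end Pool.A2L
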