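import Mathlib

/-!
# Finite `Ã₂` complexes: definitions (squad A2L, MP_9d3768_al)

`Cx V E` is a finite `Ã₂` complex: `V` vertices, `E` edges of positive type, `T e f g` says that
`e, f, g` are the three consecutive (positively oriented) edges of a triangle.
`I e f` (incidence): the edge `e` followed by the edge `f` is a turn in a triangle, i.e. in the
link of the vertex `tgt e = src f` the line `e` is incident with the point `f`.
`St e f` (straight): `e` followed by `f` is a geodesic (`f` starts where `e` ends, not incident).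
The axioms say that each link is the incidence graph of a projective plane of order `q ≥ 2`:
at each vertex the incoming edges are the lines and the outgoing edges are the points.
-/

set_option autoImplicit false

open Finset
open scoped Classical

noncomputable section

namespace Pool.A2L

structure Cx (V E : Type) [Fintype V] [Fintype E] where
  src : E → V
  tgt : E → V
  T : E → E → E → Prop
  q : ℕ
  two_le : 2 ≤ q
  rot : ∀ {e f g : E}, T e f g → T f g e
  uniq : ∀ {e f g g' : E}, T e f g → T e f g' → g = g'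
  comp : ∀ {e f g : E}, T e f g → tgt e = src f
  join : ∀ {f f' : E}, f ≠ f' → src f = src f' → ∃ e, (∃ g, T e f g) ∧ (∃ g, T e f' g)
  meet : ∀ {e e' : E}, e ≠ e' → tgt e = tgt e' → ∃ f, (∃ g, T e f g) ∧ (∃ g, T e' f g)
  two : ∀ {e e' f f' : E}, (∃ g, T e f g) → (∃ g, T e f' g) → (∃ g, T e' f g) →
    (∃ g, T e' f' g) → e = e' ∨ f = f'
  card_out : ∀ e : E, (univ.filter (fun f => ∃ g, T e f g)).card = q + 1
  card_in : ∀ f : E, (univ.filter (fun e => ∃ g, T e f g)).card = q + 1
  card_src : ∀ v : V, (univ.filter (fun f => src f = v)).card = q ^ 2 + q + 1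
  card_tgt : ∀ v : V, (univ.filter (fun e => tgt e = v)).card = q ^ 2 + q + 1

variable {V E : Type} [Fintype V] [Fintype E]

/-- incidence in the link of `tgt e = src f`: the line `e` contains the point `f` -/
def Cx.I (C : Cx V E) (e f : E) : Prop := ∃ g, C.T e f g

/-- `e` followed by `f` is straight -/
def Cx.St (C : Cx V E) (e f : E) : Prop := C.tgt e = C.src f ∧ ¬ C.I e f

/-- the opposite complex (all edges reversed) -/
def Cx.op (C : Cx V E) : Cx V E where
  src := C.tgt
  tgt := C.src
  T := fun e f g => C.T g f e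
  q := C.q
  two_le := C.two_le
  rot := fun h => C.rot (C.rot h)
  uniq := fun h h' => C.uniq (C.rot (h)) (C.rot h')
  comp := fun h => (C.comp (C.rot h)).symm
  join := by
    intro f f' h h'
    obtain ⟨e, ⟨g, h1⟩, ⟨g', h2⟩⟩ := C.meet h h'
    exact ⟨e, ⟨g, C.rot (C.rot h1)⟩, ⟨g', C.rot (C.rot h2)⟩⟩
  meet := by
    intro e e' h h'
    obtain ⟨f, ⟨g, h1⟩, ⟨g', h2⟩⟩ := C.join h h'
    exact ⟨f, ⟨g, C.rot (C.rot h1)⟩, ⟨g', C.rot (C.rot h2)⟩⟩
  two := by
    rintro e e' f f' ⟨g1, h1⟩ ⟨g2, h2⟩ ⟨g3, h3⟩ ⟨g4, h4⟩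
    have k1 := C.rot h1
    have k2 := C.rot h2
    have k3 := C.rot h3
    have k4 := C.rot h4
    rcases C.two ⟨_, k1⟩ ⟨_, k3⟩ ⟨_, k2⟩ ⟨_, k4⟩ with h | h
    · exact Or.inr h
    · exact Or.inl h
  card_out := by
    intro e
    rw [← C.card_in e]
    congr 1
    ext f
    simp only [mem_filter, mem_univ, true_and]
    exact ⟨fun ⟨g, h⟩ => ⟨g, C.rot h⟩, fun ⟨g, h⟩ => ⟨g, C.rot (C.rot h)⟩⟩
  card_in := by
    intro f
    rw [← C.card_out f]
    congr 1
    ext e
    simp only [mem_filter, mem_univ, true_and]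
    exact ⟨fun ⟨g, h⟩ => ⟨g, C.rot h⟩, fun ⟨g, h⟩ => ⟨g, C.rot (C.rot h)⟩⟩
  card_src := fun v => C.card_tgt v
  card_tgt := fun v => C.card_src v

/-- straight words of length `n` (as lists) -/
def Cx.words (C : Cx V E) (n : ℕ) : Finset (List E) :=
  ((univ : Finset (Fin n → E)).image List.ofFn).filter (fun W => W.IsChain C.St)

/-- `Row C W g W1 l`: the strip over the straight word `W` (read from `(0,0)` to the right) with
first upper-left edge `g` (from `(0,1)` to `(0,0)`); `W1` is the upper row (one letter shorter),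
`l` the last edge on the right (from the end of `W` to the end of the upper row). -/
inductive Row (C : Cx V E) : List E → E → List E → E → Prop
  | one {w g b : E} : C.T w b g → Row C [w] g [] b
  | cons {w w2 b g g2 a l : E} {W W1 : List E} :
      C.T w b g → C.St w w2 → C.I g2 w2 → C.T g2 b a → Row C (w2 :: W) g2 W1 l →
      Row C (w :: w2 :: W) g (a :: W1) l

/-- `Tri C W D Z`: a flat triangle `A, B, C'` of side `n` : `W` is the straight word from `A` to
`B`, `D` the straight word from `B` to `C'`, and `Z` is the side from `A` to `C'` read from `A`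
(so `Z.reverse` is the straight word from `C'` to `A`). Built by adding rows parallel to `W`. -/
inductive Tri (C : Cx V E) : List E → List E → List E → Prop
  | nil : Tri C [] [] []
  | cons {W W1 D Z : List E} {g l : E} :
      Row C W g W1 l → Tri C W1 D Z → (∀ z ∈ Z.head?, C.St z g) → Tri C W (l :: D) (g :: Z)

/-- the sides `Z` (read from `A`) of the triangles with first side `W` -/
def Cx.inc (C : Cx V E) (n : ℕ) (W : List E) : Finset (List E) :=
  (C.op.words n).filter (fun Z => ∃ D, Tri C W D Z)

/-- the triangles on a labelled complex act: product over a triangle is the identity -/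
def Lab {X : Type} [LinearOrder X] (C : Cx V E) (a : E → X ≃o X) : Prop :=
  ∀ e f g, C.T e f g → ∀ y, a e (a f (a g y)) = y

section positions

variable {X : Type} [LinearOrder X]

/-- action of a word -/
def app (a : E → X ≃o X) : List E → X → X
  | [], y => y
  | e :: W, y => a e (app a W y)

/-- end vertex of a word starting at `v` -/
def endv (C : Cx V E) : V → List E → V
  | v, [] => v
  | _, e :: W => endv C (C.tgt e) W

/-- value of a vertex function at the starting vertex of a word -/
def msrc (C : Cx V E) (m : V → ℝ) : List E → ℝ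
  | [] => 0
  | e :: _ => m (C.src e)

/-- position of the end point of the path `W` starting at `v`, seen from `v` -/
def ep (C : Cx V E) (a : E → X ≃o X) (x : V → X) : V → List E → X
  | v, [] => x v
  | _, e :: W => a e (ep C a x (C.tgt e) W)

/-- sign of `p` relative to `y` -/
def sg (p y : X) : ℝ := if y < p then 1 else if p < y then -1 else 0

/-- sign of (end point) - (start point) along the word -/
def sigma (C : Cx V E) (a : E → X ≃o X) (x : V → X) : List E → ℝ
  | [] => 0
  | e :: W => sg (a e (ep C a x (C.tgt e) W)) (x (C.src e))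

/-- `Hh n y e`: average over the straight words of length `n+1` with first letter `e` of the sign
of the end point relative to `y` -/
def Hh (C : Cx V E) (a : E → X ≃o X) (x : V → X) : ℕ → X → E → ℝ
  | 0, y, e => sg (a e (x (C.tgt e))) y
  | n + 1, y, e => (∑ f ∈ univ.filter (fun f => C.St e f),
      Hh C a x n ((a e).symm y) f) / (C.q : ℝ) ^ 2

/-- `kap m e φ`: average of `φ` over the positions (seen from `src e`) of the starting points of the
straight words of length `m` which can be continued by `e` -/
def kap (C : Cx V E) (a : E → X ≃o X) (x : V → X) : ℕ → E → (X → ℝ) → ℝ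
  | 0, e, φ => φ (x (C.src e))
  | m + 1, f, φ => (∑ e ∈ univ.filter (fun e => C.St e f),
      kap C a x m e (fun y => φ ((a e).symm y))) / (C.q : ℝ) ^ 2

/-- finite sets of points closed under transport -/
def Yk (C : Cx V E) (a : E → X ≃o X) (x ylo yhi : V → X) : ℕ → V → Finset X
  | 0, v => {x v, ylo v, yhi v}
  | k + 1, v => Yk C a x ylo yhi k v ∪
      (univ.filter (fun e => C.tgt e = v)).biUnion
        (fun e => (Yk C a x ylo yhi k (C.src e)).image (fun y => (a e).symm y))

/-- points reachable by transport along edges -/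
inductive Reach (C : Cx V E) (a : E → X ≃o X) (v0 : V) (y0 : X) : V → X → Prop
  | base : Reach C a v0 y0 v0 y0
  | fwd {e : E} {y : X} : Reach C a v0 y0 (C.src e) y → Reach C a v0 y0 (C.tgt e) ((a e).symm y)
  | bwd {e : E} {y : X} : Reach C a v0 y0 (C.tgt e) y → Reach C a v0 y0 (C.src e) (a e y)

end positions

/-- second moment of the conditional expectation given the side `Z` -/
def Qf (C : Cx V E) (n : ℕ) (v : V) (f : List E → ℝ) : ℝ :=
  ∑ Z ∈ ((C.op.words n).filter (fun Z => ∀ z ∈ Z.head?, C.tgt z = v)),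
    (∑ W ∈ (C.words n).filter (fun W => ∃ D, Tri C W D Z), f W) ^ 2

/-- sum over the flat triangles of side `n` of the product of the signs of the sides at `A` -/
def Th {X : Type} [LinearOrder X] (C : Cx V E) (a : E → X ≃o X) (x : V → X) (n : ℕ) : ℝ :=
  ∑ Z ∈ C.op.words n, ∑ W ∈ (C.words n).filter (fun W => ∃ D, Tri C W D Z),
    sigma C a x W * sigma C a x Z.reverse

/-- averaging operator over straight successors -/
def Bop (C : Cx V E) (f : E → ℝ) : E → ℝ :=
  fun e => (∑ f' ∈ univ.filter (fun f' => C.St e f'), f f') / (C.q : ℝ) ^ 2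

/-- three-step equivalence of vertices -/
def Cls (C : Cx V E) : V → V → Prop :=
  Relation.EqvGen (fun v w => ∃ e1 e2 e3 : E, C.src e1 = v ∧ C.tgt e1 = C.src e2 ∧
    C.tgt e2 = C.src e3 ∧ C.tgt e3 = w)

/-- bounded sequences and functions -/
def Bd (u : ℕ → ℝ) : Prop := ∃ M, ∀ n, |u n| ≤ M

def BdX {X : Type} (φ : X → ℝ) : Prop := ∃ M, ∀ y, |φ y| ≤ M

/-- Banach limit -/
structure BL (L : (ℕ → ℝ) → ℝ) : Prop where
  add : ∀ u w, Bd u → Bd w → L (fun n => u n + w n) = L u + L w
  smul : ∀ (c : ℝ) u, Bd u → L (fun n => c * u n) = c * L u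
  mono : ∀ u w, Bd u → Bd w → (∀ n, u n ≤ w n) → L u ≤ L w
  const : ∀ c : ℝ, L (fun _ => c) = c
  shift : ∀ u, Bd u → L (fun n => u (n + 1)) = L u

/-- a harmonic monotone function and a stationary family of means -/
structure HK {X : Type} [LinearOrder X] (C : Cx V E) (a : E → X ≃o X) (O : V → Set X)
    (h : X → E → ℝ) (K : E → (X → ℝ) → ℝ) : Prop where
  h_bdd : ∀ y e, |h y e| ≤ 1
  h_anti : ∀ e, Antitone (fun y => h y e)
  h_harm : ∀ y e, h y e =
    (∑ f ∈ univ.filter (fun f => C.St e f), h ((a e).symm y) f) / (C.q : ℝ) ^ 2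
  K_add : ∀ e φ ψ, BdX φ → BdX ψ → K e (fun y => φ y + ψ y) = K e φ + K e ψ
  K_smul : ∀ e (c : ℝ) φ, BdX φ → K e (fun y => c * φ y) = c * K e φ
  K_mono : ∀ e φ ψ, BdX φ → BdX ψ → (∀ y ∈ O (C.src e), φ y ≤ ψ y) → K e φ ≤ K e ψ
  K_one : ∀ e, K e (fun _ => 1) = 1
  K_stat : ∀ f φ, BdX φ → K f φ =
    (∑ e ∈ univ.filter (fun e => C.St e f), K e (fun y => φ ((a e).symm y))) / (C.q : ℝ) ^ 2

end Pool.A2L
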