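import Pool.Agent.A2L.Basic

/-! Module Ener: the energy lemma.

Let `S = {f | St e f}`, `#S = q^2` (`card_succ`), `#{e | St e f} = q^2` (`card_pred`).
`∑_f K f (h(·,f)^2) = ∑_f q^(-2) ∑_{e : St e f} K e (h((a e).symm ·, f)^2)` (`K_stat`)
`= ∑_e K e (q^(-2) ∑_{f : St e f} h((a e).symm ·, f)^2)`, and pointwise
`q^(-2) ∑_{f : St e f} h((a e).symm y, f)^2 = h(y,e)^2 + q^(-2) ∑_{f : St e f} (h((a e).symm y, f) - h(y,e))^2`
(`h_harm`). So `∑_e K e (q^(-2) ∑_{f : St e f} (h((a e).symm y, f) - h(y,e))^2) = 0`, a sum of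
nonnegative terms (`K_mono` and `K e 0 = 0` by `K_smul` with `c = 0`), hence each is `0`.
All functions are bounded (`h_bdd`). Helper: `K e` of a finite sum of bounded functions.
* `K_abs_zero`: if `K e (φ^2) = 0`, `φ` bounded, then `K e |φ| = 0`: `|φ| ≤ t + φ^2 / t` for every
  `t > 0`, so `0 ≤ K e |φ| ≤ t`. -/

set_option autoImplicit false

open Finset
open scoped Classical

noncomputable section

namespace Pool.A2L

variable {V E : Type} [Fintype V] [Fintype E] {X : Type} [LinearOrder X]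

omit [LinearOrder X] in
private theorem Ener_bd_const (c : ℝ) : BdX (fun _ : X => c) := ⟨|c|, fun _ => le_rfl⟩

omit [LinearOrder X] in
private theorem Ener_bd_add {φ ψ : X → ℝ} (h1 : BdX φ) (h2 : BdX ψ) :
    BdX (fun y => φ y + ψ y) := by
  obtain ⟨M, hM⟩ := h1
  obtain ⟨N, hN⟩ := h2
  exact ⟨M + N, fun y => (abs_add_le _ _).trans (add_le_add (hM y) (hN y))⟩

omit [LinearOrder X] in
private theorem Ener_bd_mul {φ ψ : X → ℝ} (h1 : BdX φ) (h2 : BdX ψ) :
    BdX (fun y => φ y * ψ y) := by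
  obtain ⟨M, hM⟩ := h1
  obtain ⟨N, hN⟩ := h2
  refine ⟨M * N, fun y => ?_⟩
  rw [abs_mul]
  exact mul_le_mul (hM y) (hN y) (abs_nonneg _) ((abs_nonneg _).trans (hM y))

omit [LinearOrder X] in
private theorem Ener_bd_sq {φ : X → ℝ} (h1 : BdX φ) : BdX (fun y => φ y ^ 2) := by
  have h := Ener_bd_mul h1 h1
  simpa only [pow_two] using h

omit [LinearOrder X] in
private theorem Ener_bd_sum {ι : Type} (s : Finset ι) (φ : ι → X → ℝ)
    (hb : ∀ i ∈ s, BdX (φ i)) : BdX (fun y => ∑ i ∈ s, φ i y) := by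
  induction s using Finset.induction_on with
  | empty => simpa using Ener_bd_const (X := X) 0
  | insert i s hi ih =>
    have h1 := Ener_bd_add (hb i (mem_insert_self i s))
      (ih (fun j hj => hb j (mem_insert_of_mem hj)))
    simpa only [Finset.sum_insert hi] using h1

theorem K_zero {C : Cx V E} {a : E → X ≃o X} {O : V → Set X} {h : X → E → ℝ}
    {K : E → (X → ℝ) → ℝ} (H : HK C a O h K) (e : E) : K e (fun _ => 0) = 0 := by
  have h1 := H.K_smul e 0 (fun _ => 1) (Ener_bd_const 1)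
  simpa using h1

theorem K_nonneg {C : Cx V E} {a : E → X ≃o X} {O : V → Set X} {h : X → E → ℝ}
    {K : E → (X → ℝ) → ℝ} (H : HK C a O h K) (e : E) {φ : X → ℝ} (hb : BdX φ)
    (hφ : ∀ y ∈ O (C.src e), 0 ≤ φ y) : 0 ≤ K e φ := by
  have h1 := H.K_mono e (fun _ => 0) φ (Ener_bd_const 0) hb hφ
  rwa [K_zero H] at h1

theorem K_sum {C : Cx V E} {a : E → X ≃o X} {O : V → Set X} {h : X → E → ℝ}
    {K : E → (X → ℝ) → ℝ} (H : HK C a O h K) (e : E) {ι : Type} (s : Finset ι) (φ : ι → X → ℝ)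
    (hb : ∀ i ∈ s, BdX (φ i)) : K e (fun y => ∑ i ∈ s, φ i y) = ∑ i ∈ s, K e (φ i) := by
  induction s using Finset.induction_on with
  | empty => simpa using K_zero H e
  | insert i s hi ih =>
    have h1 := H.K_add e (φ i) (fun y => ∑ i ∈ s, φ i y) (hb i (mem_insert_self i s))
      (Ener_bd_sum s φ (fun j hj => hb j (mem_insert_of_mem hj)))
    rw [ih (fun j hj => hb j (mem_insert_of_mem hj))] at h1
    simpa only [Finset.sum_insert hi] using h1

theorem energy {C : Cx V E} {a : E → X ≃o X} {O : V → Set X} {h : X → E → ℝ}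
    {K : E → (X → ℝ) → ℝ} (H : HK C a O h K) {e f : E} (hst : C.St e f) :
    K e (fun y => (h ((a e).symm y) f - h y e) ^ 2) = 0 := by
  have hq : (0 : ℝ) < (C.q : ℝ) ^ 2 := by
    have := q_pos C
    positivity
  have bh : ∀ g : E, BdX (fun y => h y g) := fun g => ⟨1, fun y => H.h_bdd y g⟩
  have bh' : ∀ e g : E, BdX (fun y => h ((a e).symm y) g) := fun e g =>
    ⟨1, fun y => H.h_bdd _ g⟩
  have bsq : ∀ e g : E, BdX (fun y => h ((a e).symm y) g ^ 2) := fun e g => Ener_bd_sq (bh' e g)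
  have bd : ∀ e g : E, BdX (fun y => (h ((a e).symm y) g - h y e) ^ 2) := by
    intro e g
    refine ⟨4, fun y => ?_⟩
    have h1 := abs_le.1 (H.h_bdd ((a e).symm y) g)
    have h2 := abs_le.1 (H.h_bdd y e)
    rw [abs_of_nonneg (sq_nonneg _)]
    nlinarith [h1.1, h1.2, h2.1, h2.2]
  -- pointwise identity
  have pt : ∀ e y, ∑ g ∈ univ.filter (fun g => C.St e g), (h ((a e).symm y) g - h y e) ^ 2 =
      ∑ g ∈ univ.filter (fun g => C.St e g), h ((a e).symm y) g ^ 2 +
        (-(C.q : ℝ) ^ 2) * h y e ^ 2 := by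
    intro e y
    have h1 : ∑ g ∈ univ.filter (fun g => C.St e g), h ((a e).symm y) g =
        (C.q : ℝ) ^ 2 * h y e := by
      have h2 := H.h_harm y e
      rw [eq_div_iff hq.ne'] at h2
      rw [← h2]
      ring
    have h3 : ∀ g, (h ((a e).symm y) g - h y e) ^ 2 = h ((a e).symm y) g ^ 2 +
        (-2 * h y e) * h ((a e).symm y) g + h y e ^ 2 := by
      intro g
      ring
    rw [Finset.sum_congr rfl (fun g _ => h3 g), Finset.sum_add_distrib, Finset.sum_add_distrib,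
      ← Finset.mul_sum, h1, Finset.sum_const, card_succ, nsmul_eq_mul]
    push_cast
    ring
  have hK : ∀ e, K e (fun y => ∑ g ∈ univ.filter (fun g => C.St e g),
      (h ((a e).symm y) g - h y e) ^ 2) =
      ∑ g ∈ univ.filter (fun g => C.St e g), K e (fun y => h ((a e).symm y) g ^ 2) -
        (C.q : ℝ) ^ 2 * K e (fun y => h y e ^ 2) := by
    intro e
    have h1 : (fun y => ∑ g ∈ univ.filter (fun g => C.St e g),
        (h ((a e).symm y) g - h y e) ^ 2) = fun y =>
        (∑ g ∈ univ.filter (fun g => C.St e g), h ((a e).symm y) g ^ 2) +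
          (-(C.q : ℝ) ^ 2) * h y e ^ 2 := funext (pt e)
    rw [h1, H.K_add e _ _ (Ener_bd_sum _ _ (fun g _ => bsq e g))
      (Ener_bd_mul (Ener_bd_const _) (Ener_bd_sq (bh e))),
      K_sum H e _ _ (fun g _ => bsq e g), H.K_smul e _ _ (Ener_bd_sq (bh e))]
    ring
  have htot : ∑ e, K e (fun y => ∑ g ∈ univ.filter (fun g => C.St e g),
      (h ((a e).symm y) g - h y e) ^ 2) = 0 := by
    rw [Finset.sum_congr rfl (fun e _ => hK e), Finset.sum_sub_distrib, sub_eq_zero]
    have h1 : ∀ g, (C.q : ℝ) ^ 2 * K g (fun y => h y g ^ 2) =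
        ∑ e ∈ univ.filter (fun e => C.St e g), K e (fun y => h ((a e).symm y) g ^ 2) := by
      intro g
      have h2 := H.K_stat g (fun y => h y g ^ 2) (Ener_bd_sq (bh g))
      rw [eq_div_iff hq.ne'] at h2
      rw [← h2]
      ring
    rw [Finset.sum_congr rfl (fun g _ => h1 g)]
    simp only [Finset.sum_filter]
    exact Finset.sum_comm
  have hnn : ∀ e, 0 ≤ K e (fun y => ∑ g ∈ univ.filter (fun g => C.St e g),
      (h ((a e).symm y) g - h y e) ^ 2) := fun e =>
    K_nonneg H e (Ener_bd_sum _ _ (fun g _ => bd e g))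
      (fun y _ => Finset.sum_nonneg (fun g _ => sq_nonneg _))
  have h0 : K e (fun y => ∑ g ∈ univ.filter (fun g => C.St e g),
      (h ((a e).symm y) g - h y e) ^ 2) = 0 :=
    (Finset.sum_eq_zero_iff_of_nonneg (fun e _ => hnn e)).1 htot e (mem_univ e)
  refine le_antisymm ?_ (K_nonneg H e (bd e f) (fun y _ => sq_nonneg _))
  rw [← h0]
  refine H.K_mono e _ _ (bd e f) (Ener_bd_sum _ _ (fun g _ => bd e g)) (fun y _ => ?_)
  exact Finset.single_le_sum (f := fun g => (h ((a e).symm y) g - h y e) ^ 2)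
    (fun g _ => sq_nonneg _) (mem_filter.2 ⟨mem_univ f, hst⟩)

theorem K_abs_zero {C : Cx V E} {a : E → X ≃o X} {O : V → Set X} {h : X → E → ℝ}
    {K : E → (X → ℝ) → ℝ} (H : HK C a O h K) (e : E) {φ : X → ℝ} (hb : BdX φ)
    (h0 : K e (fun y => φ y ^ 2) = 0) : K e (fun y => |φ y|) = 0 := by
  have hba : BdX (fun y => |φ y|) := by
    obtain ⟨M, hM⟩ := hb
    exact ⟨M, fun y => by rw [abs_abs]; exact hM y⟩
  refine le_antisymm ?_ (K_nonneg H e hba (fun y _ => abs_nonneg _))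
  refine le_of_forall_pos_le_add (fun t ht => ?_)
  have h1 := H.K_mono e (fun y => |φ y|) (fun y => t * 1 + t⁻¹ * φ y ^ 2) hba
    (Ener_bd_add (Ener_bd_const _) (Ener_bd_mul (Ener_bd_const _) (Ener_bd_sq hb))) (fun y _ => ?_)
  · rw [H.K_add e _ _ (Ener_bd_const _) (Ener_bd_mul (Ener_bd_const _) (Ener_bd_sq hb)),
      H.K_smul e _ _ (Ener_bd_sq hb), h0, H.K_smul e t (fun _ => 1) (Ener_bd_const 1),
      H.K_one] at h1
    linarith
  · have h2 : 0 ≤ t⁻¹ * φ y ^ 2 := by positivity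
    rcases le_or_gt |φ y| t with h3 | h3
    · linarith
    · have h4 : |φ y| ≤ t⁻¹ * φ y ^ 2 := by
        rw [← sq_abs, inv_mul_eq_div, le_div_iff₀ ht]
        nlinarith [abs_nonneg (φ y)]
      linarith

end Pool.A2L
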