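import Pool.Agent.A2L.Defs

/-! Module Lim: existence of a Banach limit. Take an ultrafilter `U ≤ atTop` on `ℕ`
(`Filter.Ultrafilter.of` / `Filter.hyperfilter ℕ`) and
`L u = lim_U (∑ i in range (n+1), u i) / (n+1)`: for bounded `u` the Cesaro averages lie in
`[-M, M]`, compact, so the limit along `U` exists (`IsCompact.ultrafilter_le_nhds` or
`Ultrafilter` + `isCompact_Icc`). Define `L u` with `limUnder` / `lim` or by choice (`0` if no limit).
Linearity, monotonicity, constants: limits are unique and compatible with sums and order. Shift: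
the difference of the averages is `(u (n+1) - u 0) / (n+1) → 0`. -/

set_option autoImplicit false

open Finset
open scoped Classical

noncomputable section

namespace Pool.A2L

private def limCes (u : ℕ → ℝ) (n : ℕ) : ℝ := (∑ i ∈ range (n + 1), u i) / ((n : ℝ) + 1)

private theorem limCes_le {u : ℕ → ℝ} {M : ℝ} (h : ∀ n, |u n| ≤ M) (n : ℕ) :
    limCes u n ∈ Set.Icc (-M) M := by
  have hn : (0 : ℝ) < (n : ℝ) + 1 := by positivity
  have h1 : |∑ i ∈ range (n + 1), u i| ≤ M * ((n : ℝ) + 1) := by
    refine (Finset.abs_sum_le_sum_abs _ _).trans ?_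
    refine (Finset.sum_le_card_nsmul _ _ M (fun i _ => h i)).trans ?_
    rw [Finset.card_range, nsmul_eq_mul]
    push_cast
    linarith
  rw [abs_le] at h1
  unfold limCes
  constructor
  · rw [le_div_iff₀ hn]; linarith [h1.1]
  · rw [div_le_iff₀ hn]; exact h1.2

private theorem limCes_tendsto (U : Ultrafilter ℕ) {u : ℕ → ℝ} (h : Bd u) :
    ∃ l, Filter.Tendsto (limCes u) U (nhds l) := by
  obtain ⟨M, hM⟩ := h
  have hc : IsCompact (Set.Icc (-M) M) := isCompact_Icc
  have h1 : (U.map (limCes u) : Filter ℝ) ≤ Filter.principal (Set.Icc (-M) M) := by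
    rw [Filter.le_principal_iff]
    exact Filter.mem_map.2 (Filter.Eventually.of_forall (fun n => limCes_le hM n))
  obtain ⟨l, _, hl⟩ := hc.ultrafilter_le_nhds (U.map (limCes u)) h1
  exact ⟨l, hl⟩

theorem exists_BL : ∃ L : (ℕ → ℝ) → ℝ, BL L := by
  let U : Ultrafilter ℕ := Filter.hyperfilter ℕ
  have hU : (U : Filter ℕ) ≤ Filter.atTop := Nat.hyperfilter_le_atTop
  let L : (ℕ → ℝ) → ℝ := fun u => if h : ∃ l, Filter.Tendsto (limCes u) U (nhds l) then h.choose else 0
  have hL : ∀ u l, Filter.Tendsto (limCes u) U (nhds l) → L u = l := by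
    intro u l hl
    have hex : ∃ l, Filter.Tendsto (limCes u) U (nhds l) := ⟨l, hl⟩
    have : L u = hex.choose := dif_pos hex
    rw [this]
    exact tendsto_nhds_unique hex.choose_spec hl
  have hT : ∀ u, Bd u → Filter.Tendsto (limCes u) U (nhds (L u)) := by
    intro u hu
    obtain ⟨l, hl⟩ := limCes_tendsto U hu
    rw [hL u l hl]; exact hl
  refine ⟨L, ⟨?_, ?_, ?_, ?_, ?_⟩⟩
  · intro u w hu hw
    apply hL
    have := (hT u hu).add (hT w hw)
    refine this.congr (fun n => ?_)
    unfold limCes
    rw [Finset.sum_add_distrib, add_div]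
  · intro c u hu
    apply hL
    have := (hT u hu).const_mul c
    refine this.congr (fun n => ?_)
    unfold limCes
    rw [← Finset.mul_sum, mul_div_assoc]
  · intro u w hu hw h
    refine le_of_tendsto_of_tendsto' (hT u hu) (hT w hw) (fun n => ?_)
    unfold limCes
    have hn : (0 : ℝ) < (n : ℝ) + 1 := by positivity
    exact div_le_div_of_nonneg_right (Finset.sum_le_sum (fun i _ => h i)) hn.le
  · intro c
    apply hL
    refine tendsto_const_nhds.congr (fun n => ?_)
    unfold limCes
    have hn : ((n : ℝ) + 1) ≠ 0 := by positivity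
    rw [Finset.sum_const, Finset.card_range, nsmul_eq_mul]
    push_cast
    field_simp
  · intro u hu
    apply hL
    obtain ⟨M, hM⟩ := hu
    have h0 : Filter.Tendsto (fun n : ℕ => (u (n + 1) - u 0) / ((n : ℝ) + 1)) Filter.atTop (nhds 0) := by
      have hb : ∀ n : ℕ, |(u (n + 1) - u 0) / ((n : ℝ) + 1)| ≤ (2 * M) * (1 / ((n : ℝ) + 1)) := by
        intro n
        have hn : (0 : ℝ) < (n : ℝ) + 1 := by positivity
        rw [abs_div, abs_of_pos hn, div_eq_mul_one_div]
        refine mul_le_mul_of_nonneg_right ?_ (by positivity)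
        have := abs_sub (u (n + 1)) (u 0)
        linarith [hM (n + 1), hM 0]
      have h1 : Filter.Tendsto (fun n : ℕ => (2 * M) * (1 / ((n : ℝ) + 1))) Filter.atTop (nhds 0) := by
        have := (tendsto_one_div_add_atTop_nhds_zero_nat (𝕜 := ℝ)).const_mul (2 * M)
        rwa [mul_zero] at this
      exact squeeze_zero_norm (fun n => by rw [Real.norm_eq_abs]; exact hb n) h1
    have h2 := (hT u ⟨M, hM⟩).add (h0.mono_left hU)
    rw [add_zero] at h2
    refine h2.congr (fun n => ?_)
    unfold limCes
    have : ∑ i ∈ range (n + 1), u (i + 1) = ∑ i ∈ range (n + 1), u i + (u (n + 1) - u 0) := by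
      have h3 := Finset.sum_range_succ' u (n + 1)
      have h4 := Finset.sum_range_succ u (n + 1)
      linarith
    rw [this, add_div]

end Pool.A2L
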