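import Pool.Agent.A2L.Basic

/-! Module Mix: mixing of the averaging operator up to three-step classes.

* `exists_tri`: every edge is the first edge of a triangle (`C.card_out e = q+1 > 0`).
* `cls_step`: if `v → v'` is a three-step path `v → a → b → v'`, and `v → w`, `v' → w'` are
  edges, then `w → z → v` (triangle through `v → w`), so `w → z → v → a` is a three-step path
  and `a → b → v' → w'` is a three-step path, so `Cls w w'`. Also two out-neighbours `w, w'`
  of the same `v`: `w → z → v → w'`. Induction over `EqvGen` (prove for `Cls v v'`: for all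
  out-edges `e` of `v` and `e'` of `v'`, `Cls (tgt e) (tgt e')`; every vertex has out-edges;
  `refl` is the case of two out-neighbours of the same vertex, `trans` uses an out-edge of the
  middle vertex).
* `cls_words`: a straight word of length divisible by 3 joins equivalent vertices.
* `mix`: `Bop` is doubly stochastic (`card_succ`, `card_pred`): with `‖f‖^2 = ∑ f e ^ 2`,
  `‖f‖^2 - ‖Bop f‖^2 = ∑_e q^(-2) ∑_{f' : St e f'} (f f' - Bop f e)^2 ≥ 0`. If
  `‖Bop g‖ = ‖g‖` then `g f' = Bop g e` for all `St e f'`, and then `g` depends only on `src`: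
  if `src f = src f'`, there is `e` with `St e f` and `St e f'` (there are
  `q^2+q+1` lines and at most `2(q+1)` contain `f` or `f'`, one common: `q^2+q+1 > 2q+1`), so
  `g f = g f' = Bop g e`. If `‖Bop^j g‖ = ‖g‖` for all `j`, write `Bop^j g = ĝ_j ∘ src`; then
  `ĝ_(j+1) (src e) = ĝ_j (src f') = ĝ_j (tgt e)`, so `ĝ_3 v = ĝ_0 w` for every three-step path
  `v → w`, and also for `w = v` (triangle), so `ĝ_0` is constant on three-step classes.
  Compactness: suppose `mix` fails for `δ`: there are `k_i → ∞`, `f_i` with `|f_i| ≤ 1` and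
  `e_i, e_i'` with `Cls` and `|Bop^(k_i) f_i e_i - Bop^(k_i) f_i e_i'| > δ`. One way: it is enough
  to prove for each fixed `f` that `D_k(f) = max_{Cls (src e) (src e')} |Bop^k f e - Bop^k f e'|`
  tends to `0` (then take `f` = the indicator functions of single edges, by linearity
  `Bop^k f = ∑_i f i * Bop^k (ind i)`, and `|f i| ≤ 1`, tolerance `δ / |E|`). For fixed `f`,
  `‖Bop^k f‖` is antitone with limit `r`; the sequence `Bop^k f` stays in the compact set
  `[-M,M]^E`; if `D_k(f)` does not tend to 0 there is a subsequence with `D ≥ η > 0` converging to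
  some `g`; then `‖Bop^j g‖ = lim ‖Bop^(k_i + j) f‖ = r = ‖g‖` for all `j`, so `g` is constant
  on classes, but `D_0(g) ≥ η`: contradiction. (No spectral theory needed.) -/

set_option autoImplicit false

open Finset
open scoped Classical

noncomputable section

namespace Pool.A2L

variable {V E : Type} [Fintype V] [Fintype E]

theorem exists_tri (C : Cx V E) (e : E) : ∃ f g, C.T e f g := by
  have h := C.card_out e
  have h2 : (univ.filter (fun f => ∃ g, C.T e f g)).Nonempty := by
    rw [← Finset.card_pos, h]; omega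
  obtain ⟨f, hf⟩ := h2
  rw [mem_filter] at hf
  exact ⟨f, hf.2⟩

theorem mix_out (C : Cx V E) (v : V) : ∃ e, C.src e = v := by
  have h := C.card_src v
  have h2 : (univ.filter (fun f => C.src f = v)).Nonempty := by
    rw [← Finset.card_pos, h]; omega
  obtain ⟨f, hf⟩ := h2
  rw [mem_filter] at hf
  exact ⟨f, hf.2⟩

theorem cls_step (C : Cx V E) {v v' : V} (h : Cls C v v') {e e' : E} (he : C.src e = v)
    (he' : C.src e' = v') : Cls C (C.tgt e) (C.tgt e') := by
  unfold Cls at h ⊢
  induction h generalizing e e' with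
  | rel x y hxy =>
    obtain ⟨e1, e2, e3, h1, h2, h3, h4⟩ := hxy
    obtain ⟨f, g, hT⟩ := exists_tri C e
    obtain ⟨c1, c2, c3⟩ := T_comp hT
    refine Relation.EqvGen.trans _ (C.tgt e1) _ (Relation.EqvGen.rel _ _ ?_)
      (Relation.EqvGen.rel _ _ ?_)
    · exact ⟨f, g, e1, c1.symm, c2, by rw [c3, he, h1], rfl⟩
    · exact ⟨e2, e3, e', h2.symm, h3, by rw [h4, he'], rfl⟩
  | refl x =>
    obtain ⟨f, g, hT⟩ := exists_tri C e
    obtain ⟨c1, c2, c3⟩ := T_comp hT
    refine Relation.EqvGen.rel _ _ ?_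
    exact ⟨f, g, e', c1.symm, c2, by rw [c3, he, he'], rfl⟩
  | symm x y _ ih => exact Relation.EqvGen.symm _ _ (ih he' he)
  | trans x y z _ _ ih1 ih2 =>
    obtain ⟨e'', h''⟩ := mix_out C y
    exact Relation.EqvGen.trans _ (C.tgt e'') _ (ih1 he h'') (ih2 h'' he')

theorem mix_words_aux (C : Cx V E) (m : ℕ) : ∀ W : List E, W.length = 3 * m → W.IsChain C.St →
    ∀ e f : E, e ∈ W.head? → f ∈ W.getLast? → Cls C (C.src e) (C.tgt f) := by
  induction m with
  | zero =>
    intro W hW _ e f he _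
    have : W = [] := List.length_eq_zero_iff.mp (by omega)
    subst this
    simp at he
  | succ m ih =>
    intro W hW hc e f he hf
    match W, hW, hc, he, hf with
    | [], hW, _, _, _ => simp at hW
    | [_], hW, _, _, _ => simp at hW; omega
    | [_, _], hW, _, _, _ => simp at hW; omega
    | e1 :: e2 :: e3 :: W', hW, hc, he, hf =>
      simp only [List.head?_cons, Option.mem_def, Option.some.injEq] at he
      subst he
      rw [List.isChain_cons_cons, List.isChain_cons_cons] at hc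
      obtain ⟨h12, h23, hc⟩ := hc
      have hlen : W'.length = 3 * m := by
        simp only [List.length_cons] at hW; omega
      have hR : Cls C (C.src e1) (C.tgt e3) :=
        Relation.EqvGen.rel _ _ ⟨e1, e2, e3, rfl, h12.1, h23.1, rfl⟩
      match W', hlen, hc, hf with
      | [], _, _, hf =>
        simp only [List.getLast?_cons_cons, List.getLast?_singleton, Option.mem_def,
          Option.some.injEq] at hf
        subst hf
        exact hR
      | e4 :: W'', hlen, hc, hf =>
        rw [List.isChain_cons_cons] at hc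
        rw [List.getLast?_cons_cons, List.getLast?_cons_cons, List.getLast?_cons_cons] at hf
        have := ih (e4 :: W'') hlen hc.2 e4 f (by simp) hf
        rw [← hc.1.1] at this
        exact Relation.EqvGen.trans _ _ _ hR this

theorem cls_words (C : Cx V E) {n : ℕ} (h3 : 3 ∣ n) {W : List E} (hW : W ∈ C.words n) {e f : E}
    (he : e ∈ W.head?) (hf : f ∈ W.getLast?) : Cls C (C.src e) (C.tgt f) := by
  obtain ⟨m, rfl⟩ := h3
  rw [mem_words] at hW
  exact mix_words_aux C m W hW.1 hW.2 e f he hf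

theorem mix_pred (C : Cx V E) {f f' : E} (h : C.src f = C.src f') :
    ∃ e, C.St e f ∧ C.St e f' := by
  by_contra hcon
  push Not at hcon
  have h1 := C.card_tgt (C.src f)
  have h2 := C.card_in f
  have h3 := C.card_in f'
  have hsub : (univ.filter (fun e => C.tgt e = C.src f)) ⊆
      (univ.filter (fun e => ∃ g, C.T e f g)) ∪ (univ.filter (fun e => ∃ g, C.T e f' g)) := by
    intro e he
    simp only [mem_filter, mem_univ, true_and, mem_union] at he ⊢
    by_cases h4 : ∃ g, C.T e f g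
    · exact Or.inl h4
    · right
      by_contra h5
      exact hcon e ⟨he, h4⟩ ⟨he.trans h, h5⟩
  have h4 := Finset.card_le_card hsub
  have h5 := Finset.card_union_le (univ.filter (fun e => ∃ g, C.T e f g))
    (univ.filter (fun e => ∃ g, C.T e f' g))
  have h6 : C.q ^ 2 + C.q + 1 ≤ (C.q + 1) + (C.q + 1) := by
    rw [← h1]
    refine le_trans h4 (le_trans h5 ?_)
    rw [h2, h3]
  have h7 := C.two_le
  nlinarith

theorem mix_qpos (C : Cx V E) : (0 : ℝ) < (C.q : ℝ) ^ 2 := by
  have : (0 : ℝ) < C.q := by exact_mod_cast q_pos C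
  positivity

theorem mix_q0 (C : Cx V E) : (C.q : ℝ) ≠ 0 := by
  have : (0 : ℝ) < C.q := by exact_mod_cast q_pos C
  exact this.ne'

theorem mix_energy (C : Cx V E) (g : E → ℝ) :
    ∑ e, (g e) ^ 2 - ∑ e, (Bop C g e) ^ 2 =
      ∑ e, (∑ f ∈ univ.filter (fun f => C.St e f), (g f - Bop C g e) ^ 2) / (C.q : ℝ) ^ 2 := by
  have hq := mix_qpos C
  have hq0 := mix_q0 C
  have h1 : ∀ e, (∑ f ∈ univ.filter (fun f => C.St e f), (g f - Bop C g e) ^ 2) / (C.q : ℝ) ^ 2
      = (∑ f ∈ univ.filter (fun f => C.St e f), (g f) ^ 2) / (C.q : ℝ) ^ 2 -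
        (Bop C g e) ^ 2 := by
    intro e
    have h2 : ∑ f ∈ univ.filter (fun f => C.St e f), g f = (C.q : ℝ) ^ 2 * Bop C g e := by
      unfold Bop
      field_simp
    have h3 : ∑ f ∈ univ.filter (fun f => C.St e f), (g f - Bop C g e) ^ 2 =
        ∑ f ∈ univ.filter (fun f => C.St e f), (g f) ^ 2 -
          2 * Bop C g e * ∑ f ∈ univ.filter (fun f => C.St e f), g f +
          (C.q : ℝ) ^ 2 * (Bop C g e) ^ 2 := by
      have h4 : ∑ _f ∈ univ.filter (fun f => C.St e f), (Bop C g e) ^ 2 =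
          (C.q : ℝ) ^ 2 * (Bop C g e) ^ 2 := by
        rw [Finset.sum_const, card_succ, nsmul_eq_mul]
        push_cast
        ring
      rw [← h4, Finset.mul_sum, ← Finset.sum_sub_distrib, ← Finset.sum_add_distrib]
      refine Finset.sum_congr rfl (fun f _ => ?_)
      ring
    rw [h3, h2]
    field_simp
    ring
  rw [Finset.sum_congr rfl (fun e _ => h1 e), Finset.sum_sub_distrib, ← Finset.sum_div]
  congr 1
  have h5 : ∑ e, ∑ f ∈ univ.filter (fun f => C.St e f), (g f) ^ 2 =
      ∑ f, (C.q : ℝ) ^ 2 * (g f) ^ 2 := by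
    have h6 : ∀ e, ∑ f ∈ univ.filter (fun f => C.St e f), (g f) ^ 2 =
        ∑ f, if C.St e f then (g f) ^ 2 else 0 := fun e => Finset.sum_filter _ _
    rw [Finset.sum_congr rfl (fun e _ => h6 e), Finset.sum_comm]
    refine Finset.sum_congr rfl (fun f _ => ?_)
    rw [← Finset.sum_filter, Finset.sum_const, card_pred, nsmul_eq_mul]
    push_cast
    ring
  rw [h5, ← Finset.mul_sum]
  field_simp

theorem mix_energy_le (C : Cx V E) (g : E → ℝ) {η : ℝ} (hη : 0 ≤ η)
    (h : ∑ e, (g e) ^ 2 - ∑ e, (Bop C g e) ^ 2 ≤ η ^ 2 / (C.q : ℝ) ^ 2) {e f : E}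
    (hef : C.St e f) : |g f - Bop C g e| ≤ η := by
  have hq := mix_qpos C
  rw [mix_energy] at h
  have h1 : (∑ f ∈ univ.filter (fun f => C.St e f), (g f - Bop C g e) ^ 2) / (C.q : ℝ) ^ 2 ≤
      η ^ 2 / (C.q : ℝ) ^ 2 := by
    refine le_trans ?_ h
    exact Finset.single_le_sum (f := fun e => (∑ f ∈ univ.filter (fun f => C.St e f),
      (g f - Bop C g e) ^ 2) / (C.q : ℝ) ^ 2)
      (fun e _ => div_nonneg (Finset.sum_nonneg (fun f _ => sq_nonneg _)) hq.le) (mem_univ e)
  rw [div_le_div_iff_of_pos_right hq] at h1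
  have h2 : (g f - Bop C g e) ^ 2 ≤ η ^ 2 := by
    refine le_trans ?_ h1
    exact Finset.single_le_sum (f := fun f => (g f - Bop C g e) ^ 2)
      (fun f _ => sq_nonneg _) (mem_filter.mpr ⟨mem_univ f, hef⟩)
  exact abs_le_of_sq_le_sq h2 hη

/-- nearly constant on out-stars and along three-step paths -/
def MixGood (C : Cx V E) (g : E → ℝ) (η : ℝ) : Prop :=
  0 ≤ η ∧ (∀ e f, C.src e = C.src f → |g e - g f| ≤ 2 * η) ∧
    ∀ e1 e2 e3 e f, C.tgt e1 = C.src e2 → C.tgt e2 = C.src e3 → C.src e = C.src e1 →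
      C.src f = C.tgt e3 → |g e - g f| ≤ 18 * η

theorem mix_star (C : Cx V E) {g g' : E → ℝ} {η : ℝ}
    (h : ∀ e f, C.St e f → |g f - g' e| ≤ η) (f f' : E) (hf : C.src f = C.src f') :
    |g f - g f'| ≤ 2 * η := by
  obtain ⟨e, h1, h2⟩ := mix_pred C hf
  have h3 := abs_le.mp (h e f h1)
  have h4 := abs_le.mp (h e f' h2)
  rw [abs_le]
  constructor <;> linarith

theorem mix_next (C : Cx V E) {g g' : E → ℝ} {η : ℝ}
    (h : ∀ e f, C.St e f → |g f - g' e| ≤ η) (e f : E) (hf : C.src f = C.tgt e) :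
    |g f - g' e| ≤ 3 * η := by
  have hc : (univ.filter (fun f => C.St e f)).Nonempty := by
    rw [← Finset.card_pos, card_succ]
    have := q_pos C
    positivity
  obtain ⟨f0, hf0⟩ := hc
  rw [mem_filter] at hf0
  have h1 := abs_le.mp (h e f0 hf0.2)
  have h2 := abs_le.mp (mix_star C h f f0 (hf.trans hf0.2.1))
  rw [abs_le]
  constructor <;> linarith

theorem mix_good (C : Cx V E) {g0 g1 g2 g3 : E → ℝ} {η : ℝ} (hη : 0 ≤ η)
    (h0 : ∀ e f, C.St e f → |g0 f - g1 e| ≤ η) (h1 : ∀ e f, C.St e f → |g1 f - g2 e| ≤ η)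
    (h2 : ∀ e f, C.St e f → |g2 f - g3 e| ≤ η) : MixGood C g0 η := by
  refine ⟨hη, fun e f h => mix_star C h0 e f h, ?_⟩
  intro e1 e2 e3 e f h12 h23 he hf
  have a1 := abs_le.mp (mix_next C h0 e3 f hf)
  have a2 := abs_le.mp (mix_next C h1 e2 e3 h23.symm)
  have a3 := abs_le.mp (mix_next C h2 e1 e2 h12.symm)
  obtain ⟨f', g', hT⟩ := exists_tri C e1
  obtain ⟨c1, c2, c3⟩ := T_comp hT
  have b1 := abs_le.mp (mix_next C h0 g' e (by rw [he, c3]))
  have b2 := abs_le.mp (mix_next C h1 f' g' c2.symm)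
  have b3 := abs_le.mp (mix_next C h2 e1 f' c1.symm)
  rw [abs_le]
  constructor <;> linarith

theorem mix_chain (C : Cx V E) {v w : V} (h : Cls C v w) : ∃ N : ℕ, ∀ (g : E → ℝ) (η : ℝ),
    MixGood C g η → ∀ e f, C.src e = v → C.src f = w → |g e - g f| ≤ N * η := by
  unfold Cls at h
  induction h with
  | rel x y hxy =>
    obtain ⟨e1, e2, e3, h1, h2, h3, h4⟩ := hxy
    refine ⟨18, fun g η hg e f he hf => ?_⟩
    have := hg.2.2 e1 e2 e3 e f h2 h3 (by rw [he, h1]) (by rw [hf, h4])
    simpa using this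
  | refl x =>
    refine ⟨2, fun g η hg e f he hf => ?_⟩
    have := hg.2.1 e f (by rw [he, hf])
    simpa using this
  | symm x y _ ih =>
    obtain ⟨N, hN⟩ := ih
    refine ⟨N, fun g η hg e f he hf => ?_⟩
    rw [abs_sub_comm]
    exact hN g η hg f e hf he
  | trans x y z _ _ ih1 ih2 =>
    obtain ⟨N, hN⟩ := ih1
    obtain ⟨N', hN'⟩ := ih2
    refine ⟨N + N', fun g η hg e f he hf => ?_⟩
    obtain ⟨e'', h''⟩ := mix_out C y
    have a1 := abs_le.mp (hN g η hg e e'' he h'')
    have a2 := abs_le.mp (hN' g η hg e'' f h'' hf)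
    push_cast
    rw [abs_le]
    constructor <;> linarith

theorem mix_chain_unif (C : Cx V E) : ∃ N : ℕ, ∀ (g : E → ℝ) (η : ℝ), MixGood C g η →
    ∀ e f, Cls C (C.src e) (C.src f) → |g e - g f| ≤ N * η := by
  have h : ∀ p : V × V, ∃ N : ℕ, Cls C p.1 p.2 → ∀ (g : E → ℝ) (η : ℝ),
      MixGood C g η → ∀ e f, C.src e = p.1 → C.src f = p.2 → |g e - g f| ≤ N * η := by
    intro p
    by_cases hp : Cls C p.1 p.2
    · obtain ⟨N, hN⟩ := mix_chain C hp
      exact ⟨N, fun _ => hN⟩
    · exact ⟨0, fun h => absurd h hp⟩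
  choose N hN using h
  refine ⟨∑ p, N p, fun g η hg e f hef => ?_⟩
  have h1 := hN (C.src e, C.src f) hef g η hg e f rfl rfl
  refine le_trans h1 ?_
  refine mul_le_mul_of_nonneg_right ?_ hg.1
  have : N (C.src e, C.src f) ≤ ∑ p, N p :=
    Finset.single_le_sum (f := N) (fun _ _ => Nat.zero_le _) (mem_univ _)
  exact_mod_cast this

theorem mix_mono (C : Cx V E) {δ : ℝ} (g : E → ℝ)
    (h : ∀ e f, Cls C (C.src e) (C.src f) → |g e - g f| ≤ δ) :
    ∀ e f, Cls C (C.src e) (C.src f) → |Bop C g e - Bop C g f| ≤ δ := by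
  intro e e' hee
  have hq := mix_qpos C
  have hq0 := mix_q0 C
  have hcls := cls_step C hee (e := e) (e' := e') rfl rfl
  have hcard : ∀ e : E, (((univ.filter (fun f => C.St e f)).card : ℕ) : ℝ) = (C.q : ℝ) ^ 2 := by
    intro e; rw [card_succ]; push_cast; ring
  have key : ∀ f ∈ univ.filter (fun f => C.St e f), |g f - Bop C g e'| ≤ δ := by
    intro f hf
    rw [mem_filter] at hf
    have h1 : g f - Bop C g e' =
        (∑ f' ∈ univ.filter (fun f' => C.St e' f'), (g f - g f')) / (C.q : ℝ) ^ 2 := by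
      rw [Finset.sum_sub_distrib, Finset.sum_const, nsmul_eq_mul, hcard e', sub_div,
        mul_div_cancel_left₀ _ hq.ne']
      rfl
    rw [h1, abs_div, abs_of_pos hq, div_le_iff₀ hq]
    refine le_trans (Finset.abs_sum_le_sum_abs _ _) ?_
    refine le_trans (Finset.sum_le_card_nsmul _ _ δ ?_) ?_
    · intro f' hf'
      rw [mem_filter] at hf'
      refine h f f' ?_
      rw [← hf.2.1, ← hf'.2.1]
      exact hcls
    · rw [nsmul_eq_mul, hcard e', mul_comm]
  have h1 : Bop C g e - Bop C g e' =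
      (∑ f ∈ univ.filter (fun f => C.St e f), (g f - Bop C g e')) / (C.q : ℝ) ^ 2 := by
    rw [Finset.sum_sub_distrib, Finset.sum_const, nsmul_eq_mul, hcard e, sub_div,
      mul_div_cancel_left₀ _ hq.ne']
    rfl
  rw [h1, abs_div, abs_of_pos hq, div_le_iff₀ hq]
  refine le_trans (Finset.abs_sum_le_sum_abs _ _) ?_
  refine le_trans (Finset.sum_le_card_nsmul _ _ δ key) ?_
  rw [nsmul_eq_mul, hcard e, mul_comm]

theorem mix_pigeon (a : ℕ → ℝ) (h0 : ∀ k, 0 ≤ a k) (J : ℕ) (hJ : 0 < J) (ε : ℝ)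
    (hε : a 0 ≤ J * ε) : ∃ j, j < J ∧ a (3 * j) - a (3 * j + 3) ≤ ε := by
  by_contra hcon
  push Not at hcon
  have h1 : ∀ j, j ≤ J → a (3 * j) ≤ a 0 - j * ε ∧ (0 < j → a (3 * j) < a 0 - j * ε) := by
    intro j
    induction j with
    | zero => intro _; simp
    | succ j ih =>
      intro hj
      have h2 := (ih (by omega)).1
      have h3 := hcon j (by omega)
      have h4 : 3 * (j + 1) = 3 * j + 3 := by ring
      rw [h4]
      push_cast
      refine ⟨by linarith, fun _ => by linarith⟩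
  have h2 := (h1 J le_rfl).2 hJ
  have h3 := h0 (3 * J)
  linarith

theorem mix (C : Cx V E) {δ : ℝ} (hδ : 0 < δ) : ∃ K : ℕ, ∀ k, K ≤ k → ∀ f : E → ℝ,
    (∀ e, |f e| ≤ 1) → ∀ e e' : E, Cls C (C.src e) (C.src e') →
      |(Bop C)^[k] f e - (Bop C)^[k] f e'| ≤ δ := by
  have hq := mix_qpos C
  obtain ⟨N, hN⟩ := mix_chain_unif C
  set η : ℝ := δ / (N + 1) with hηd
  have hN1 : (0 : ℝ) < N + 1 := by positivity
  have hη : 0 < η := by positivity
  have hNη : N * η ≤ δ := by
    rw [hηd, mul_div_assoc', div_le_iff₀ hN1]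
    nlinarith
  set ε : ℝ := η ^ 2 / (C.q : ℝ) ^ 2 with hεd
  have hε : 0 < ε := by positivity
  obtain ⟨J, hJ⟩ := exists_nat_ge ((Fintype.card E : ℝ) / ε)
  refine ⟨3 * (J + 1), fun k hk f hf => ?_⟩
  set a : ℕ → ℝ := fun k => ∑ e, ((Bop C)^[k] f e) ^ 2 with had
  have ha0 : ∀ k, 0 ≤ a k := fun k => Finset.sum_nonneg (fun e _ => sq_nonneg _)
  have hstep : ∀ k, a (k + 1) ≤ a k := by
    intro k
    have h1 := mix_energy C ((Bop C)^[k] f)
    have h2 : 0 ≤ ∑ e, (∑ f' ∈ univ.filter (fun f' => C.St e f'),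
        ((Bop C)^[k] f f' - Bop C ((Bop C)^[k] f) e) ^ 2) / (C.q : ℝ) ^ 2 :=
      Finset.sum_nonneg (fun e _ => div_nonneg (Finset.sum_nonneg (fun f _ => sq_nonneg _)) hq.le)
    have h3 : a (k + 1) = ∑ e, (Bop C ((Bop C)^[k] f) e) ^ 2 := by
      simp only [had, Function.iterate_succ_apply']
    rw [h3]
    simp only [had]
    linarith
  have hE : a 0 ≤ (J + 1 : ℕ) * ε := by
    have h1 : a 0 ≤ Fintype.card E := by
      have h2 : a 0 ≤ ∑ _e : E, (1 : ℝ) := by
        refine Finset.sum_le_sum (fun e _ => ?_)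
        simp only [Function.iterate_zero, id_eq]
        have := abs_le.mp (hf e)
        nlinarith
      simpa using h2
    have h3 : (Fintype.card E : ℝ) ≤ J * ε := by
      rwa [div_le_iff₀ hε] at hJ
    push_cast
    nlinarith
  obtain ⟨j, hj, hja⟩ := mix_pigeon a ha0 (J + 1) (by omega) ε hE
  have hv : ∀ i, i < 3 → a (3 * j + i) - a (3 * j + i + 1) ≤ ε := by
    intro i hi
    have s0 := hstep (3 * j)
    have s1 := hstep (3 * j + 1)
    have s2 := hstep (3 * j + 2)
    interval_cases i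
    · simp only [add_zero]
      linarith
    · linarith
    · linarith
  have hgood : ∀ i, i < 3 → ∀ e f', C.St e f' →
      |(Bop C)^[3 * j + i] f f' - (Bop C)^[3 * j + i + 1] f e| ≤ η := by
    intro i hi e f' hef
    have h1 := hv i hi
    simp only [had, Function.iterate_succ_apply'] at h1
    rw [Function.iterate_succ_apply']
    exact mix_energy_le C _ hη.le h1 hef
  have hG : MixGood C ((Bop C)^[3 * j] f) η :=
    mix_good C hη.le (hgood 0 (by omega)) (hgood 1 (by omega)) (hgood 2 (by omega))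
  have hP : ∀ i, ∀ e e', Cls C (C.src e) (C.src e') →
      |(Bop C)^[3 * j + i] f e - (Bop C)^[3 * j + i] f e'| ≤ δ := by
    intro i
    induction i with
    | zero =>
      intro e e' hee
      exact le_trans (hN _ _ hG e e' hee) hNη
    | succ i ih =>
      have h1 : (Bop C)^[3 * j + (i + 1)] f = Bop C ((Bop C)^[3 * j + i] f) := by
        rw [← add_assoc, Function.iterate_succ_apply']
      rw [h1]
      exact mix_mono C _ ih
  intro e e' hee
  have h1 := hP (k - 3 * j) e e' hee
  have h2 : 3 * j + (k - 3 * j) = k := by omega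
  rw [h2] at h1
  exact h1

end Pool.A2L
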