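import Pool.Agent.A2L.TriProd

/-! Module Nae: the three signs around a flat triangle are not all equal (unless all zero).

`ep C a x v W = app a W (x (endv C v W))` (induction on `W`). Let `A, B, P` be the vertices:
`A = src` of the first letter of `W`, `B = endv A W = src` of the first letter of `D`
(`tri_endB`), `P = endv B D = src` of the first letter of `Z.reverse` (`tri_endC`), and the end of
`Z.reverse` is `A` (`tri_endA`: the last letter of `Z.reverse` is the first of `Z`). With
`s1 = sg (app a W (x B)) (x A)`, `s2 = sg (app a D (x P)) (x B)`, `s3 = sg (app a Z.reverse (x A)) (x P)`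
and `app a W (app a D (app a Z.reverse y)) = y`: if `s1 > 0` or `= 0`, etc.: e.g. `s1 ≥ 0` and
`s2 ≥ 0` (i.e. `x A ≤ app W (x B)`, `x B ≤ app D (x P)`) give `x A ≤ app W (app D (x P))`, and if
`s3 ≥ 0`, `x P ≤ app Z' (x A)`, so `x A ≤ app W (app D (x P)) ≤ app W (app D (app Z' (x A))) = x A`,
all equalities, so `s1 = s2 = s3 = 0`. The same for `≤ 0`. So either all three are `0` (the sum of
products is `0 = -1 + 1`), or they are not all `≥ 0` and not all `≤ 0`, and then
`s1 s2 + s2 s3 + s3 s1 = -1` (patterns `(+,-,0)`, `(+,+,-)`, `(+,-,-)`). -/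

set_option autoImplicit false

open Finset
open scoped Classical

noncomputable section

namespace Pool.A2L

variable {V E : Type} [Fintype V] [Fintype E] {X : Type} [LinearOrder X]

theorem ep_eq (C : Cx V E) (a : E → X ≃o X) (x : V → X) (v : V) (W : List E) :
    ep C a x v W = app a W (x (endv C v W)) := by
  induction W generalizing v with
  | nil => rfl
  | cons e W ih =>
    show a e (ep C a x (C.tgt e) W) = a e (app a W (x (endv C (C.tgt e) W)))
    rw [ih]

theorem sg_abs (p y : X) : |sg p y| ≤ 1 := by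
  unfold sg
  split_ifs <;> norm_num

theorem sigma_abs (C : Cx V E) (a : E → X ≃o X) (x : V → X) (W : List E) :
    |sigma C a x W| ≤ 1 := by
  cases W with
  | nil =>
    show |(0 : ℝ)| ≤ 1
    norm_num
  | cons e W => exact sg_abs _ _

/-- the end vertex of a straight word (any chain of composable edges) -/
theorem endv_concat (C : Cx V E) (v : V) (W : List E) (e : E) :
    endv C v (W ++ [e]) = C.tgt e := by
  induction W generalizing v with
  | nil => rfl
  | cons f W ih =>
    show endv C (C.tgt f) (W ++ [e]) = C.tgt e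
    exact ih _

omit [Fintype E] in
private theorem nae_app_mono (a : E → X ≃o X) (W : List E) : StrictMono (app a W) := by
  induction W with
  | nil => exact strictMono_id
  | cons e W ih =>
    intro y z h
    show a e (app a W y) < a e (app a W z)
    exact (a e).strictMono (ih h)

private theorem nae_sigma {C : Cx V E} (a : E → X ≃o X) (x : V → X) {W W1 W2 : List E} {e f : E}
    (h1 : W = e :: W1) (h2 : W = W2 ++ [f]) :
    sigma C a x W = sg (app a W (x (C.tgt f))) (x (C.src e)) := by
  have h3 : endv C (C.src e) W = C.tgt f := by rw [h2]; exact endv_concat C _ W2 f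
  have h4 : sigma C a x W = sg (ep C a x (C.src e) W) (x (C.src e)) := by rw [h1]; rfl
  rw [h4, ep_eq, h3]

private theorem nae_three {F G H : X → X} (hF : StrictMono F) (hG : StrictMono G)
    (h : ∀ y, F (G (H y)) = y) (A B P : X) :
    sg (F B) A * sg (G P) B + sg (G P) B * sg (H A) P + sg (H A) P * sg (F B) A ≤
      -1 + (if sg (F B) A = 0 then 1 else 0) := by
  have key1 : A ≤ F B → B ≤ G P → P ≤ H A → A = F B ∧ B = G P ∧ P = H A := by
    intro h1 h2 h3
    have e1 : F B ≤ F (G P) := hF.monotone h2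
    have e2 : F (G P) ≤ F (G (H A)) := hF.monotone (hG.monotone h3)
    rw [h A] at e2
    have e3 : A = F B := le_antisymm h1 (e1.trans e2)
    have e4 : F B = F (G P) := le_antisymm e1 (e2.trans h1)
    have e5 : F (G P) = F (G (H A)) := by rw [h A]; exact le_antisymm e2 (h1.trans e1)
    exact ⟨e3, hF.injective e4, hG.injective (hF.injective e5)⟩
  have key2 : F B ≤ A → G P ≤ B → H A ≤ P → A = F B ∧ B = G P ∧ P = H A := by
    intro h1 h2 h3
    have e1 : F (G P) ≤ F B := hF.monotone h2
    have e2 : F (G (H A)) ≤ F (G P) := hF.monotone (hG.monotone h3)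
    rw [h A] at e2
    have e3 : A = F B := le_antisymm (e2.trans e1) h1
    have e4 : F B = F (G P) := le_antisymm (h1.trans e2) e1
    have e5 : F (G P) = F (G (H A)) := by rw [h A]; exact le_antisymm (e1.trans h1) e2
    exact ⟨e3, hF.injective e4, hG.injective (hF.injective e5)⟩
  have sg_pos : ∀ {p y : X}, y < p → sg p y = 1 := fun {p y} hh => by
    unfold sg; rw [if_pos hh]
  have sg_neg : ∀ {p y : X}, p < y → sg p y = -1 := fun {p y} hh => by
    unfold sg; rw [if_neg (not_lt.mpr hh.le), if_pos hh]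
  have sg_zero : ∀ {p y : X}, y = p → sg p y = 0 := fun {p y} hh => by
    unfold sg; rw [hh, if_neg (lt_irrefl _), if_neg (lt_irrefl _)]
  rcases lt_trichotomy A (F B) with h1 | h1 | h1 <;>
  rcases lt_trichotomy B (G P) with h2 | h2 | h2 <;>
  rcases lt_trichotomy P (H A) with h3 | h3 | h3
  · exact absurd (key1 h1.le h2.le h3.le).1 h1.ne
  · exact absurd (key1 h1.le h2.le h3.le).1 h1.ne
  · rw [sg_pos h1, sg_pos h2, sg_neg h3]; norm_num
  · exact absurd (key1 h1.le h2.le h3.le).1 h1.ne
  · exact absurd (key1 h1.le h2.le h3.le).1 h1.ne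
  · rw [sg_pos h1, sg_zero h2, sg_neg h3]; norm_num
  · rw [sg_pos h1, sg_neg h2, sg_pos h3]; norm_num
  · rw [sg_pos h1, sg_neg h2, sg_zero h3]; norm_num
  · rw [sg_pos h1, sg_neg h2, sg_neg h3]; norm_num
  · exact absurd (key1 h1.le h2.le h3.le).2.1 h2.ne
  · exact absurd (key1 h1.le h2.le h3.le).2.1 h2.ne
  · rw [sg_zero h1, sg_pos h2, sg_neg h3]; norm_num
  · exact absurd (key1 h1.le h2.le h3.le).2.2 h3.ne
  · rw [sg_zero h1, sg_zero h2, sg_zero h3]; norm_num
  · exact absurd (key2 h1.ge h2.ge h3.le).2.2 h3.ne'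
  · rw [sg_zero h1, sg_neg h2, sg_pos h3]; norm_num
  · exact absurd (key2 h1.ge h2.le h3.ge).2.1 h2.ne'
  · exact absurd (key2 h1.ge h2.le h3.le).2.1 h2.ne'
  · rw [sg_neg h1, sg_pos h2, sg_pos h3]; norm_num
  · rw [sg_neg h1, sg_pos h2, sg_zero h3]; norm_num
  · rw [sg_neg h1, sg_pos h2, sg_neg h3]; norm_num
  · rw [sg_neg h1, sg_zero h2, sg_pos h3]; norm_num
  · exact absurd (key2 h1.le h2.ge h3.ge).1 h1.ne'
  · exact absurd (key2 h1.le h2.ge h3.le).1 h1.ne'
  · rw [sg_neg h1, sg_neg h2, sg_pos h3]; norm_num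
  · exact absurd (key2 h1.le h2.le h3.ge).1 h1.ne'
  · exact absurd (key2 h1.le h2.le h3.le).1 h1.ne'

theorem tri_nae {C : Cx V E} {a : E → X ≃o X} {x : V → X} (ha : Lab C a) {W D Z : List E}
    (h : Tri C W D Z) (hne : W ≠ []) :
    sigma C a x W * sigma C a x D + sigma C a x D * sigma C a x Z.reverse +
      sigma C a x Z.reverse * sigma C a x W ≤ -1 + (if sigma C a x W = 0 then 1 else 0) := by
  obtain ⟨hD, hZ⟩ := tri_length h
  have hpos : 0 < W.length := List.length_pos_iff.mpr hne
  have hDne : D ≠ [] := by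
    intro h0; rw [h0] at hD; simp at hD; omega
  have hZne : Z ≠ [] := by
    intro h0; rw [h0] at hZ; simp at hZ; omega
  obtain ⟨w, W1, hW1⟩ := List.exists_cons_of_ne_nil hne
  obtain ⟨d, D1, hD1⟩ := List.exists_cons_of_ne_nil hDne
  obtain ⟨z, Z1, hZ1⟩ := List.exists_cons_of_ne_nil hZne
  obtain ⟨W2, w', hW2⟩ : ∃ U u, W = U ++ [u] :=
    ⟨W.dropLast, W.getLast hne, (List.dropLast_append_getLast hne).symm⟩
  obtain ⟨D2, d', hD2⟩ : ∃ U u, D = U ++ [u] :=
    ⟨D.dropLast, D.getLast hDne, (List.dropLast_append_getLast hDne).symm⟩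
  obtain ⟨Z2, z', hZ2⟩ : ∃ U u, Z = U ++ [u] :=
    ⟨Z.dropLast, Z.getLast hZne, (List.dropLast_append_getLast hZne).symm⟩
  have eA : C.tgt z = C.src w := by
    have h' := h
    rw [hW1, hZ1] at h'
    exact I_comp (tri_endA h')
  have eB : C.tgt w' = C.src d := by
    have h' := h
    rw [hW2, hD1] at h'
    exact I_comp (tri_endB h')
  have eP : C.tgt d' = C.src z' := by
    have h' := h
    rw [hD2, hZ2] at h'
    exact I_comp (tri_endC h')
  have r1 : Z.reverse = z' :: Z2.reverse := by rw [hZ2]; simp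
  have r2 : Z.reverse = Z1.reverse ++ [z] := by rw [hZ1]; simp
  rw [nae_sigma (C := C) a x hW1 hW2, nae_sigma (C := C) a x hD1 hD2,
    nae_sigma (C := C) a x r1 r2, eA, eB, eP]
  exact nae_three (nae_app_mono a W) (nae_app_mono a D)
    (fun y => tri_prod ha h y) _ _ _

end Pool.A2L
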