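import Pool.Agent.A2L.SumH
import Pool.Agent.A2L.Nae

/-! Module Pref: sum of `sigma` over the words with a given prefix.

The words of length `n+1` with prefix `p ++ [t]` are `p ++ t :: W'`, `W' ∈ C.aft (n-j) t` with
`j = p.length`, `n - j = (n0 + k) + 1`. By `sum_aft_succ` the sum is over `f` with `St t f` and
`W'' ∈ C.aft (n0+k) f`. `sigma (p ++ t :: f :: W'') = sg (app a (p ++ [t]) (a f (ep .. (tgt f) W'')))
(x v)` (`v` the starting vertex of `p ++ [t]`), and this equals
`sg (a f (ep .. (tgt f) W'')) y` with `y = (app a (p ++ [t]))⁻¹ (x v)` (the inverse of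
the order automorphism; define it by recursion on the word: transport backwards), and
`y ∈ Yk (j+1) (tgt t)` by `Yk_step` (induction on `p`, starting with `x v ∈ Yk 0 v`). So by
`sum_aft_sg` the sum is `q^(2(n0+k)) ∑_{St t f} Hh (n0+k) y f`, each `Hh (n0+k) y f` is
within `ε` of `(Bop C)^[k] φ f` (`Hh_approx`, `(j+1) + k ≤ K`), and
`∑_{St t f} (Bop C)^[k] φ f = q^2 (Bop C)^[k+1] φ t`; there are `q^2` such `f` (`card_succ`).
Hint: a convenient general lemma is: for all lists `p`, words `W` with `p ++ W` straight,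
`sg (ep C a x v (p ++ W)) z = sg (ep C a x (endv C v p) W) (back p z)` with
`back [] z = z`, `back (e :: p) z = back p ((a e).symm z)`. -/

set_option autoImplicit false

open Finset
open scoped Classical

noncomputable section

namespace Pool.A2L

variable {V E : Type} [Fintype V] [Fintype E] {X : Type} [LinearOrder X]

private def prefBack (a : E → X ≃o X) : List E → X → X
  | [], z => z
  | e :: p, z => prefBack a p ((a e).symm z)

private theorem pref_sg (a : E → X ≃o X) (e : E) (p y : X) :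
    sg (a e p) y = sg p ((a e).symm y) := by
  have h1 : y < a e p ↔ (a e).symm y < p := ((a e).symm_apply_lt).symm
  have h2 : a e p < y ↔ p < (a e).symm y := ((a e).lt_symm_apply).symm
  unfold sg
  by_cases c1 : y < a e p
  · rw [if_pos c1, if_pos (h1.mp c1)]
  · rw [if_neg c1, if_neg (fun h => c1 (h1.mpr h))]
    by_cases c2 : a e p < y
    · rw [if_pos c2, if_pos (h2.mp c2)]
    · rw [if_neg c2, if_neg (fun h => c2 (h2.mpr h))]

private theorem pref_ep (C : Cx V E) (a : E → X ≃o X) (x : V → X) :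
    ∀ (p : List E) (v : V) (W : List E) (z : X),
      sg (ep C a x v (p ++ W)) z = sg (ep C a x (endv C v p) W) (prefBack a p z)
  | [], _, _, _ => rfl
  | e :: p, v, W, z => by
    show sg (a e (ep C a x (C.tgt e) (p ++ W))) z =
      sg (ep C a x (endv C (C.tgt e) p) W) (prefBack a p ((a e).symm z))
    rw [pref_sg, pref_ep C a x p]

private theorem pref_end (C : Cx V E) (a : E → X ≃o X) (x ylo yhi : V → X) :
    ∀ (p : List E) (t : E) (v : V) (i : ℕ) (y : X), (p ++ [t]).IsChain C.St →
      (∀ e ∈ (p ++ [t]).head?, C.src e = v) → y ∈ Yk C a x ylo yhi i v →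
      prefBack a p y ∈ Yk C a x ylo yhi (i + p.length) (C.src t)
  | [], t, v, i, y, _, h, hy => by
    have hv : C.src t = v := h t (by simp)
    subst hv
    exact hy
  | e :: p, t, v, i, y, hc, h, hy => by
    have hv : C.src e = v := h e (by simp)
    subst hv
    have hc' : (e :: (p ++ [t])).IsChain C.St := hc
    rw [List.isChain_cons] at hc'
    have h2 := pref_end C a x ylo yhi p t (C.tgt e) (i + 1) ((a e).symm y) hc'.2
      (fun f hf => (hc'.1 f hf).1.symm) (Yk_step C a x ylo yhi hy)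
    have e1 : i + 1 + p.length = i + (e :: p).length := by rw [List.length_cons]; omega
    rw [e1] at h2
    exact h2

private theorem pref_sum (C : Cx V E) {j m : ℕ} (p : List E) (t : E)
    (hp : p ++ [t] ∈ C.words (j + 1)) (F : List E → ℝ) :
    ∑ W ∈ (C.words (j + 1 + m)).filter (fun W => (p ++ [t]) <+: W), F W =
      ∑ W' ∈ C.aft m t, F (p ++ t :: W') := by
  symm
  have hp' := mem_words.mp hp
  have hp1 := hp'.1
  simp only [List.length_append, List.length_cons, List.length_nil] at hp1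
  refine Finset.sum_bij (fun W' _ => p ++ t :: W') ?_ ?_ ?_ ?_
  · intro W' hW'
    rw [mem_aft, mem_words] at hW'
    rw [mem_filter, mem_words]
    refine ⟨⟨?_, ?_⟩, ?_⟩
    · have h2 := hW'.1
      simp only [List.length_append, List.length_cons] at h2 ⊢
      omega
    · exact List.isChain_split.mpr ⟨hp'.2, hW'.2⟩
    · exact ⟨W', by simp⟩
  · intro W1 _ W2 _ h
    have h1 := List.append_cancel_left h
    exact (List.cons.inj h1).2
  · intro W hW
    rw [mem_filter, mem_words] at hW
    obtain ⟨⟨h1, h2⟩, ⟨W', hW'⟩⟩ := hW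
    have h3 : p ++ [t] ++ W' = p ++ t :: W' := by simp
    rw [h3] at hW'
    subst hW'
    refine ⟨W', ?_, rfl⟩
    rw [mem_aft, mem_words]
    refine ⟨?_, (List.isChain_split.mp h2).2⟩
    simp only [List.length_append, List.length_cons] at h1 ⊢
    omega
  · intro _ _; rfl

private theorem pref_sigma (C : Cx V E) (a : E → X ≃o X) (x : V → X) (v : V) (L : List E)
    (hL : L ≠ []) (h : ∀ e ∈ L.head?, C.src e = v) :
    sigma C a x L = sg (ep C a x v L) (x v) := by
  cases L with
  | nil => exact absurd rfl hL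
  | cons e L =>
    have hv : C.src e = v := h e (by simp)
    subst hv
    rfl

theorem prefix_est (C : Cx V E) (a : E → X ≃o X) (x ylo yhi : V → X) {K n0 : ℕ} {φ : E → ℝ}
    {ε : ℝ} (hφ : ∀ e, ∀ y ∈ Yk C a x ylo yhi K (C.src e), |Hh C a x n0 y e - φ e| ≤ ε)
    {n j k : ℕ} (hn : n = (j + 1) + k + n0) (hK : (j + 1) + k ≤ K) (p : List E) (t : E)
    (hp : p ++ [t] ∈ C.words (j + 1)) :
    |∑ W ∈ (C.words (n + 1)).filter (fun W => (p ++ [t]) <+: W), sigma C a x W -
      (C.q : ℝ) ^ (2 * (n - j)) * (Bop C)^[k + 1] φ t| ≤ ε * (C.q : ℝ) ^ (2 * (n - j)) := by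
  obtain ⟨hlen, hchain⟩ := mem_words.mp hp
  have hpl : p.length = j := by
    simp only [List.length_append, List.length_cons, List.length_nil] at hlen
    omega
  obtain ⟨v, hv⟩ : ∃ v, ∀ e ∈ (p ++ [t]).head?, C.src e = v := by
    cases p with
    | nil => exact ⟨C.src t, by simp⟩
    | cons e p => exact ⟨C.src e, by simp⟩
  have hend := pref_end C a x ylo yhi p t v 0 (x v) hchain hv (by simp [Yk])
  have hyY : (a t).symm (prefBack a p (x v)) ∈ Yk C a x ylo yhi (j + 1) (C.tgt t) := by
    have h1 := Yk_step C a x ylo yhi hend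
    rw [hpl, Nat.zero_add] at h1
    exact h1
  have hsig : ∀ f W'', sigma C a x (p ++ t :: f :: W'') =
      sg (a f (ep C a x (C.tgt f) W'')) ((a t).symm (prefBack a p (x v))) := by
    intro f W''
    have h1 : ∀ e ∈ (p ++ t :: f :: W'').head?, C.src e = v := by
      cases p with
      | nil => intro e he; exact hv e (by simpa using he)
      | cons e' p => intro e he; exact hv e (by simpa using he)
    rw [pref_sigma C a x v _ (by simp) h1, pref_ep]
    show sg (a t (a f (ep C a x (C.tgt f) W''))) (prefBack a p (x v)) = _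
    rw [pref_sg]
  have hn1 : n + 1 = j + 1 + ((n0 + k) + 1) := by omega
  have hnj : 2 * (n - j) = 2 * (n0 + k) + 2 := by omega
  have hsum : ∑ W ∈ (C.words (n + 1)).filter (fun W => (p ++ [t]) <+: W), sigma C a x W =
      (C.q : ℝ) ^ (2 * (n0 + k)) * ∑ f ∈ univ.filter (fun f => C.St t f),
        Hh C a x (n0 + k) ((a t).symm (prefBack a p (x v))) f := by
    rw [hn1, pref_sum C p t hp, sum_aft_succ, Finset.mul_sum]
    refine Finset.sum_congr rfl (fun f _ => ?_)
    rw [← sum_aft_sg]
    exact Finset.sum_congr rfl (fun W'' _ => hsig f W'')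
  have hq : (0 : ℝ) < (C.q : ℝ) ^ 2 := by
    have := q_pos C
    positivity
  have hB : (Bop C)^[k + 1] φ t =
      (∑ f ∈ univ.filter (fun f => C.St t f), (Bop C)^[k] φ f) / (C.q : ℝ) ^ 2 := by
    rw [Function.iterate_succ_apply']
    rfl
  have hmain : ∑ W ∈ (C.words (n + 1)).filter (fun W => (p ++ [t]) <+: W), sigma C a x W -
      (C.q : ℝ) ^ (2 * (n - j)) * (Bop C)^[k + 1] φ t =
      (C.q : ℝ) ^ (2 * (n0 + k)) * ∑ f ∈ univ.filter (fun f => C.St t f),
        (Hh C a x (n0 + k) ((a t).symm (prefBack a p (x v))) f - (Bop C)^[k] φ f) := by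
    have e1 : ∀ S : ℝ, (C.q : ℝ) ^ 2 * (S / (C.q : ℝ) ^ 2) = S := fun S => by
      rw [mul_div_assoc', mul_div_cancel_left₀ _ hq.ne']
    rw [hsum, hB, hnj, Finset.sum_sub_distrib, pow_add, mul_sub, mul_assoc, e1]
  rw [hmain, hnj, abs_mul, abs_of_nonneg (by positivity : (0 : ℝ) ≤ (C.q : ℝ) ^ (2 * (n0 + k)))]
  have h1 : |∑ f ∈ univ.filter (fun f => C.St t f),
      (Hh C a x (n0 + k) ((a t).symm (prefBack a p (x v))) f - (Bop C)^[k] φ f)| ≤
      (C.q : ℝ) ^ 2 * ε := by
    refine (Finset.abs_sum_le_sum_abs _ _).trans ?_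
    refine (Finset.sum_le_sum (fun f hf => ?_ : ∀ f ∈ univ.filter (fun f => C.St t f), _ ≤ ε)).trans ?_
    · have hst : C.St t f := (mem_filter.mp hf).2
      refine Hh_approx C a x ylo yhi hφ k (j + 1) f _ hK ?_
      rw [← hst.1]
      exact hyY
    · rw [sum_const, card_succ, nsmul_eq_mul]
      push_cast
      exact le_rfl
  calc (C.q : ℝ) ^ (2 * (n0 + k)) * |∑ f ∈ univ.filter (fun f => C.St t f),
      (Hh C a x (n0 + k) ((a t).symm (prefBack a p (x v))) f - (Bop C)^[k] φ f)| ≤
      (C.q : ℝ) ^ (2 * (n0 + k)) * ((C.q : ℝ) ^ 2 * ε) :=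
        mul_le_mul_of_nonneg_left h1 (by positivity)
    _ = ε * (C.q : ℝ) ^ (2 * (n0 + k) + 2) := by rw [pow_add]; ring

end Pool.A2L
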