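import Pool.Agent.A2L.SMa

/-! Module SMb: the second moment bound.

Write `N = q^2+q+1`, `c_n = N (q+1)^2 q^(4n)` (for words of length `n+1`). Induction on `J`.
* `J = 0`: each inner sum has `(q+1) q^n` terms (`card_inc'`) of absolute value `≤ 2`, the number
  of `Z` is `N q^(2n)` (`card_wfrom C.op n v`; `C.op.src = C.tgt`, `C.op.q = C.q`), so
  `Qf ≤ N q^(2n) * (2 (q+1) q^n)^2 = 4 c_n`.
* `J + 1 ≤ n`, `n = n' + 1`: `Qf_succ`. First sum: each factor is a prefix sum for `p = [u]`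
  (`W ∈ words (n+1)`, `[u] <+: W` iff `W = u :: W'`, `W' ∈ aft n u`), so it has absolute value
  `≤ δ q^(2n)`; at most `N (N-1)` ordered pairs; `N (N-1) δ^2 q^(4n) ≤ c_n δ^2` because
  `N - 1 = q (q+1) ≤ (q+1)^2`. Second sum: the function `f_u` satisfies the hypotheses for `J`
  and words of length `n' + 1` (prefix `p` of `f_u` corresponds to the prefix `u :: p` of `f`;
  the sum is `0` if `u :: p` is not straight), so it is at most
  `q N c_(n') (8 δ^2 + 4 (7/8)^J)`, and `q N c_(n') = (N / q^3) c_n ≤ (7/8) c_n`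
  because `8 (q^2+q+1) ≤ 7 q^3` for `q ≥ 2`. Total
  `≤ c_n (δ^2 + 7 δ^2 + 4 (7/8)^(J+1))`. -/

set_option autoImplicit false

open Finset
open scoped Classical

noncomputable section

namespace Pool.A2L

variable {V E : Type} [Fintype V] [Fintype E]

private theorem SMb_pre (C : Cx V E) (m : ℕ) (u : E) (p : List E) (F : List E → ℝ) :
    ∑ W ∈ (C.words (m + 1)).filter (fun W => (u :: p) <+: W), F W =
      ∑ W ∈ (C.aft m u).filter (fun W => p <+: W), F (u :: W) := by
  symm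
  refine Finset.sum_bij (fun W _ => u :: W) ?_ ?_ ?_ ?_
  · intro W hW
    rw [mem_filter] at hW ⊢
    exact ⟨mem_aft.1 hW.1, List.cons_prefix_cons.2 ⟨rfl, hW.2⟩⟩
  · intro W _ W' _ h
    exact (List.cons.inj h).2
  · intro W hW
    rw [mem_filter] at hW
    cases W with
    | nil => simp at hW
    | cons e W =>
      obtain ⟨h1, h2⟩ := hW
      rw [List.cons_prefix_cons] at h2
      obtain ⟨rfl, h2⟩ := h2
      exact ⟨W, mem_filter.2 ⟨mem_aft.2 h1, h2⟩, rfl⟩
  · intro _ _
    rfl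

private theorem SMb_base (C : Cx V E) (n : ℕ) (v : V) (f : List E → ℝ)
    (hf : ∀ W ∈ C.words (n + 1), |f W| ≤ 2) :
    Qf C (n + 1) v f ≤
      ((C.q : ℝ) ^ 2 + C.q + 1) * ((C.q : ℝ) + 1) ^ 2 * (C.q : ℝ) ^ (4 * n) * 4 := by
  unfold Qf
  have hcard : ((C.op.words (n + 1)).filter (fun Z => ∀ z ∈ Z.head?, C.tgt z = v)).card =
      (C.q ^ 2 + C.q + 1) * C.q ^ (2 * n) := card_wfrom C.op n v
  have h1 : ∀ Z ∈ (C.op.words (n + 1)).filter (fun Z => ∀ z ∈ Z.head?, C.tgt z = v),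
      (∑ W ∈ (C.words (n + 1)).filter (fun W => ∃ D, Tri C W D Z), f W) ^ 2 ≤
        (((C.q : ℝ) + 1) * (C.q : ℝ) ^ n * 2) ^ 2 := by
    intro Z hZ
    have hc := card_inc' C (mem_filter.1 hZ).1
    have h2 : |∑ W ∈ (C.words (n + 1)).filter (fun W => ∃ D, Tri C W D Z), f W| ≤
        ((C.q : ℝ) + 1) * (C.q : ℝ) ^ n * 2 := by
      refine (Finset.abs_sum_le_sum_abs _ _).trans ?_
      have h3 : ∑ W ∈ (C.words (n + 1)).filter (fun W => ∃ D, Tri C W D Z), |f W| ≤
          ∑ W ∈ (C.words (n + 1)).filter (fun W => ∃ D, Tri C W D Z), (2 : ℝ) :=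
        Finset.sum_le_sum (fun W hW => hf W (mem_filter.1 hW).1)
      refine h3.trans (le_of_eq ?_)
      rw [Finset.sum_const, hc, nsmul_eq_mul]
      push_cast
      ring
    rw [← sq_abs (∑ W ∈ (C.words (n + 1)).filter (fun W => ∃ D, Tri C W D Z), f W)]
    exact pow_le_pow_left₀ (abs_nonneg _) h2 2
  refine (Finset.sum_le_sum h1).trans (le_of_eq ?_)
  rw [Finset.sum_const, hcard, nsmul_eq_mul]
  push_cast
  have e1 : (C.q : ℝ) ^ (4 * n) = (C.q : ℝ) ^ (2 * n) * (C.q : ℝ) ^ n * (C.q : ℝ) ^ n := by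
    rw [← pow_add, ← pow_add]
    congr 1
    ring
  rw [e1]
  ring

theorem second_moment (C : Cx V E) : ∀ (J n : ℕ) (v : V) (f : List E → ℝ) (δ : ℝ), J ≤ n → 0 ≤ δ →
    (∀ W ∈ C.words (n + 1), |f W| ≤ 2) →
    (∀ p : List E, 1 ≤ p.length → p.length ≤ J →
      |∑ W ∈ (C.words (n + 1)).filter (fun W => p <+: W), f W| ≤
        δ * (C.q : ℝ) ^ (2 * (n + 1 - p.length))) →
    Qf C (n + 1) v f ≤ ((C.q : ℝ) ^ 2 + C.q + 1) * ((C.q : ℝ) + 1) ^ 2 * (C.q : ℝ) ^ (4 * n) *
      (8 * δ ^ 2 + 4 * (7 / 8 : ℝ) ^ J) := by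
  intro J
  induction J with
  | zero =>
    intro n v f δ _ _ hf _
    refine (SMb_base C n v f hf).trans ?_
    apply mul_le_mul_of_nonneg_left
    · rw [pow_zero]
      nlinarith [sq_nonneg δ]
    · positivity
  | succ J ih =>
    intro n v f δ hJ hδ hf hp
    obtain ⟨m, rfl⟩ : ∃ m, n = m + 1 := ⟨n - 1, by omega⟩
    have hq2 : (2 : ℝ) ≤ (C.q : ℝ) := by exact_mod_cast C.two_le
    have hq0 : (0 : ℝ) ≤ (C.q : ℝ) := by linarith
    have hNcard : ((univ.filter (fun u => C.src u = v)).card : ℝ) = (C.q : ℝ) ^ 2 + C.q + 1 := by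
      rw [C.card_src v]
      push_cast
      ring
    rw [Qf_succ C m v f]
    -- first sum
    have hA : ∀ u : E, |∑ W ∈ C.aft (m + 1) u, f (u :: W)| ≤ δ * (C.q : ℝ) ^ (2 * (m + 1)) := by
      intro u
      have h1 := hp [u] (by simp) (by simp)
      rw [SMb_pre C (m + 1) u [] f] at h1
      have h2 : (C.aft (m + 1) u).filter (fun W => [] <+: W) = C.aft (m + 1) u := by
        apply Finset.filter_true_of_mem
        intro W _
        exact List.nil_prefix
      rw [h2] at h1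
      simpa using h1
    have hS1 : (∑ u ∈ univ.filter (fun u => C.src u = v), ∑ u' ∈ univ.filter (fun u => C.src u = v),
        if u = u' then 0 else (∑ W ∈ C.aft (m + 1) u, f (u :: W)) *
          (∑ W ∈ C.aft (m + 1) u', f (u' :: W))) ≤
        ((C.q : ℝ) ^ 2 + C.q + 1) * ((C.q : ℝ) ^ 2 + C.q) *
          (δ * (C.q : ℝ) ^ (2 * (m + 1))) ^ 2 := by
      have h1 : ∀ u ∈ univ.filter (fun u => C.src u = v),
          (∑ u' ∈ univ.filter (fun u => C.src u = v),
            if u = u' then 0 else (∑ W ∈ C.aft (m + 1) u, f (u :: W)) *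
              (∑ W ∈ C.aft (m + 1) u', f (u' :: W))) ≤
          ((C.q : ℝ) ^ 2 + C.q) * (δ * (C.q : ℝ) ^ (2 * (m + 1))) ^ 2 := by
        intro u hu
        have h2 : ∀ u' ∈ univ.filter (fun u => C.src u = v),
            (if u = u' then 0 else (∑ W ∈ C.aft (m + 1) u, f (u :: W)) *
              (∑ W ∈ C.aft (m + 1) u', f (u' :: W))) ≤
            (δ * (C.q : ℝ) ^ (2 * (m + 1))) ^ 2 -
              (if u = u' then (δ * (C.q : ℝ) ^ (2 * (m + 1))) ^ 2 else 0) := by
          intro u' _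
          by_cases huu : u = u'
          · rw [if_pos huu, if_pos huu]
            linarith
          · rw [if_neg huu, if_neg huu, sub_zero]
            refine (le_abs_self _).trans ?_
            rw [abs_mul, pow_two]
            exact mul_le_mul (hA u) (hA u') (abs_nonneg _) (by positivity)
        refine (Finset.sum_le_sum h2).trans (le_of_eq ?_)
        rw [Finset.sum_sub_distrib, Finset.sum_const, nsmul_eq_mul, hNcard, Finset.sum_ite_eq,
          if_pos hu]
        ring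
      refine (Finset.sum_le_sum h1).trans (le_of_eq ?_)
      rw [Finset.sum_const, nsmul_eq_mul, hNcard]
      ring
    -- second sum
    have hS2 : ∀ u ∈ univ.filter (fun u => C.src u = v),
        Qf C (m + 1) (C.tgt u) (fun W => if W ∈ C.aft (m + 1) u then f (u :: W) else 0) ≤
        ((C.q : ℝ) ^ 2 + C.q + 1) * ((C.q : ℝ) + 1) ^ 2 * (C.q : ℝ) ^ (4 * m) *
          (8 * δ ^ 2 + 4 * (7 / 8 : ℝ) ^ J) := by
      intro u _
      apply ih m (C.tgt u) _ δ (by omega) hδ
      · intro W _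
        by_cases hW : W ∈ C.aft (m + 1) u
        · rw [if_pos hW]
          exact hf _ (mem_aft.1 hW)
        · rw [if_neg hW, abs_zero]
          norm_num
      · intro p hp1 hp2
        have h1 := hp (u :: p) (by simp) (by simp; omega)
        rw [SMb_pre C (m + 1) u p f] at h1
        have h2 : ∑ W ∈ (C.words (m + 1)).filter (fun W => p <+: W),
            (if W ∈ C.aft (m + 1) u then f (u :: W) else 0) =
            ∑ W ∈ (C.aft (m + 1) u).filter (fun W => p <+: W), f (u :: W) := by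
          rw [← Finset.sum_filter]
          apply Finset.sum_congr
          · ext W
            rw [mem_filter, mem_filter, mem_filter]
            constructor
            · rintro ⟨⟨_, h3⟩, h4⟩
              exact ⟨h4, h3⟩
            · rintro ⟨h3, h4⟩
              refine ⟨⟨?_, h4⟩, h3⟩
              unfold Cx.aft at h3
              exact (mem_filter.1 h3).1
          · intro _ _
            rfl
        rw [h2]
        have h3 : m + 1 + 1 - (u :: p).length = m + 1 - p.length := by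
          rw [List.length_cons]
          omega
        rw [h3] at h1
        exact h1
    have hS2' : (C.q : ℝ) * ∑ u ∈ univ.filter (fun u => C.src u = v),
        Qf C (m + 1) (C.tgt u) (fun W => if W ∈ C.aft (m + 1) u then f (u :: W) else 0) ≤
        (C.q : ℝ) * (((C.q : ℝ) ^ 2 + C.q + 1) *
        (((C.q : ℝ) ^ 2 + C.q + 1) * ((C.q : ℝ) + 1) ^ 2 * (C.q : ℝ) ^ (4 * m) *
          (8 * δ ^ 2 + 4 * (7 / 8 : ℝ) ^ J))) := by
      apply mul_le_mul_of_nonneg_left _ hq0
      refine (Finset.sum_le_sum hS2).trans (le_of_eq ?_)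
      rw [Finset.sum_const, nsmul_eq_mul, hNcard]
    refine (add_le_add hS1 hS2').trans ?_
    generalize hqq : (C.q : ℝ) = q at *
    have hK : 0 ≤ (7 / 8 : ℝ) ^ J := by positivity
    generalize hKK : (7 / 8 : ℝ) ^ J = K at *
    have e1 : (δ * q ^ (2 * (m + 1))) ^ 2 = δ ^ 2 * (q ^ (4 * m) * q ^ 4) := by
      rw [mul_pow, ← pow_mul, ← pow_add]
      congr 2
      ring
    have e2 : q ^ (4 * (m + 1)) = q ^ (4 * m) * q ^ 4 := by
      rw [← pow_add]
      congr 1
    have e3 : (7 / 8 : ℝ) ^ (J + 1) = K * (7 / 8) := by rw [pow_succ, hKK]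
    rw [e1, e2, e3]
    have hP : 0 ≤ q ^ (4 * m) := by positivity
    generalize q ^ (4 * m) = P at *
    -- inequality
    have hN : 0 ≤ q ^ 2 + q + 1 := by positivity
    have i1 : (q ^ 2 + q) ≤ (q + 1) ^ 2 := by nlinarith
    have i2 : 8 * (q ^ 2 + q + 1) ≤ 7 * q ^ 3 := by
      nlinarith [mul_nonneg hq0 hq0, mul_nonneg (sub_nonneg.2 hq2) hq0,
        mul_nonneg (mul_nonneg (sub_nonneg.2 hq2) hq0) hq0]
    have j1 : (q ^ 2 + q + 1) * (q ^ 2 + q) * (δ ^ 2 * (P * q ^ 4)) ≤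
        (q ^ 2 + q + 1) * (q + 1) ^ 2 * (P * q ^ 4) * δ ^ 2 := by
      have : 0 ≤ (q ^ 2 + q + 1) * (δ ^ 2 * (P * q ^ 4)) := by positivity
      nlinarith [mul_le_mul_of_nonneg_left i1 this]
    have j2 : q * ((q ^ 2 + q + 1) * ((q ^ 2 + q + 1) * (q + 1) ^ 2 * P * (8 * δ ^ 2 + 4 * K))) ≤
        (q ^ 2 + q + 1) * (q + 1) ^ 2 * (P * q ^ 4) * ((7 / 8) * (8 * δ ^ 2 + 4 * K)) := by
      have : 0 ≤ (q ^ 2 + q + 1) * (q + 1) ^ 2 * P * (8 * δ ^ 2 + 4 * K) * q := by positivity
      nlinarith [mul_le_mul_of_nonneg_left i2 this]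
    refine (add_le_add j1 j2).trans (le_of_eq ?_)
    ring

end Pool.A2L
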