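import Pool.Agent.A2L.TriB
import Pool.Agent.A2L.Nae
import Pool.Agent.A2L.SMb

/-! Module ThLow: lower bound for the correlation, from the second moment bound.

`Th = ∑_Z σ(Z.reverse) ∑_W m(src W) + ∑_Z σ(Z.reverse) ∑_W F(W)`, `F(W) = σ(W) - m(src W)`.
First part: for `Tri C W D Z`, the first letter of `W` starts at `tgt` of the first letter of `Z`
(`tri_endA`), i.e. at the end of `Z.reverse`, so `m(src W) = m(start of Z.reverse)` by `hm3`
applied to the word `Z.reverse ∈ words (n+1)` (`mem_words_op`); the number of `W` is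
`(q+1) q^n` (`card_inc'`); so the first part is `(q+1) q^n ∑_{W ∈ words (n+1)} m(src W) σ(W) ≥ 0`
(reindex `Z ↦ Z.reverse`). Second part: by Cauchy-Schwarz its absolute value is at most
`sqrt (∑_Z (∑_W F(W))^2) * sqrt (∑_Z 1)`, `∑_Z (∑_W F W)^2 = ∑_v Qf C (n+1) v F ≤
|V| N (q+1)^2 q^(4n) κ` with `κ = 8 δ^2 + 4 (7/8)^J`, `N = q^2+q+1` (`second_moment`, `|F| ≤ 2`), and
the number of `Z` is `|V| N q^(2n)`; product `= |V| N (q+1) q^(3n) sqrt κ`. -/

set_option autoImplicit false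

open Finset
open scoped Classical

noncomputable section

namespace Pool.A2L

variable {V E : Type} [Fintype V] [Fintype E] {X : Type} [LinearOrder X]

private theorem thlow_msrc (C : Cx V E) (m : V → ℝ) {n : ℕ}
    (hm3 : ∀ W ∈ C.words (n + 1), ∀ e ∈ W.head?, ∀ f ∈ W.getLast?, m (C.src e) = m (C.tgt f))
    {Z : List E} (hZ : Z ∈ C.op.words (n + 1)) {W D : List E} (hW : W ∈ C.words (n + 1))
    (hT : Tri C W D Z) : msrc C m W = msrc C m Z.reverse := by
  have hZr := mem_words_op.mp hZ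
  have hZl := (mem_words.mp hZ).1
  have hWl := (mem_words.mp hW).1
  cases Z with
  | nil => simp at hZl
  | cons z Z' =>
    cases W with
    | nil => simp at hWl
    | cons w W' =>
      have h1 := I_comp (tri_endA hT)
      have hlast : z ∈ (z :: Z').reverse.getLast? := by
        rw [List.getLast?_reverse]; simp
      cases hR : (z :: Z').reverse with
      | nil => simp at hR
      | cons e R =>
        have h2 := hm3 _ hZr e (by rw [hR]; simp) z hlast
        show m (C.src w) = m (C.src e)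
        rw [h2, h1]

theorem theta_lower (C : Cx V E) (a : E → X ≃o X) (x : V → X) {n J : ℕ} (hJ : J ≤ n)
    (m : V → ℝ) {δ : ℝ} (hδ : 0 ≤ δ) (hm : ∀ v, |m v| ≤ 1)
    (hm3 : ∀ W ∈ C.words (n + 1), ∀ e ∈ W.head?, ∀ f ∈ W.getLast?, m (C.src e) = m (C.tgt f))
    (hpos : 0 ≤ ∑ W ∈ C.words (n + 1), msrc C m W * sigma C a x W)
    (hpre : ∀ p : List E, 1 ≤ p.length → p.length ≤ J →
      |∑ W ∈ (C.words (n + 1)).filter (fun W => p <+: W), (sigma C a x W - msrc C m W)| ≤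
        δ * (C.q : ℝ) ^ (2 * (n + 1 - p.length))) :
    -((Fintype.card V : ℝ) * ((C.q : ℝ) ^ 2 + C.q + 1) * ((C.q : ℝ) + 1) * (C.q : ℝ) ^ (3 * n)) *
      Real.sqrt (8 * δ ^ 2 + 4 * (7 / 8 : ℝ) ^ J) ≤ Th C a x (n + 1) := by
  have hκ : 0 ≤ 8 * δ ^ 2 + 4 * (7 / 8 : ℝ) ^ J := by positivity
  have hre : ∑ W ∈ C.words (n + 1), msrc C m W * sigma C a x W =
      ∑ Z ∈ C.op.words (n + 1), msrc C m Z.reverse * sigma C a x Z.reverse := by
    refine Finset.sum_bij' (fun W _ => W.reverse) (fun Z _ => Z.reverse) ?_ ?_ ?_ ?_ ?_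
    · intro W hW
      rw [mem_words_op, List.reverse_reverse]; exact hW
    · intro Z hZ; exact mem_words_op.mp hZ
    · intro W _; exact List.reverse_reverse W
    · intro Z _; exact List.reverse_reverse Z
    · intro W _; simp only [List.reverse_reverse]
  have hsplit : Th C a x (n + 1) = (((C.q : ℝ) + 1) * (C.q : ℝ) ^ n) *
      ∑ W ∈ C.words (n + 1), msrc C m W * sigma C a x W +
      ∑ Z ∈ C.op.words (n + 1), sigma C a x Z.reverse *
        ∑ W ∈ (C.words (n + 1)).filter (fun W => ∃ D, Tri C W D Z),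
          (sigma C a x W - msrc C m W) := by
    rw [hre, Finset.mul_sum, ← Finset.sum_add_distrib]
    unfold Th
    refine Finset.sum_congr rfl (fun Z hZ => ?_)
    have h1 : ∑ W ∈ (C.words (n + 1)).filter (fun W => ∃ D, Tri C W D Z),
        sigma C a x W * sigma C a x Z.reverse =
        ∑ W ∈ (C.words (n + 1)).filter (fun W => ∃ D, Tri C W D Z),
        (sigma C a x Z.reverse * (sigma C a x W - msrc C m W) +
          msrc C m Z.reverse * sigma C a x Z.reverse) := by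
      refine Finset.sum_congr rfl (fun W hW => ?_)
      obtain ⟨hWw, D, hT⟩ := Finset.mem_filter.mp hW
      rw [← thlow_msrc C m hm3 hZ hWw hT]
      ring
    rw [h1, Finset.sum_add_distrib, Finset.sum_const, card_inc' C hZ, nsmul_eq_mul,
      ← Finset.mul_sum]
    push_cast
    ring
  -- second moment
  have hF2 : ∀ W ∈ C.words (n + 1), |sigma C a x W - msrc C m W| ≤ 2 := by
    intro W _
    have h1 := sigma_abs C a x W
    have h2 : |msrc C m W| ≤ 1 := by
      cases W with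
      | nil => show |(0 : ℝ)| ≤ 1; rw [abs_zero]; exact zero_le_one
      | cons e W => exact hm _
    have h3 := abs_sub (sigma C a x W) (msrc C m W)
    linarith
  have hG2 : ∑ Z ∈ C.op.words (n + 1),
      (∑ W ∈ (C.words (n + 1)).filter (fun W => ∃ D, Tri C W D Z),
          (sigma C a x W - msrc C m W)) ^ 2 ≤
      (Fintype.card V : ℝ) * (((C.q : ℝ) ^ 2 + C.q + 1) * ((C.q : ℝ) + 1) ^ 2 *
        (C.q : ℝ) ^ (4 * n) * (8 * δ ^ 2 + 4 * (7 / 8 : ℝ) ^ J)) := by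
    have h1 := sum_words_wfrom C.op n (fun Z =>
      (∑ W ∈ (C.words (n + 1)).filter (fun W => ∃ D, Tri C W D Z),
          (sigma C a x W - msrc C m W)) ^ 2)
    rw [h1]
    have h2 : ∀ v ∈ (univ : Finset V), ∑ Z ∈ C.op.wfrom (n + 1) v,
      (∑ W ∈ (C.words (n + 1)).filter (fun W => ∃ D, Tri C W D Z),
          (sigma C a x W - msrc C m W)) ^ 2 ≤
        ((C.q : ℝ) ^ 2 + C.q + 1) * ((C.q : ℝ) + 1) ^ 2 *
        (C.q : ℝ) ^ (4 * n) * (8 * δ ^ 2 + 4 * (7 / 8 : ℝ) ^ J) := fun v _ =>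
      second_moment C J n v (fun W => sigma C a x W - msrc C m W) δ hJ hδ hF2 hpre
    refine (Finset.sum_le_sum h2).trans ?_
    rw [Finset.sum_const, Finset.card_univ, nsmul_eq_mul]
  have hcs := sq_sum_le_card_mul_sum_sq (s := C.op.words (n + 1))
    (f := fun Z => sigma C a x Z.reverse *
        ∑ W ∈ (C.words (n + 1)).filter (fun W => ∃ D, Tri C W D Z),
          (sigma C a x W - msrc C m W))
  have hle : ∑ Z ∈ C.op.words (n + 1), (sigma C a x Z.reverse *
        ∑ W ∈ (C.words (n + 1)).filter (fun W => ∃ D, Tri C W D Z),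
          (sigma C a x W - msrc C m W)) ^ 2 ≤ ∑ Z ∈ C.op.words (n + 1),
      (∑ W ∈ (C.words (n + 1)).filter (fun W => ∃ D, Tri C W D Z),
          (sigma C a x W - msrc C m W)) ^ 2 := by
    refine Finset.sum_le_sum (fun Z _ => ?_)
    rw [mul_pow]
    have h1 : sigma C a x Z.reverse ^ 2 ≤ 1 := by
      rw [sq_le_one_iff_abs_le_one]
      exact sigma_abs C a x _
    exact mul_le_of_le_one_left (sq_nonneg _) h1
  have hcard : ((C.op.words (n + 1)).card : ℝ) =
      (Fintype.card V : ℝ) * ((C.q : ℝ) ^ 2 + C.q + 1) * (C.q : ℝ) ^ (2 * n) := by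
    rw [card_words C.op n]
    push_cast
    rfl
  have hq0 : (0 : ℝ) ≤ C.q := Nat.cast_nonneg _
  have hB0 : 0 ≤ (Fintype.card V : ℝ) * ((C.q : ℝ) ^ 2 + C.q + 1) * ((C.q : ℝ) + 1) *
      (C.q : ℝ) ^ (3 * n) * Real.sqrt (8 * δ ^ 2 + 4 * (7 / 8 : ℝ) ^ J) := by positivity
  have hsq : (∑ Z ∈ C.op.words (n + 1), sigma C a x Z.reverse *
        ∑ W ∈ (C.words (n + 1)).filter (fun W => ∃ D, Tri C W D Z),
          (sigma C a x W - msrc C m W)) ^ 2 ≤
      ((Fintype.card V : ℝ) * ((C.q : ℝ) ^ 2 + C.q + 1) * ((C.q : ℝ) + 1) *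
      (C.q : ℝ) ^ (3 * n) * Real.sqrt (8 * δ ^ 2 + 4 * (7 / 8 : ℝ) ^ J)) ^ 2 := by
    have e1 : ((Fintype.card V : ℝ) * ((C.q : ℝ) ^ 2 + C.q + 1) * ((C.q : ℝ) + 1) *
      (C.q : ℝ) ^ (3 * n) * Real.sqrt (8 * δ ^ 2 + 4 * (7 / 8 : ℝ) ^ J)) ^ 2 =
      ((Fintype.card V : ℝ) * ((C.q : ℝ) ^ 2 + C.q + 1) * (C.q : ℝ) ^ (2 * n)) *
      ((Fintype.card V : ℝ) * (((C.q : ℝ) ^ 2 + C.q + 1) * ((C.q : ℝ) + 1) ^ 2 *
        (C.q : ℝ) ^ (4 * n) * (8 * δ ^ 2 + 4 * (7 / 8 : ℝ) ^ J))) := by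
      rw [mul_pow _ (Real.sqrt _), Real.sq_sqrt hκ]
      have e2 : (C.q : ℝ) ^ (4 * n) = (C.q : ℝ) ^ (2 * n) * (C.q : ℝ) ^ (2 * n) := by
        rw [← pow_add]; congr 1; omega
      have e3 : ((C.q : ℝ) ^ (3 * n)) ^ 2 = (C.q : ℝ) ^ (2 * n) * ((C.q : ℝ) ^ (2 * n) *
          (C.q : ℝ) ^ (2 * n)) := by
        rw [← pow_add, ← pow_add, ← pow_mul]; congr 1; omega
      rw [mul_pow _ ((C.q : ℝ) ^ (3 * n)), e3, e2]
      ring
    rw [e1]
    refine hcs.trans ?_
    rw [hcard]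
    exact mul_le_mul_of_nonneg_left (hle.trans hG2) (by positivity)
  have habs := abs_le_of_sq_le_sq' hsq hB0
  rw [hsplit]
  have hp : 0 ≤ (((C.q : ℝ) + 1) * (C.q : ℝ) ^ n) *
      ∑ W ∈ C.words (n + 1), msrc C m W * sigma C a x W := mul_nonneg (by positivity) hpos
  have := habs.1
  linarith

end Pool.A2L
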