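import Pool.Agent.A2L.SumH

/-! Module Zero: few words with `sigma = 0`.

For `p = a e (ep C a x (tgt e) W)` with `sigma (e :: W) = 0`, i.e. `p = x (src e)`:
`sg p (ylo (src e)) - sg p (yhi (src e)) = 2` (`ylo < x < yhi`), and this difference is always
`≥ 0`. So, by `sum_aft_sg`, for each `e`
`2 #{W ∈ aft n e | sigma (e :: W) = 0} ≤ q^(2n) (Hh n (ylo (src e)) e - Hh n (yhi (src e)) e)
≤ q^(2n) 2 ε` by `Hh_approx` with `j = 0` (`ylo v, yhi v ∈ Yk 0 v`), `n = n0 + k`, `k ≤ K`.
Sum over `e` with `sum_words_succ` and `card_E`. -/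

set_option autoImplicit false

open Finset
open scoped Classical

noncomputable section

namespace Pool.A2L

variable {V E : Type} [Fintype V] [Fintype E] {X : Type} [LinearOrder X]

private theorem sg_sub_nonneg (p : X) {y z : X} (h : y < z) : 0 ≤ sg p y - sg p z := by
  rcases lt_trichotomy p y with hp | hp | hp
  · have e1 : sg p y = -1 := by
      unfold sg; rw [if_neg (not_lt.mpr hp.le), if_pos hp]
    have e2 : sg p z = -1 := by
      unfold sg; rw [if_neg (not_lt.mpr (hp.trans h).le), if_pos (hp.trans h)]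
    rw [e1, e2]; norm_num
  · subst hp
    have e1 : sg p p = 0 := by
      unfold sg; rw [if_neg (lt_irrefl _), if_neg (lt_irrefl _)]
    have e2 : sg p z = -1 := by
      unfold sg; rw [if_neg (not_lt.mpr h.le), if_pos h]
    rw [e1, e2]; norm_num
  · have e1 : sg p y = 1 := by
      unfold sg; rw [if_pos hp]
    have e2 : sg p z ≤ 1 := by
      unfold sg; split_ifs <;> norm_num
    rw [e1]; linarith

private theorem sg_zero {p y : X} (h : sg p y = 0) : p = y := by
  unfold sg at h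
  split_ifs at h with h1 h2
  · norm_num at h
  · norm_num at h
  · exact le_antisymm (not_lt.mp h1) (not_lt.mp h2)

theorem zero_count (C : Cx V E) (a : E → X ≃o X) (x ylo yhi : V → X) (hlo : ∀ v, ylo v < x v)
    (hhi : ∀ v, x v < yhi v) {K n0 : ℕ} {φ : E → ℝ} {ε : ℝ}
    (hφ : ∀ e, ∀ y ∈ Yk C a x ylo yhi K (C.src e), |Hh C a x n0 y e - φ e| ≤ ε)
    {n k : ℕ} (hn : n = n0 + k) (hK : k ≤ K) :
    (((C.words (n + 1)).filter (fun W => sigma C a x W = 0)).card : ℝ) ≤
      ε * ((Fintype.card V : ℝ) * ((C.q : ℝ) ^ 2 + C.q + 1) * (C.q : ℝ) ^ (2 * n)) := by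
  have hq : (0 : ℝ) ≤ (C.q : ℝ) ^ (2 * n) := by positivity
  -- one letter
  have h1 : ∀ e : E, ∑ W ∈ C.aft n e, (if sigma C a x (e :: W) = 0 then (1 : ℝ) else 0) ≤
      ε * (C.q : ℝ) ^ (2 * n) := by
    intro e
    have hlt : ylo (C.src e) < yhi (C.src e) := (hlo _).trans (hhi _)
    have h2 : ∀ W ∈ C.aft n e, 2 * (if sigma C a x (e :: W) = 0 then (1 : ℝ) else 0) ≤
        sg (a e (ep C a x (C.tgt e) W)) (ylo (C.src e)) -
          sg (a e (ep C a x (C.tgt e) W)) (yhi (C.src e)) := by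
      intro W _
      split_ifs with h
      · have h3 : a e (ep C a x (C.tgt e) W) = x (C.src e) := sg_zero h
        rw [h3]
        have h4 : sg (x (C.src e)) (ylo (C.src e)) = 1 := by
          unfold sg; rw [if_pos (hlo _)]
        have h5 : sg (x (C.src e)) (yhi (C.src e)) = -1 := by
          unfold sg; rw [if_neg (not_lt.mpr (hhi _).le), if_pos (hhi _)]
        rw [h4, h5]; norm_num
      · rw [mul_zero]
        exact sg_sub_nonneg _ hlt
    have h3 := Finset.sum_le_sum h2
    rw [← Finset.mul_sum, Finset.sum_sub_distrib, sum_aft_sg, sum_aft_sg] at h3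
    have m1 : ylo (C.src e) ∈ Yk C a x ylo yhi 0 (C.src e) := by
      unfold Yk; simp
    have m2 : yhi (C.src e) ∈ Yk C a x ylo yhi 0 (C.src e) := by
      unfold Yk; simp
    have b1 := Hh_approx C a x ylo yhi hφ k 0 e _ (by omega) m1
    have b2 := Hh_approx C a x ylo yhi hφ k 0 e _ (by omega) m2
    rw [← hn] at b1 b2
    have b3 := abs_le.mp b1
    have b4 := abs_le.mp b2
    have b5 : Hh C a x n (ylo (C.src e)) e - Hh C a x n (yhi (C.src e)) e ≤ 2 * ε := by
      linarith [b3.2, b4.1]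
    have b6 : (C.q : ℝ) ^ (2 * n) * Hh C a x n (ylo (C.src e)) e -
        (C.q : ℝ) ^ (2 * n) * Hh C a x n (yhi (C.src e)) e ≤ (C.q : ℝ) ^ (2 * n) * (2 * ε) := by
      rw [← mul_sub]
      exact mul_le_mul_of_nonneg_left b5 hq
    linarith
  have h2 : (((C.words (n + 1)).filter (fun W => sigma C a x W = 0)).card : ℝ) =
      ∑ W ∈ C.words (n + 1), (if sigma C a x W = 0 then (1 : ℝ) else 0) := by
    rw [Finset.card_filter]
    push_cast
    rfl
  rw [h2, sum_words_succ]
  calc ∑ e, ∑ W ∈ C.aft n e, (if sigma C a x (e :: W) = 0 then (1 : ℝ) else 0)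
      ≤ ∑ _e : E, ε * (C.q : ℝ) ^ (2 * n) := Finset.sum_le_sum (fun e _ => h1 e)
    _ = (Fintype.card E : ℝ) * (ε * (C.q : ℝ) ^ (2 * n)) := by
        rw [Finset.sum_const, Finset.card_univ, nsmul_eq_mul]
    _ = _ := by
        rw [card_E C]
        push_cast
        ring

end Pool.A2L
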