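import Pool.Agent.A2L.Theta
import Pool.Agent.A2L.ThLow
import Pool.Agent.A2L.Pref
import Pool.Agent.A2L.Zero
import Pool.Agent.A2L.ClsAvg

/-! Module NPlus: the functions `Hh n` are uniformly not constant.

Constants: `J = 45` (`4 (7/8)^45 ≤ 1/100`), `δ = 1/40` (`8 δ^2 = 1/200`), so
`κ = 8 δ^2 + 4 (7/8)^J ≤ 3/200 < 1/64`, `sqrt κ < 1/8`. `ε = 1/200`, mixing tolerance
`δ' = 1/100` (so `2 ε + δ' = 1/50 ≤ δ`). Let `K0` be given by `mix` for `δ'`. Put
`K = J + K0 + 3`. Suppose the claim fails for `(K, ε)`: there is `n0` such that for all `e` and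
`y ∈ Yk K (src e)`: `|Hh n0 y e - Hh n0 (x (src e)) e| ≤ ε`; let `φ e = Hh n0 (x (src e)) e`
(`|φ| ≤ 1` by `Hh_abs`). Choose `M ∈ {J+K0, J+K0+1, J+K0+2}` with `3 ∣ n0 + M + 1`, put
`n = n0 + M`, so `J ≤ n`, `M ≤ K`. `m` from `cls_avg` with `S = sigma`. `hm3` from `cls_words` and
the class invariance. Prefixes: for `p' = p ++ [t]` of length `j+1 ≤ J`, in `words (j+1)`: with
`k = M - (j+1)`, `prefix_est` gives the hypothesis of `cls_avg` with `β = (Bop C)^[k+1] φ`, and
`k + 1 = M - j ≥ K0`, so `mix` gives `|β e - β e'| ≤ δ'`. For a list `p'` which is not a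
straight word, no straight word has it as prefix, the sum is empty. So `hpre` holds with `δ`.
`theta_lower`: `Th ≥ -t sqrt κ ≥ -t/8` where `t = |V| N (q+1) q^(3n) > 0`. `theta_upper` and
`zero_count` (with `k = M`): `3 Th ≤ -t + (q+1) q^n ε |V| N q^(2n) = -t + ε t`. So
`-3/8 ≤ -1 + 1/200`, contradiction. -/

set_option autoImplicit false

open Finset
open scoped Classical

noncomputable section

namespace Pool.A2L

variable {V E : Type} [Fintype V] [Fintype E] {X : Type} [LinearOrder X]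

private theorem nplus_sigma_abs (C : Cx V E) (a : E → X ≃o X) (x : V → X) (W : List E) :
    |sigma C a x W| ≤ 1 := by
  cases W with
  | nil => simp [sigma]
  | cons e W =>
    simp only [sigma, sg]
    split_ifs <;> simp

private theorem nplus_num : Real.sqrt (8 * (1 / 40 : ℝ) ^ 2 + 4 * (7 / 8 : ℝ) ^ 45) ≤ 1 / 8 := by
  rw [show (1 / 8 : ℝ) = Real.sqrt ((1 / 8) ^ 2) from (Real.sqrt_sq (by norm_num)).symm]
  apply Real.sqrt_le_sqrt
  norm_num

theorem nplus [Nonempty V] (C : Cx V E) {a : E → X ≃o X} (ha : Lab C a) (x ylo yhi : V → X)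
    (hlo : ∀ v, ylo v < x v) (hhi : ∀ v, x v < yhi v) :
    ∃ (K : ℕ) (ε : ℝ), 0 < ε ∧ ∀ n : ℕ, ∃ e : E, ∃ y ∈ Yk C a x ylo yhi K (C.src e),
      ε < |Hh C a x n y e - Hh C a x n (x (C.src e)) e| := by
  obtain ⟨K0, hK0⟩ := mix C (δ := 1 / 100) (by norm_num)
  by_contra hcon
  push Not at hcon
  obtain ⟨n0, hn0⟩ := hcon (45 + K0 + 3) (1 / 200) (by norm_num)
  set φ : E → ℝ := fun e => Hh C a x n0 (x (C.src e)) e with hφdef
  have hφ : ∀ e, ∀ y ∈ Yk C a x ylo yhi (45 + K0 + 3) (C.src e),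
      |Hh C a x n0 y e - φ e| ≤ 1 / 200 := hn0
  have hφ1 : ∀ e, |φ e| ≤ 1 := fun e => Hh_abs C a x n0 (x (C.src e)) e
  obtain ⟨M, hM1, hM2, hM3⟩ : ∃ M, 45 + K0 ≤ M ∧ M ≤ 45 + K0 + 3 ∧ 3 ∣ n0 + M + 1 := by
    have h : (n0 + (45 + K0) + 1) % 3 < 3 := Nat.mod_lt _ (by norm_num)
    rcases (by omega : (n0 + (45 + K0) + 1) % 3 = 0 ∨ (n0 + (45 + K0) + 1) % 3 = 1 ∨
      (n0 + (45 + K0) + 1) % 3 = 2) with h | h | h
    · exact ⟨45 + K0, by omega, by omega, by omega⟩
    · exact ⟨45 + K0 + 2, by omega, by omega, by omega⟩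
    · exact ⟨45 + K0 + 1, by omega, by omega, by omega⟩
  obtain ⟨n, hn⟩ : ∃ n, n = n0 + M := ⟨_, rfl⟩
  have h3 : 3 ∣ n + 1 := by rw [hn]; exact hM3
  obtain ⟨m, hm1, hmc, hpos, hpre⟩ := cls_avg C n (sigma C a x)
    (fun W _ => nplus_sigma_abs C a x W)
  have hm3 : ∀ W ∈ C.words (n + 1), ∀ e ∈ W.head?, ∀ f ∈ W.getLast?,
      m (C.src e) = m (C.tgt f) :=
    fun W hW e he f hf => hmc _ _ (cls_words C h3 hW he hf)
  have hpre' : ∀ p : List E, 1 ≤ p.length → p.length ≤ 45 →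
      |∑ W ∈ (C.words (n + 1)).filter (fun W => p <+: W), (sigma C a x W - msrc C m W)| ≤
        (1 / 40) * (C.q : ℝ) ^ (2 * (n + 1 - p.length)) := by
    intro p hp1 hp2
    rcases List.eq_nil_or_concat p with rfl | ⟨p', t, rfl⟩
    · simp at hp1
    · rw [List.concat_eq_append] at hp1 hp2 ⊢
      rw [List.length_append, List.length_singleton] at hp2 ⊢
      have hq : (0 : ℝ) ≤ (C.q : ℝ) ^ (2 * (n - p'.length)) := by positivity
      by_cases hw : p' ++ [t] ∈ C.words (p'.length + 1)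
      · have hk : n = (p'.length + 1) + (M - (p'.length + 1)) + n0 := by omega
        have hkK : (p'.length + 1) + (M - (p'.length + 1)) ≤ 45 + K0 + 3 := by omega
        have h := hpre p'.length ((Bop C)^[(M - (p'.length + 1)) + 1] φ) (1 / 200) (1 / 100)
          (by omega)
          (fun p t hpt => prefix_est C a x ylo yhi hφ hk hkK p t hpt)
          (fun e e' hee => hK0 _ (by omega) φ hφ1 e e' hee) p' t hw
        have he : n + 1 - (p'.length + 1) = n - p'.length := by omega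
        rw [he]
        refine h.trans ?_
        nlinarith
      · have hemp : (C.words (n + 1)).filter (fun W => (p' ++ [t]) <+: W) = ∅ := by
          rw [Finset.filter_eq_empty_iff]
          intro W hW hpW
          apply hw
          rw [mem_words] at hW ⊢
          refine ⟨by simp, ?_⟩
          obtain ⟨s, hs⟩ := hpW
          have h2 := hW.2
          rw [← hs] at h2
          exact (List.isChain_append.mp h2).1
        rw [hemp]
        simp only [Finset.sum_empty, abs_zero]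
        positivity
  have hlow := theta_lower C a x (n := n) (J := 45) (by omega) m (δ := 1 / 40) (by norm_num) hm1
    hm3 hpos hpre'
  have hup := theta_upper C ha x n
  have hzero := zero_count C a x ylo yhi hlo hhi hφ (n := n) (k := M) hn (by omega)
  have hq0 : (0 : ℝ) < (C.q : ℝ) := by exact_mod_cast q_pos C
  have hV : (0 : ℝ) < (Fintype.card V : ℝ) := by exact_mod_cast Fintype.card_pos
  set t : ℝ := (Fintype.card V : ℝ) * ((C.q : ℝ) ^ 2 + C.q + 1) * ((C.q : ℝ) + 1) *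
    (C.q : ℝ) ^ (3 * n) with ht
  have htpos : 0 < t := by rw [ht]; positivity
  have h1 : ((C.q : ℝ) + 1) * (C.q : ℝ) ^ n *
        (((C.words (n + 1)).filter (fun W => sigma C a x W = 0)).card : ℝ) ≤ (1 / 200) * t := by
    have h2 : ((C.q : ℝ) + 1) * (C.q : ℝ) ^ n *
        (((C.words (n + 1)).filter (fun W => sigma C a x W = 0)).card : ℝ) ≤
        ((C.q : ℝ) + 1) * (C.q : ℝ) ^ n *
        ((1 / 200) * ((Fintype.card V : ℝ) * ((C.q : ℝ) ^ 2 + C.q + 1) * (C.q : ℝ) ^ (2 * n))) :=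
      mul_le_mul_of_nonneg_left hzero (by positivity)
    refine h2.trans (le_of_eq ?_)
    rw [ht, show 3 * n = n + 2 * n by ring, pow_add]
    ring
  have h4 : -t * Real.sqrt (8 * (1 / 40 : ℝ) ^ 2 + 4 * (7 / 8 : ℝ) ^ 45) ≥ -t * (1 / 8) := by
    have := mul_le_mul_of_nonneg_left nplus_num htpos.le
    linarith
  linarith

end Pool.A2L
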