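import Pool.Agent.A2L.Cnt

/-! Module Pair0: two straight words from the same vertex with distinct first letters have exactly
one common side `Z`.

Induction on `n`. `n = 0`: `[w]`, `[w']`: `Z = [g]` with `I g w`, `I g w'`: `C.join` and `I_two`.
Step: words `w :: W`, `w' :: W'` of length `n+2`. The first letter `g` of a common `Z` must be the
unique line containing `w` and `w'`. Let `Row C (w :: W) g W1 l`, `Row C (w' :: W') g W1' l'`,
`W1 = a :: _`, `W1' = a' :: _` in `words (n+1)`, with `T w b g`, `I b a`, `T w' b' g`, `I b' a'`,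
`a ≠ g`, `a' ≠ g`, `src a = src g = src a'` (`row_out_head`). `a ≠ a'`: if `a = a'` then `b`, `b'`
both contain `g` and `a` so `b = b'` (`I_two`, `a ≠ g`), and then `w = w'` (`T_uniq1`). By
induction exactly one common `Z'` for `W1`, `W1'`; its first letter `z` has `I z a`, `I z a'`.
`St z g`: `tgt z = src a = src g`; if `I z g`, then `z`, `b` contain `g` and `a`, so `z = b`;
similarly `z = b'`; so `b = b'`, contradiction as before. Hence `g :: Z'` is the unique common
element. -/

set_option autoImplicit false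

open Finset
open scoped Classical

noncomputable section

namespace Pool.A2L

variable {V E : Type} [Fintype V] [Fintype E]

private theorem pair0_cons {C : Cx V E} {W Z : List E} {g : E} :
    (∃ D, Tri C W D (g :: Z)) ↔ ∃ W1 l, Row C W g W1 l ∧ (∃ D, Tri C W1 D Z) ∧
      ∀ z ∈ Z.head?, C.St z g := by
  constructor
  · rintro ⟨D, h⟩
    obtain ⟨W1, l, D', _, h1, h2, h3⟩ := tri_cons_iff.1 h
    exact ⟨W1, l, h1, ⟨D', h2⟩, h3⟩
  · rintro ⟨W1, l, h1, ⟨D', h2⟩, h3⟩
    exact ⟨l :: D', tri_cons_iff.2 ⟨W1, l, D', rfl, h1, h2, h3⟩⟩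

private theorem pair0_core (C : Cx V E) (n : ℕ) : ∀ {w w' : E} {W W' : List E},
    w :: W ∈ C.words (n + 1) → w' :: W' ∈ C.words (n + 1) → w ≠ w' → C.src w = C.src w' →
    ∃ Z, ∀ Z', ((∃ D, Tri C (w :: W) D Z') ∧ (∃ D, Tri C (w' :: W') D Z')) ↔ Z' = Z := by
  induction n with
  | zero =>
    intro w w' W W' hW hW' hne hs
    obtain ⟨g, h1, h2⟩ := C.join hne hs
    have hl : W = [] := by
      have h3 := (mem_words.1 hW).1
      simpa using h3
    have hl' : W' = [] := by
      have h3 := (mem_words.1 hW').1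
      simpa using h3
    subst hl
    subst hl'
    have key : ∀ x : E, C.I g x → ∃ D, Tri C [x] D [g] := by
      intro x hx
      obtain ⟨W1, l, hr⟩ := row_exists C (List.isChain_singleton x) hx
      have h3 := row_length hr
      have h4 : W1 = [] := by
        simpa using h3
      subst h4
      exact pair0_cons.2 ⟨[], l, hr, ⟨[], Tri.nil⟩, by simp⟩
    refine ⟨[g], fun Z' => ⟨?_, ?_⟩⟩
    · rintro ⟨⟨D, hD⟩, ⟨D', hD'⟩⟩
      have h3 := (tri_length hD).2
      obtain ⟨g', rfl⟩ : ∃ g', Z' = [g'] := List.length_eq_one_iff.1 (by simpa using h3)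
      obtain ⟨W1, l, hr, _, _⟩ := pair0_cons.1 ⟨D, hD⟩
      obtain ⟨W1', l', hr', _, _⟩ := pair0_cons.1 ⟨D', hD'⟩
      have h5 := row_first hr
      have h6 := row_first hr'
      rcases I_two h1 h2 h5 h6 with h7 | h7
      · rw [h7]
      · exact absurd h7 hne
    · rintro rfl
      exact ⟨key w h1, key w' h2⟩
  | succ n ih =>
    intro w w' W W' hW hW' hne hs
    obtain ⟨g, h1, h2⟩ := C.join hne hs
    obtain ⟨W1, l, hr⟩ := row_exists C (mem_words.1 hW).2 h1
    obtain ⟨W1', l', hr'⟩ := row_exists C (mem_words.1 hW').2 h2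
    have hlen : W1.length = n + 1 := by
      have h3 := row_length hr
      have h4 := (mem_words.1 hW).1
      omega
    have hlen' : W1'.length = n + 1 := by
      have h3 := row_length hr'
      have h4 := (mem_words.1 hW').1
      omega
    obtain ⟨a, W1t, rfl⟩ := List.exists_cons_of_length_eq_add_one hlen
    obtain ⟨a', W1t', rfl⟩ := List.exists_cons_of_length_eq_add_one hlen'
    obtain ⟨hsa, hag, b, hT, hI⟩ := row_out_head hr
    obtain ⟨hsa', hag', b', hT', hI'⟩ := row_out_head hr'
    have hbb : b ≠ b' := by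
      rintro rfl
      exact hne (T_uniq1 hT hT')
    have haa : a ≠ a' := by
      rintro rfl
      rcases I_two (I_of_T2 hT) hI (I_of_T2 hT') hI' with h3 | h3
      · exact hbb h3
      · exact hag h3.symm
    have hm : a :: W1t ∈ C.words (n + 1) := mem_words.2 ⟨hlen, row_out_chain hr⟩
    have hm' : a' :: W1t' ∈ C.words (n + 1) := mem_words.2 ⟨hlen', row_out_chain hr'⟩
    obtain ⟨Z, hZ⟩ := ih hm hm' haa (hsa.trans hsa'.symm)
    obtain ⟨hZ1, hZ2⟩ := (hZ Z).2 rfl
    have hst : ∀ z ∈ Z.head?, C.St z g := by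
      intro z hz
      obtain ⟨D, hD⟩ := hZ1
      obtain ⟨D', hD'⟩ := hZ2
      cases Z with
      | nil => simp at hz
      | cons z' Zt =>
        simp only [List.head?_cons, Option.mem_def, Option.some.injEq] at hz
        subst hz
        have h3 : C.I z' a := tri_endA (D := D) hD
        have h4 : C.I z' a' := tri_endA (D := D') hD'
        refine ⟨(I_comp h3).trans hsa, fun h5 => ?_⟩
        have h6 : z' = b := by
          rcases I_two h3 h5 hI (I_of_T2 hT) with h7 | h7
          · exact h7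
          · exact absurd h7 hag
        have h8 : z' = b' := by
          rcases I_two h4 h5 hI' (I_of_T2 hT') with h7 | h7
          · exact h7
          · exact absurd h7 hag'
        exact hbb (h6.symm.trans h8)
    refine ⟨g :: Z, fun Z' => ⟨?_, ?_⟩⟩
    · rintro ⟨⟨D, hD⟩, ⟨D', hD'⟩⟩
      have h3 := (tri_length hD).2
      have h3' : Z'.length = W.length + 1 := by simpa using h3
      obtain ⟨g', Zt, rfl⟩ := List.exists_cons_of_length_eq_add_one h3'
      obtain ⟨V1, m, hq, hq2, _⟩ := pair0_cons.1 ⟨D, hD⟩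
      obtain ⟨V1', m', hq', hq2', _⟩ := pair0_cons.1 ⟨D', hD'⟩
      have h5 := row_first hq
      have h6 := row_first hq'
      have h7 : g = g' := by
        rcases I_two h1 h2 h5 h6 with h7 | h7
        · exact h7
        · exact absurd h7 hne
      subst h7
      have h8 := (row_unique hq hr).1
      have h8' := (row_unique hq' hr').1
      subst h8
      subst h8'
      rw [(hZ Zt).1 ⟨hq2, hq2'⟩]
    · rintro rfl
      exact ⟨pair0_cons.2 ⟨_, l, hr, hZ1, hst⟩, pair0_cons.2 ⟨_, l', hr', hZ2, hst⟩⟩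

theorem pair_distinct (C : Cx V E) {n : ℕ} {w w' : E} {W W' : List E}
    (hW : w :: W ∈ C.words (n + 1)) (hW' : w' :: W' ∈ C.words (n + 1)) (hne : w ≠ w')
    (hs : C.src w = C.src w') :
    (C.inc (n + 1) (w :: W) ∩ C.inc (n + 1) (w' :: W')).card = 1 := by
  obtain ⟨Z, hZ⟩ := pair0_core C n hW hW' hne hs
  rw [Finset.card_eq_one]
  refine ⟨Z, ?_⟩
  ext Z'
  rw [mem_inter, mem_inc (mem_words.1 hW).1, mem_inc (mem_words.1 hW').1, mem_singleton]
  exact hZ Z'

end Pool.A2L
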