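import Pool.Agent.A2L.Row2

/-! Module RowFib: the number of straight words `W` with given upper row `W1` and given `g`.

Claim: for `W1 = a :: W1t ∈ words (n+1)`, `src a = src g`, `a ≠ g`: exactly `q` words
`W ∈ words (n+2)` with `Row C W g W1 l` for some `l`. Induction on `n` (for all `g`, `W1`).
From `Row.cons`: `T w b g`, `T g2 b a`, so `I b g` and `I b a`: `b` is the unique line containing
`g` and `a` (`C.join`, `I_two`, `a ≠ g`); `w` is determined by `T w b g` (exists since `I b g`),
`g2` by `T g2 b a` (exists since `I b a`).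
* `n = 0`: `W1 = [a]`: `W = [w, w2]` with `St w w2`, `I g2 w2`, and then `T w2 l g2` exists. Number
  of `w2` with `I g2 w2` and `St w w2`: `w2` ranges over the `q+1` points of the line `g2`, minus
  the points on the line `w`: the lines `w` and `g2` both contain `b` (`I w b`, `I g2 b`), and
  `w ≠ g2` (if `w = g2` then `T w b g` and `T g2 b a` give `g = a`), so the only common point is
  `b` (`I_two`), hence `q` choices (`tgt w = src b = tgt g2 = src w2`).
* step: `W1 = a :: a2 :: _`: the rest of the row is `Row C (w2 :: W) g2 (a2 :: _) l` with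
  `I g2 w2` automatic (`row_first`) and the condition `St w w2` is automatic: `g2 ≠ a2`
  and `src g2 = src a2` (needed to apply the induction hypothesis): `I a g2` (from `T g2 b a`
  rotated: `T a g2 b`), `St a a2`, so `a2 ≠ g2`; `src g2 = tgt a = src a2`. By induction there are
  exactly `q` words `w2 :: W` with `Row C (w2 :: W) g2 (a2 :: _) l`. For each of them `St w w2`
  holds: `tgt w = src b = tgt g2 = src w2`; if `I w w2`, then lines `w`, `g2` contain `b` and `w2`;
  `w ≠ g2` as before so `w2 = b`; but then, in the row of `w2 :: W`: `T w2 b2 g2`, `I b2 a2`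
  (`row_out_head`), and `T b g2 _`: from `T g2 b a` rotated `T b a g2`; `T w2 b2 g2` with
  `w2 = b` is `T b b2 g2`, so `b2 = a` (`T_uniq2`), hence `I a a2`, contradiction. -/

set_option autoImplicit false

open Finset
open scoped Classical

noncomputable section

namespace Pool.A2L

variable {V E : Type} [Fintype V] [Fintype E]

private theorem rowfib_iff {C : Cx V E} {a b g g2 w : E} (hT : C.T w b g) (hT2 : C.T g2 b a)
    (hag : a ≠ g) {W W1 : List E} {l : E} :
    Row C W g (a :: W1) l ↔ ∃ y W', W = w :: y :: W' ∧ C.St w y ∧ C.I g2 y ∧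
      Row C (y :: W') g2 W1 l := by
  constructor
  · intro h
    cases h with
    | @cons x y b' _ g2' _ _ W' _ h1 h2 h3 h4 h5 =>
      have hb : b' = b := by
        rcases I_two (I_of_T2 h1) (I_of_T2 h4) (I_of_T2 hT) (I_of_T2 hT2) with h6 | h6
        · exact h6
        · exact absurd h6.symm hag
      subst hb
      have hx := T_uniq1 h1 hT
      subst hx
      have hg := T_uniq1 h4 hT2
      subst hg
      exact ⟨y, W', rfl, h2, h3, h5⟩
  · rintro ⟨y, W', rfl, h2, h3, h5⟩
    exact Row.cons hT h2 h3 hT2 h5

private theorem rowfib_ne {C : Cx V E} {a b g g2 w : E} (hT : C.T w b g) (hT2 : C.T g2 b a)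
    (hag : a ≠ g) : w ≠ g2 := by
  rintro rfl
  exact hag (C.uniq hT2 hT)

theorem row_fibre (C : Cx V E) {n : ℕ} {W1 : List E} (hW1 : W1 ∈ C.words (n + 1)) {g : E}
    (hs : ∀ a ∈ W1.head?, C.src a = C.src g ∧ a ≠ g) :
    ((C.words (n + 2)).filter (fun W => ∃ l, Row C W g W1 l)).card = C.q := by
  induction n generalizing W1 g with
  | zero =>
    have hlen := (mem_words.1 hW1).1
    obtain ⟨a, rfl⟩ : ∃ a, W1 = [a] := List.length_eq_one_iff.1 (by simpa using hlen)
    obtain ⟨hsa, hag⟩ := hs a (by simp)
    obtain ⟨b, ⟨w, h1⟩, ⟨g2, h2⟩⟩ := C.join hag.symm hsa.symm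
    have hT : C.T w b g := T_rot2 h1
    have hT2 : C.T g2 b a := T_rot2 h2
    have hwg := rowfib_ne hT hT2 hag
    have hset : (C.words 2).filter (fun W => ∃ l, Row C W g [a] l) =
        ((univ.filter (fun y => ∃ l, C.T g2 y l)).erase b).image (fun y => [w, y]) := by
      ext W
      simp only [mem_filter, mem_image, mem_erase, mem_univ, true_and]
      constructor
      · rintro ⟨_, l, hr⟩
        obtain ⟨y, W', rfl, h3, h4, h5⟩ := (rowfib_iff hT hT2 hag).1 hr
        obtain ⟨y', h6, _⟩ := row_single h5
        simp only [List.cons.injEq] at h6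
        obtain ⟨_, rfl⟩ := h6
        refine ⟨y, ⟨?_, h4⟩, rfl⟩
        rintro rfl
        exact h3.2 (I_of_T1 hT)
      · rintro ⟨y, ⟨hyb, hy⟩, rfl⟩
        have hst : C.St w y := by
          refine ⟨?_, fun h3 => ?_⟩
          · rw [(T_comp hT).1, ← (T_comp hT2).1]
            exact I_comp hy
          · rcases I_two (I_of_T1 hT) h3 (I_of_T1 hT2) hy with h4 | h4
            · exact hwg h4
            · exact hyb h4.symm
        refine ⟨?_, ?_⟩
        · rw [cons_mem_words, cons_mem_words, words_zero]
          simp [hst]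
        · obtain ⟨l, hl⟩ := hy
          exact ⟨l, (rowfib_iff hT hT2 hag).2 ⟨y, [], rfl, hst, ⟨l, hl⟩, Row.one (C.rot hl)⟩⟩
    show ((C.words 2).filter (fun W => ∃ l, Row C W g [a] l)).card = C.q
    rw [hset, card_image_of_injective, card_erase_of_mem, C.card_out g2, Nat.add_sub_cancel]
    · simp only [mem_filter, mem_univ, true_and]
      exact I_of_T1 hT2
    · intro y y' h
      simpa using h
  | succ n ih =>
    have hlen := (mem_words.1 hW1).1
    obtain ⟨a, W1t, rfl⟩ := List.exists_cons_of_length_eq_add_one hlen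
    have hlen' : W1t.length = n + 1 := by simpa using hlen
    obtain ⟨a2, W1u, rfl⟩ := List.exists_cons_of_length_eq_add_one hlen'
    obtain ⟨hsa, hag⟩ := hs a (by simp)
    obtain ⟨b, ⟨w, h1⟩, ⟨g2, h2⟩⟩ := C.join hag.symm hsa.symm
    have hT : C.T w b g := T_rot2 h1
    have hT2 : C.T g2 b a := T_rot2 h2
    have hwg := rowfib_ne hT hT2 hag
    obtain ⟨hm, hst⟩ := cons_mem_words.1 hW1
    have hst' : C.St a a2 := hst a2 (by simp)
    have hih := ih hm (g := g2) (by
      intro x hx
      simp only [List.head?_cons, Option.mem_def, Option.some.injEq] at hx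
      subst hx
      refine ⟨?_, ?_⟩
      · rw [← hst'.1, (T_comp hT2).2.2]
      · rintro rfl
        exact hst'.2 (I_of_T3 hT2))
    have hset : (C.words (n + 1 + 2)).filter (fun W => ∃ l, Row C W g (a :: a2 :: W1u) l) =
        ((C.words (n + 2)).filter (fun W => ∃ l, Row C W g2 (a2 :: W1u) l)).image
          (fun W => w :: W) := by
      ext W
      simp only [mem_filter, mem_image]
      constructor
      · rintro ⟨hW, l, hr⟩
        obtain ⟨y, W', rfl, h3, h4, h5⟩ := (rowfib_iff hT hT2 hag).1 hr
        exact ⟨y :: W', ⟨(cons_mem_words.1 hW).1, l, h5⟩, rfl⟩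
      · rintro ⟨V, ⟨hV, l, hr⟩, rfl⟩
        cases V with
        | nil => simp [mem_words] at hV
        | cons y V' =>
          have hy := row_first hr
          obtain ⟨_, _, b2, hb2, hb3⟩ := row_out_head hr
          have hst2 : C.St w y := by
            refine ⟨?_, fun h3 => ?_⟩
            · rw [(T_comp hT).1, ← (T_comp hT2).1]
              exact I_comp hy
            · rcases I_two (I_of_T1 hT) h3 (I_of_T1 hT2) hy with h4 | h4
              · exact hwg h4
              · subst h4
                have h5 : b2 = a := T_uniq2 hb2 (C.rot hT2)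
                rw [h5] at hb3
                exact hst'.2 hb3
          refine ⟨cons_mem_words.2 ⟨hV, by simpa using hst2⟩, l,
            (rowfib_iff hT hT2 hag).2 ⟨y, V', rfl, hst2, hy, hr⟩⟩
    rw [hset, card_image_of_injective, hih]
    intro y y' h
    simpa using h

end Pool.A2L
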