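import Pool.Agent.A2L.TriB
import Pool.Agent.A2L.Cnt
import Pool.Agent.A2L.RowFib

/-! Module Pair1: two straight words with the same first letter `u`.

Let `W, W' ∈ words (n+1)` with `u :: W`, `u :: W'` straight. By `tri_reflA`,
`(∃ D, Tri C (u :: W) D Z) ↔ (∃ D, Tri C.op Z D (u :: W))`, and by `tri_cons_iff` (for `C.op`) this
means: `∃ Z1 l, Row C.op Z u Z1 l ∧ (∃ D', Tri C.op Z1 D' W) ∧ (∀ w ∈ W.head?, C.op.St w u)`, the
last condition being automatic, and `(∃ D', Tri C.op Z1 D' W) ↔ (∃ D', Tri C W D' Z1)`, i.e.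
`Z1 ∈ inc (n+1) W`. So the set `inc (n+2) (u :: W) ∩ inc (n+2) (u :: W')` maps to
`inc (n+1) W ∩ inc (n+1) W'` by `Z ↦ Z1` (unique by `row_unique`), and the fibre over `Z1` is
`{Z ∈ C.op.words (n+2) | ∃ l, Row C.op Z u Z1 l}` which has `q` elements by `row_fibre` for
`C.op`: its hypothesis: the first letter `z` of `Z1` satisfies `I z w` for the first letter `w` of
`W` (`tri_endA`), so `tgt z = src w = tgt u` and `z ≠ u` (as `St u w`). Use
`Finset.card_eq_sum_card_fiberwise` or `Finset.card_biUnion`. -/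

set_option autoImplicit false

open Finset
open scoped Classical

noncomputable section

namespace Pool.A2L

variable {V E : Type} [Fintype V] [Fintype E]

private theorem pair1_iff (C : Cx V E) {n : ℕ} {u : E} {W Z : List E}
    (hW : u :: W ∈ C.words (n + 2)) :
    Z ∈ C.inc (n + 2) (u :: W) ↔ Z ∈ C.op.words (n + 2) ∧
      ∃ Z1 l, Row C.op Z u Z1 l ∧ Z1 ∈ C.inc (n + 1) W := by
  rw [cons_mem_words] at hW
  obtain ⟨hW1, hW2⟩ := hW
  have hlen : W.length = n + 1 := (mem_words.mp hW1).1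
  unfold Cx.inc
  rw [mem_filter]
  refine and_congr_right (fun hZ => ?_)
  constructor
  · rintro ⟨D, hD⟩
    have h1 := tri_reflA hD
    rw [tri_cons_iff] at h1
    obtain ⟨Z1, l, D', _, hrow, htri, _⟩ := h1
    have h2 : Tri C W D'.reverse Z1 := tri_reflA htri
    refine ⟨Z1, l, hrow, ?_⟩
    rw [mem_filter]
    refine ⟨?_, D'.reverse, h2⟩
    have := (tri_words h2).2.2
    rwa [hlen] at this
  · rintro ⟨Z1, l, hrow, hZ1⟩
    rw [mem_filter] at hZ1
    obtain ⟨_, D1, hD1⟩ := hZ1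
    have h1 : Tri C.op Z1 D1.reverse W := tri_reflA hD1
    have h2 : Tri C.op Z (l :: D1.reverse) (u :: W) :=
      tri_cons_iff.2 ⟨Z1, l, D1.reverse, rfl, hrow, h1, fun z hz => St_op.2 (hW2 z hz)⟩
    exact ⟨_, tri_reflA h2⟩

theorem pair_cons (C : Cx V E) {n : ℕ} {u : E} {W W' : List E}
    (hW : u :: W ∈ C.words (n + 2)) (hW' : u :: W' ∈ C.words (n + 2)) :
    (C.inc (n + 2) (u :: W) ∩ C.inc (n + 2) (u :: W')).card =
      C.q * (C.inc (n + 1) W ∩ C.inc (n + 1) W').card := by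
  have key : C.inc (n + 2) (u :: W) ∩ C.inc (n + 2) (u :: W') =
      (C.inc (n + 1) W ∩ C.inc (n + 1) W').biUnion
        (fun Z1 => (C.op.words (n + 2)).filter (fun Z => ∃ l, Row C.op Z u Z1 l)) := by
    ext Z
    rw [mem_inter, pair1_iff C hW, pair1_iff C hW', mem_biUnion]
    constructor
    · rintro ⟨⟨hZ, Z1, l, hr, h1⟩, _, Z1', l', hr', h1'⟩
      have he := (row_unique hr hr').1
      subst he
      exact ⟨Z1, mem_inter.2 ⟨h1, h1'⟩, mem_filter.2 ⟨hZ, l, hr⟩⟩
    · rintro ⟨Z1, h1, h2⟩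
      rw [mem_inter] at h1
      rw [mem_filter] at h2
      obtain ⟨hZ, l, hr⟩ := h2
      exact ⟨⟨hZ, Z1, l, hr, h1.1⟩, hZ, Z1, l, hr, h1.2⟩
  rw [key, Finset.card_biUnion]
  · rw [Finset.sum_congr rfl (g := fun _ => C.q), Finset.sum_const, smul_eq_mul, mul_comm]
    intro Z1 hZ1
    rw [mem_inter] at hZ1
    have h1 := hZ1.1
    unfold Cx.inc at h1
    rw [mem_filter] at h1
    obtain ⟨hZw, D, hD⟩ := h1
    refine row_fibre C.op hZw ?_
    intro a ha
    rw [cons_mem_words] at hW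
    obtain ⟨hW1, hW2⟩ := hW
    have hlen : W.length = n + 1 := (mem_words.mp hW1).1
    cases W with
    | nil => simp at hlen
    | cons w Wt =>
      cases Z1 with
      | nil => simp at ha
      | cons z Zt =>
        simp only [List.head?_cons, Option.mem_def, Option.some.injEq] at ha
        subst ha
        have hI := tri_endA hD
        have hS := hW2 w (by simp)
        refine ⟨?_, ?_⟩
        · show C.tgt z = C.tgt u
          rw [I_comp hI, hS.1]
        · rintro rfl
          exact hS.2 hI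
  · intro Z1 _ Z2 _ hne
    rw [Function.onFun, Finset.disjoint_left]
    intro Z h1 h2
    rw [mem_filter] at h1 h2
    obtain ⟨_, l, hr⟩ := h1
    obtain ⟨_, l', hr'⟩ := h2
    exact hne (row_unique hr hr').1

end Pool.A2L
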