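import Pool.Agent.A2L.Basic
import Pool.Agent.A2L.A2Complex

/-! Module Quo: the finite quotient complex of a free cofinite action on an `Ã₂` complex. -/

set_option autoImplicit false

open Finset
open scoped Classical

noncomputable section

namespace Pool.A2L

section quo

variable {V E : Type} (C : A2Complex V E) {Γ : Type} [Group Γ] [MulAction Γ V] [MulAction Γ E]

/-- the orbit space -/
abbrev Om (Γ V : Type) [Group Γ] [MulAction Γ V] : Type := MulAction.orbitRel.Quotient Γ V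

/-- class of a vertex -/
def cl (Γ : Type) {V : Type} [Group Γ] [MulAction Γ V] (v : V) : Om Γ V :=
  Quotient.mk (MulAction.orbitRel Γ V) v

/-- representative -/
def rp (Γ : Type) {V : Type} [Group Γ] [MulAction Γ V] (ω : Om Γ V) : V := Quotient.out ω

theorem cl_rp {V : Type} [MulAction Γ V] (ω : Om Γ V) : cl Γ (rp Γ ω) = ω := Quotient.out_eq ω

theorem cl_eq_iff {V : Type} [MulAction Γ V] (v w : V) : cl Γ v = cl Γ w ↔ ∃ γ : Γ, γ • w = v := by
  unfold cl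
  rw [Quotient.eq]
  exact MulAction.orbitRel_apply.trans MulAction.mem_orbit_iff

theorem cl_smul {V : Type} [MulAction Γ V] (γ : Γ) (v : V) : cl Γ (γ • v) = cl Γ v :=
  (cl_eq_iff _ _).mpr ⟨γ, rfl⟩

theorem exists_co {V : Type} [MulAction Γ V] (v : V) : ∃ γ : Γ, γ • rp Γ (cl Γ v) = v := by
  rw [← cl_eq_iff, cl_rp]

/-- coordinate: `co v • rp (cl v) = v` -/
def co (Γ : Type) {V : Type} [Group Γ] [MulAction Γ V] (v : V) : Γ := (exists_co (Γ := Γ) v).choose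

theorem co_spec {V : Type} [MulAction Γ V] (v : V) : co Γ v • rp Γ (cl Γ v) = v :=
  (exists_co (Γ := Γ) v).choose_spec

variable {C}

theorem co_uniq (hA : FreeCofinite C Γ) {γ : Γ} {v : V} (h : γ • rp Γ (cl Γ v) = v) :
    γ = co Γ v := by
  have h2 := co_spec (Γ := Γ) v
  have h3 : ((co Γ v)⁻¹ * γ) • rp Γ (cl Γ v) = rp Γ (cl Γ v) := by
    rw [mul_smul, h, inv_smul_eq_iff, h2]
  have h4 := hA.free _ _ h3
  rw [inv_mul_eq_one] at h4
  exact h4.symm

theorem co_smul (hA : FreeCofinite C Γ) (γ : Γ) (v : V) : co Γ (γ • v) = γ * co Γ v := by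
  symm
  apply co_uniq hA
  rw [cl_smul, mul_smul, co_spec]

theorem co_rp (hA : FreeCofinite C Γ) (ω : Om Γ V) : co Γ (rp Γ ω) = 1 := by
  symm
  apply co_uniq hA
  rw [cl_rp, one_smul]

/-- edges starting at a representative -/
abbrev Eq' (C : A2Complex V E) (Γ : Type) [Group Γ] [MulAction Γ V] : Type :=
  {e : E // C.src e = rp Γ (cl Γ (C.src e))}

/-- label of an edge -/
def lb (C : A2Complex V E) (Γ : Type) [Group Γ] [MulAction Γ V] (e : E) : Γ := co Γ (C.tgt e)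

omit [MulAction Γ E] in
theorem lb_spec (e : E) : lb C Γ e • rp Γ (cl Γ (C.tgt e)) = C.tgt e := co_spec _

theorem lb_smul (hA : FreeCofinite C Γ) (γ : Γ) (e : E) : lb C Γ (γ • e) = γ * lb C Γ e := by
  unfold lb
  rw [hA.tgt_smul, co_smul hA]

theorem tri_smul_iff (hA : FreeCofinite C Γ) (γ : Γ) (e f g : E) :
    C.tri (γ • e) (γ • f) (γ • g) ↔ C.tri e f g := by
  constructor
  · intro h
    have := hA.tri_smul γ⁻¹ _ _ _ h
    simpa using this
  · exact hA.tri_smul γ _ _ _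

/-- triangles of the quotient -/
def T' (C : A2Complex V E) (Γ : Type) [Group Γ] [MulAction Γ V] [MulAction Γ E] (e f g : E) :
    Prop := C.tri e (lb C Γ e • f) ((lb C Γ e * lb C Γ f) • g)

theorem T'_tgt (hA : FreeCofinite C Γ) {e f g : E} (h : T' C Γ e f g) : cl Γ (C.tgt e) = cl Γ (C.src f) := by
  have h1 := C.comp _ _ _ h
  rw [h1, hA.src_smul, cl_smul]

theorem T'_lab (hA : FreeCofinite C Γ) {e f g : E} (he : C.src e = rp Γ (cl Γ (C.src e)))
    (h : T' C Γ e f g) :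
    lb C Γ e * lb C Γ f * lb C Γ g = 1 := by
  have h1 := C.comp _ _ _ (C.rot _ _ _ (C.rot _ _ _ h))
  rw [hA.tgt_smul] at h1
  have h2 : co Γ ((lb C Γ e * lb C Γ f) • C.tgt g) = co Γ (C.src e) := by rw [h1]
  rw [co_smul hA, he, co_rp hA] at h2
  exact h2

theorem T'_rot (hA : FreeCofinite C Γ) {e f g : E} (he : C.src e = rp Γ (cl Γ (C.src e)))
    (h : T' C Γ e f g) : T' C Γ f g e := by
  have h0 := T'_lab hA he h
  have h1 := C.rot _ _ _ h
  unfold T'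
  rw [← tri_smul_iff hA (lb C Γ e)]
  have h2 : lb C Γ e • (lb C Γ f * lb C Γ g) • e = e := by
    rw [smul_smul, ← mul_assoc, h0, one_smul]
  rw [h2, smul_smul]
  exact h1

theorem nrm_mem (hA : FreeCofinite C Γ) (e : E) :
    C.src ((co Γ (C.src e))⁻¹ • e) = rp Γ (cl Γ (C.src ((co Γ (C.src e))⁻¹ • e))) := by
  rw [hA.src_smul, cl_smul, inv_smul_eq_iff, co_spec]

/-- normalised edge -/
def nrm (hA : FreeCofinite C Γ) (e : E) : Eq' C Γ := ⟨(co Γ (C.src e))⁻¹ • e, nrm_mem hA e⟩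

theorem nrm_spec (hA : FreeCofinite C Γ) (e : E) : co Γ (C.src e) • (nrm hA e).1 = e := by
  unfold nrm
  simp

theorem eq_of_smul (hA : FreeCofinite C Γ) {e e' : Eq' C Γ} {γ : Γ} (h : γ • e.1 = e'.1) :
    e = e' := by
  have h1 : γ • C.src e.1 = C.src e'.1 := by rw [← hA.src_smul, h]
  have h2 : co Γ (γ • C.src e.1) = co Γ (C.src e'.1) := by rw [h1]
  rw [co_smul hA, e.2, e'.2, co_rp hA, co_rp hA, mul_one] at h2
  rw [h2, one_smul] at h
  exact Subtype.ext h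

/-- incidence -/
theorem T'_iff (hA : FreeCofinite C Γ) (e f : E) :
    (∃ g : Eq' C Γ, T' C Γ e f g.1) ↔ ∃ g, C.tri e (lb C Γ e • f) g := by
  constructor
  · rintro ⟨g, h⟩
    exact ⟨_, h⟩
  · rintro ⟨g, h⟩
    have h1 := C.comp _ _ _ (C.rot _ _ _ h)
    have h2 : C.src ((lb C Γ e * lb C Γ f)⁻¹ • g) =
        rp Γ (cl Γ (C.src ((lb C Γ e * lb C Γ f)⁻¹ • g))) := by
      rw [hA.src_smul, cl_smul, ← h1, hA.tgt_smul, cl_smul, inv_smul_eq_iff, mul_smul, lb_spec]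
    refine ⟨⟨_, h2⟩, ?_⟩
    unfold T'
    rw [smul_inv_smul]
    exact h

theorem eq_of_lines (hA : FreeCofinite C Γ) {e e' : Eq' C Γ}
    (h : (lb C Γ e.1)⁻¹ • e.1 = (lb C Γ e'.1)⁻¹ • e'.1) : e = e' := by
  apply eq_of_smul hA (γ := lb C Γ e'.1 * (lb C Γ e.1)⁻¹)
  rw [mul_smul, h, smul_inv_smul]

theorem fin_Eq' (hA : FreeCofinite C Γ) : Finite (Eq' C Γ) := by
  have := hA.cofinite
  have hfin : ∀ v, Finite {f // C.src f = v} := by
    intro v
    apply Nat.finite_of_card_ne_zero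
    rw [C.card_points]
    positivity
  have : Finite (Σ ω : Om Γ V, {f // C.src f = rp Γ ω}) := by
    have := hfin
    infer_instance
  refine Finite.of_injective
    (fun e : Eq' C Γ => (⟨cl Γ (C.src e.1), ⟨e.1, e.2⟩⟩ : Σ ω : Om Γ V, {f // C.src f = rp Γ ω})) ?_
  intro e e' h
  apply Subtype.ext
  have := congrArg (fun s : (Σ ω : Om Γ V, {f // C.src f = rp Γ ω}) => s.2.1) h
  simpa using this

theorem line_iff (hA : FreeCofinite C Γ) (e f : E) :
    (∃ g, C.tri e (lb C Γ e • f) g) ↔ ∃ g, C.tri ((lb C Γ e)⁻¹ • e) f g := by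
  constructor
  · rintro ⟨g, h⟩
    refine ⟨(lb C Γ e)⁻¹ • g, ?_⟩
    have := hA.tri_smul (lb C Γ e)⁻¹ _ _ _ h
    simpa using this
  · rintro ⟨g, h⟩
    refine ⟨lb C Γ e • g, ?_⟩
    have := hA.tri_smul (lb C Γ e) _ _ _ h
    simpa using this

theorem card_filter_eq {α : Type} [Fintype α] (p : α → Prop) [DecidablePred p] :
    (univ.filter p).card = Nat.card {x // p x} := by
  rw [Nat.card_eq_fintype_card, Fintype.card_subtype]

/-- the normalised form of a line `e0` ending at a representative -/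
theorem exists_line (hA : FreeCofinite C Γ) (e0 : E) (h : C.tgt e0 = rp Γ (cl Γ (C.tgt e0))) :
    ∃ e : Eq' C Γ, (lb C Γ e.1)⁻¹ • e.1 = e0 ∧ cl Γ (C.tgt e.1) = cl Γ (C.tgt e0) := by
  refine ⟨nrm hA e0, ?_, ?_⟩
  · have h1 : lb C Γ (nrm hA e0).1 = (co Γ (C.src e0))⁻¹ := by
      unfold nrm
      rw [lb_smul hA]
      unfold lb
      rw [h, co_rp hA, mul_one]
    rw [h1, inv_inv, nrm_spec]
  · unfold nrm
    rw [hA.tgt_smul, cl_smul]

theorem tgt_line (hA : FreeCofinite C Γ) (e : E) :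
    C.tgt ((lb C Γ e)⁻¹ • e) = rp Γ (cl Γ (C.tgt e)) := by
  rw [hA.tgt_smul, inv_smul_eq_iff, lb_spec]

/-- the quotient complex -/
def quo (hA : FreeCofinite C Γ) [Fintype (Om Γ V)] [Fintype (Eq' C Γ)] : Cx (Om Γ V) (Eq' C Γ) where
  src := fun e => cl Γ (C.src e.1)
  tgt := fun e => cl Γ (C.tgt e.1)
  T := fun e f g => T' C Γ e.1 f.1 g.1
  q := C.q
  two_le := C.two_le
  rot := fun {e f g} h => T'_rot hA e.2 h
  uniq := by
    intro e f g g' h h'
    have := C.uniq _ _ _ _ h h'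
    exact Subtype.ext (smul_left_cancel _ this)
  comp := fun {_ _ _} h => T'_tgt hA h
  join := by
    intro f f' hne hs
    have h1 : f.1 ≠ f'.1 := fun h => hne (Subtype.ext h)
    have h2 : C.src f.1 = C.src f'.1 := by rw [f.2, f'.2, hs]
    obtain ⟨e0, ⟨⟨g, hg⟩, ⟨g', hg'⟩⟩, -⟩ := C.join _ _ h1 h2
    have h3 : C.tgt e0 = rp Γ (cl Γ (C.tgt e0)) := by
      rw [C.comp _ _ _ hg]; exact f.2
    obtain ⟨e, he, -⟩ := exists_line hA e0 h3
    refine ⟨e, ?_, ?_⟩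
    · exact (T'_iff hA e.1 f.1).mpr ((line_iff hA e.1 f.1).mpr ⟨g, by rw [he]; exact hg⟩)
    · exact (T'_iff hA e.1 f'.1).mpr ((line_iff hA e.1 f'.1).mpr ⟨g', by rw [he]; exact hg'⟩)
  meet := by
    intro e e' hne ht
    have h1 : (lb C Γ e.1)⁻¹ • e.1 ≠ (lb C Γ e'.1)⁻¹ • e'.1 := fun h => hne (eq_of_lines hA h)
    have h2 : C.tgt ((lb C Γ e.1)⁻¹ • e.1) = C.tgt ((lb C Γ e'.1)⁻¹ • e'.1) := by
      rw [hA.tgt_smul, hA.tgt_smul]
      have k1 := lb_spec (C := C) (Γ := Γ) e.1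
      have k2 := lb_spec (C := C) (Γ := Γ) e'.1
      rw [inv_smul_eq_iff.mpr k1.symm, inv_smul_eq_iff.mpr k2.symm]
      exact congrArg (rp Γ) ht
    obtain ⟨f0, ⟨⟨g, hg⟩, ⟨g', hg'⟩⟩, -⟩ := C.meet _ _ h1 h2
    have h3 : C.src f0 = rp Γ (cl Γ (C.src f0)) := by
      have k1 := lb_spec (C := C) (Γ := Γ) e.1
      rw [← C.comp _ _ _ hg, hA.tgt_smul, cl_smul, inv_smul_eq_iff.mpr k1.symm]
    refine ⟨⟨f0, h3⟩, ?_, ?_⟩
    · exact (T'_iff hA e.1 f0).mpr ((line_iff hA e.1 f0).mpr ⟨g, hg⟩)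
    · exact (T'_iff hA e'.1 f0).mpr ((line_iff hA e'.1 f0).mpr ⟨g', hg'⟩)
  two := by
    intro e e' f f' k1 k2 k3 k4
    by_cases hf : f = f'
    · exact Or.inr hf
    left
    have k1' := (line_iff hA _ _).mp ((T'_iff hA _ _).mp k1)
    have k2' := (line_iff hA _ _).mp ((T'_iff hA _ _).mp k2)
    have k3' := (line_iff hA _ _).mp ((T'_iff hA _ _).mp k3)
    have k4' := (line_iff hA _ _).mp ((T'_iff hA _ _).mp k4)
    have h1 : f.1 ≠ f'.1 := fun h => hf (Subtype.ext h)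
    have h2 : C.src f.1 = C.src f'.1 := by
      obtain ⟨g1, hg1⟩ := k1'
      obtain ⟨g2, hg2⟩ := k2'
      rw [← C.comp _ _ _ hg1, ← C.comp _ _ _ hg2]
    exact eq_of_lines hA ((C.join _ _ h1 h2).unique ⟨k1', k2'⟩ ⟨k3', k4'⟩)
  card_out := by
    intro e
    rw [card_filter_eq, ← C.card_line e.1]
    refine Nat.card_congr (Equiv.ofBijective
      (fun f : {f : Eq' C Γ // ∃ g : Eq' C Γ, T' C Γ e.1 f.1 g.1} =>
        (⟨lb C Γ e.1 • f.1.1, (T'_iff hA _ _).mp f.2⟩ : {f // ∃ g, C.tri e.1 f g})) ⟨?_, ?_⟩)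
    · intro f f' h
      have h1 := congrArg Subtype.val h
      exact Subtype.ext (Subtype.ext (smul_left_cancel _ h1))
    · rintro ⟨f, g, hg⟩
      have h1 := C.comp _ _ _ hg
      have h2 : C.src ((lb C Γ e.1)⁻¹ • f) = rp Γ (cl Γ (C.src ((lb C Γ e.1)⁻¹ • f))) := by
        rw [hA.src_smul, cl_smul, ← h1, inv_smul_eq_iff, lb_spec]
      refine ⟨⟨⟨_, h2⟩, (T'_iff hA _ _).mpr ⟨g, by simpa using hg⟩⟩, ?_⟩
      apply Subtype.ext
      simp
  card_in := by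
    intro f
    rw [card_filter_eq, ← C.card_pencil f.1]
    refine Nat.card_congr (Equiv.ofBijective
      (fun e : {e : Eq' C Γ // ∃ g : Eq' C Γ, T' C Γ e.1 f.1 g.1} =>
        (⟨(lb C Γ e.1.1)⁻¹ • e.1.1, (line_iff hA _ _).mp ((T'_iff hA _ _).mp e.2)⟩ :
          {e // ∃ g, C.tri e f.1 g})) ⟨?_, ?_⟩)
    · intro e e' h
      have h1 := congrArg Subtype.val h
      exact Subtype.ext (eq_of_lines hA h1)
    · rintro ⟨e0, g, hg⟩
      have h3 : C.tgt e0 = rp Γ (cl Γ (C.tgt e0)) := by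
        rw [C.comp _ _ _ hg]; exact f.2
      obtain ⟨e, he, -⟩ := exists_line hA e0 h3
      refine ⟨⟨e, (T'_iff hA _ _).mpr ((line_iff hA _ _).mpr ⟨g, by rw [he]; exact hg⟩)⟩, ?_⟩
      apply Subtype.ext
      exact he
  card_src := by
    intro ω
    rw [card_filter_eq, ← C.card_points (rp Γ ω)]
    refine Nat.card_congr (Equiv.ofBijective
      (fun e : {e : Eq' C Γ // cl Γ (C.src e.1) = ω} =>
        (⟨e.1.1, e.1.2.trans (congrArg (rp Γ) e.2)⟩ : {e // C.src e = rp Γ ω})) ⟨?_, ?_⟩)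
    · intro e e' h
      have h1 := congrArg Subtype.val h
      exact Subtype.ext (Subtype.ext h1)
    · rintro ⟨e, he⟩
      have h1 : cl Γ (C.src e) = ω := by rw [he, cl_rp]
      exact ⟨⟨⟨e, by rw [h1]; exact he⟩, h1⟩, rfl⟩
  card_tgt := by
    intro ω
    rw [card_filter_eq, ← C.card_lines (rp Γ ω)]
    refine Nat.card_congr (Equiv.ofBijective
      (fun e : {e : Eq' C Γ // cl Γ (C.tgt e.1) = ω} =>
        (⟨(lb C Γ e.1.1)⁻¹ • e.1.1, (tgt_line hA e.1.1).trans (congrArg (rp Γ) e.2)⟩ :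
          {e // C.tgt e = rp Γ ω})) ⟨?_, ?_⟩)
    · intro e e' h
      have h1 := congrArg Subtype.val h
      exact Subtype.ext (eq_of_lines hA h1)
    · rintro ⟨e0, he0⟩
      have h1 : cl Γ (C.tgt e0) = ω := by rw [he0, cl_rp]
      obtain ⟨e, he, he2⟩ := exists_line hA e0 (by rw [h1]; exact he0)
      exact ⟨⟨e, he2.trans h1⟩, Subtype.ext he⟩

end quo

end Pool.A2L
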