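import Pool.Agent.A2L.Basic

/-! Module Row1: basic properties of strips (`Row`). All by induction on the derivation of `Row`.
Geometry: in `Row.cons` the letters are `w = α00`, `b = β00`, `g = γ00`, `w2 = α10`, `g2 = γ10`,
`a = α01`. We know `I b g`? NO - the incidences available from `T w b g` are `I w b, I b g, I g w`,
from `T g2 b a` are `I g2 b, I b a, I a g2`.

* `row_exists`: induction on `W`. For `w :: w2 :: W`: take `b` with `T w b g` (from `I g w`:
  `∃ b, T g w b`, rotate). `b ≠ w2` since `I w b` and `St w w2`; `src b = tgt w = src w2`; `C.join`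
  gives `g2` with `I g2 b`, `I g2 w2`; `a` from `I g2 b`.
* `row_unique`: induction; `b` by `T_uniq2`, `g2` by `I_two` (else `b = w2`, contradiction to
  `St w w2` and `I w b`), `a` by `C.uniq`.
* `row_out_chain`: for outputs `a :: a2 :: _` with `T w b g`, `St w w2`, `I g2 w2`, `T g2 b a`,
  `T w2 b2 g2`, `St w2 w3`, `I g3 w3`, `T g3 b2 a2`: `tgt a = src g2 = tgt b2 = src a2`. If
  `I a a2`: both lines `a`, `b2` contain the points `g2` (`I a g2`, `I b2 g2`) and `a2`
  (`I b2 a2`), so `a = b2` or `g2 = a2` (`I_two`). If `g2 = a2`: `T_uniq1` gives `g3 = w2`, so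
  `I w2 w3`, contradiction. If `a = b2`: `T a g2 b` and `T b2 g2 w2` (rotations) give `b = w2`,
  but `I w b`, contradiction to `St w w2`.
* `row_out_head`: `a ≠ g`: if `a = g` then `T b a g2`, `T b g w` (rotations) give `g2 = w`, so
  `I w w2`, contradiction. -/

set_option autoImplicit false

open Finset
open scoped Classical

noncomputable section

namespace Pool.A2L

variable {V E : Type} [Fintype V] [Fintype E]

theorem row_exists (C : Cx V E) {w g : E} {W : List E} (hW : (w :: W).IsChain C.St)
    (hg : C.I g w) : ∃ W1 l, Row C (w :: W) g W1 l := by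
  induction W generalizing w g with
  | nil =>
    obtain ⟨b, hb⟩ := hg
    exact ⟨[], b, Row.one (C.rot hb)⟩
  | cons w2 W ih =>
    obtain ⟨b, hb⟩ := hg
    have hT : C.T w b g := C.rot hb
    rw [List.isChain_cons_cons] at hW
    have hne : b ≠ w2 := by
      rintro rfl
      exact hW.1.2 (I_of_T1 hT)
    have hsrc : C.src b = C.src w2 := (C.comp hT).symm.trans hW.1.1
    obtain ⟨g2, h1, h2⟩ := C.join hne hsrc
    obtain ⟨a, ha⟩ := h1
    obtain ⟨W1, l, hr⟩ := ih hW.2 h2
    exact ⟨a :: W1, l, Row.cons hT hW.1 h2 ha hr⟩

theorem row_unique {C : Cx V E} {W W1 W1' : List E} {g l l' : E} (h : Row C W g W1 l)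
    (h' : Row C W g W1' l') : W1 = W1' ∧ l = l' := by
  induction h generalizing W1' l' with
  | one h =>
    cases h' with
    | one h2 => exact ⟨rfl, T_uniq2 h h2⟩
  | cons h1 h2 h3 h4 h5 ih =>
    cases h' with
    | cons k1 k2 k3 k4 k5 =>
      obtain rfl := T_uniq2 h1 k1
      have hg := I_two (I_of_T1 h4) h3 (I_of_T1 k4) k3
      rcases hg with rfl | rfl
      · obtain rfl := C.uniq h4 k4
        obtain ⟨rfl, rfl⟩ := ih k5
        exact ⟨rfl, rfl⟩
      · exact absurd (I_of_T1 h1) h2.2

theorem row_first {C : Cx V E} {w g l : E} {W W1 : List E} (h : Row C (w :: W) g W1 l) :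
    C.I g w := by
  cases h with
  | one h => exact I_of_T3 h
  | cons h1 => exact I_of_T3 h1

theorem row_ne_nil {C : Cx V E} {g l : E} {W W1 : List E} (h : Row C W g W1 l) : W ≠ [] := by
  cases h <;> simp

theorem row_chain {C : Cx V E} {g l : E} {W W1 : List E} (h : Row C W g W1 l) :
    W.IsChain C.St := by
  induction h with
  | one h => exact List.isChain_singleton _
  | cons h1 h2 h3 h4 h5 ih => exact List.isChain_cons_cons.mpr ⟨h2, ih⟩

theorem row_length {C : Cx V E} {g l : E} {W W1 : List E} (h : Row C W g W1 l) :
    W.length = W1.length + 1 := by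
  induction h with
  | one h => rfl
  | cons h1 h2 h3 h4 h5 ih => simp only [List.length_cons] at ih ⊢; omega

theorem row_out_chain {C : Cx V E} {g l : E} {W W1 : List E} (h : Row C W g W1 l) :
    W1.IsChain C.St := by
  induction h with
  | one h => exact List.isChain_nil
  | cons h1 h2 h3 h4 h5 ih =>
    rw [List.isChain_cons]
    refine ⟨?_, ih⟩
    cases h5 with
    | one k1 =>
      intro y hy
      simp at hy
    | cons k1 k2 k3 k4 k5 =>
      intro y hy
      simp only [List.head?_cons, Option.mem_def, Option.some.injEq] at hy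
      subst hy
      refine ⟨?_, fun hI => ?_⟩
      · rw [(T_comp h4).2.2, ← (T_comp k1).2.1]
        exact (T_comp k4).2.1
      · rcases I_two (I_of_T3 h4) hI (I_of_T2 k1) (I_of_T2 k4) with hab | hga
        · subst hab
          have := C.uniq (T_rot2 h4) (C.rot k1)
          subst this
          exact h2.2 (I_of_T1 h1)
        · subst hga
          have := T_uniq1 k4 k1
          subst this
          exact k2.2 k3

theorem row_out_head {C : Cx V E} {w g l a : E} {W W1 : List E}
    (h : Row C (w :: W) g (a :: W1) l) :
    C.src a = C.src g ∧ a ≠ g ∧ ∃ b, C.T w b g ∧ C.I b a := by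
  cases h with
  | cons h1 h2 h3 h4 h5 =>
    refine ⟨?_, ?_, _, h1, I_of_T2 h4⟩
    · rw [← (T_comp h4).2.1, ← (T_comp h1).2.1]
    · rintro rfl
      have := C.uniq (C.rot h4) (C.rot h1)
      subst this
      exact h2.2 h3

/-- the last edge starts at the end of `W` -/
theorem row_last_src {C : Cx V E} {g l w : E} {W W1 : List E} (h : Row C (W ++ [w]) g W1 l) :
    C.tgt w = C.src l ∧ C.I w l := by
  generalize hU : W ++ [w] = U at h
  induction h generalizing W with
  | one h1 =>
    cases W with
    | nil =>
      simp only [List.nil_append, List.cons.injEq, and_true] at hU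
      subst hU
      exact ⟨C.comp h1, I_of_T1 h1⟩
    | cons x W => simp at hU
  | cons h1 h2 h3 h4 h5 ih =>
    cases W with
    | nil => simp at hU
    | cons x W =>
      simp only [List.cons_append, List.cons.injEq] at hU
      exact ih hU.2

/-- the last edge ends at the end of the upper row -/
theorem row_last_tgt {C : Cx V E} {g l a : E} {W W1 : List E} (h : Row C W g (W1 ++ [a]) l) :
    C.tgt a = C.tgt l := by
  generalize hU : W1 ++ [a] = U at h
  induction h generalizing W1 with
  | one h1 => simp at hU
  | cons h1 h2 h3 h4 h5 ih =>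
    cases W1 with
    | nil =>
      simp only [List.nil_append, List.cons.injEq] at hU
      obtain ⟨rfl, hU⟩ := hU
      subst hU
      cases h5 with
      | one k1 => rw [(T_comp h4).2.2, (T_comp k1).2.1]
    | cons x W1 =>
      simp only [List.cons_append, List.cons.injEq] at hU
      exact ih hU.2

/-- for a strip of length one the last edge ends where `g` starts -/
theorem row_single {C : Cx V E} {g l : E} {W : List E} (h : Row C W g [] l) :
    ∃ w, W = [w] ∧ C.T w l g := by
  cases h with
  | one h => exact ⟨_, rfl, h⟩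

end Pool.A2L
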