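import Pool.Agent.A2L.Row1

/-! Module Row2: reversing a strip, and compatibility of two consecutive strips.

* `row_snoc`: induction on the derivation.
* `row_rev`: induction on the derivation. `Row.one`: `C.op.T w g b` is `C.T b g w`, a rotation of
  `C.T w b g`. `Row.cons`: by induction `Row C.op (w2 :: W).reverse l W1.reverse g2`; extend it by
  `row_snoc` (for `C.op`) with `w' := w`, `g' := b`, `a' := a`, `l' := g`: `C.op.St w2 w` is
  `C.St w w2`; `C.op.T b g2 a` is `C.T a g2 b`; `C.op.T w g b` is `C.T b g w`. The last letter of
  `(w2 :: W).reverse` is `w2`.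
* `row_compat`: induction on the derivation of the first strip, the second strip is inverted.
  Let `T w b g`, `I g2 w2`, `T g2 b a`, and in the second strip (whose first letter is `a`)
  `T a b' z` (so `I z a`), with `St z g`.
  Claim A: `b' ≠ g2`: otherwise `T a g2 z` and `T a g2 b` give `z = b`, and `I b g`, contradiction
  to `St z g`.
  Case first strip of length 2 (`W = [w, w2]`, `l = b2` with `T w2 b2 g2`, `W1 = [a]`, `l' = b'`):
  show `St b2 b'`: `tgt b2 = src g2 = tgt a = src b'`; if `I b2 b'`: `I b2 g2`, `I a g2`, `I a b'`:
  `I_two` gives `b2 = a` or `g2 = b'` (excluded by Claim A); if `b2 = a` then `T a g2 b` and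
  `T b2 g2 w2` give `b = w2`, but `I w b` and `St w w2`: contradiction.
  Case longer: the second strip continues with `a2`, `z2`, where `I z2 b'`, `I z2 a2`,
  `T z2 b' _`, and the rest of the first strip is `Row C (w2 :: ..) g2 (a2 :: ..) l`. To apply the
  induction hypothesis one needs `St z2 g2`: `tgt z2 = src b' = tgt a = src g2`; if `I z2 g2`: lines
  `z2`, `a` contain `b'` and `g2` (`I a b'`, `I a g2`), `b' ≠ g2` so `z2 = a`, hence `I a a2`,
  contradiction with `St a a2` (from `Row.cons` of the second strip). -/

set_option autoImplicit false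

open Finset
open scoped Classical

noncomputable section

namespace Pool.A2L

variable {V E : Type} [Fintype V] [Fintype E]

theorem row_snoc {C : Cx V E} {g l w' g' a' l' : E} {W W1 : List E} (h : Row C W g W1 l)
    (hs : ∀ z ∈ W.getLast?, C.St z w') (h0 : C.I g' w') (h1 : C.T g' l a') (h2 : C.T w' l' g') :
    Row C (W ++ [w']) g (W1 ++ [a']) l' := by
  induction h with
  | one h =>
    exact Row.cons h (hs _ (by simp)) h0 h1 (Row.one h2)
  | cons hT hSt hI hT2 hR ih =>
    refine Row.cons hT hSt hI hT2 (ih ?_ h1)
    intro z hz
    refine hs z ?_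
    rw [List.getLast?_cons_cons]
    exact hz

theorem row_rev {C : Cx V E} {g l : E} {W W1 : List E} (h : Row C W g W1 l) :
    Row C.op W.reverse l W1.reverse g := by
  induction h with
  | one h => exact Row.one (T_op.mpr (C.rot h))
  | @cons w w2 b g g2 a l W W1 hT hSt hI hT2 hR ih =>
    have e1 : (w :: w2 :: W).reverse = (w2 :: W).reverse ++ [w] := List.reverse_cons
    have e2 : (a :: W1).reverse = W1.reverse ++ [a] := List.reverse_cons
    rw [e1, e2]
    refine row_snoc ih ?_ (I_op.mpr (I_of_T1 hT)) (T_op.mpr (T_rot2 hT2)) (T_op.mpr (C.rot hT))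
    intro z hz
    rw [List.getLast?_reverse] at hz
    simp only [List.head?_cons, Option.mem_def, Option.some.injEq] at hz
    subst hz
    exact St_op.mpr hSt

theorem row_compat {C : Cx V E} {g l z l' : E} {W W1 W2 : List E} (h : Row C W g W1 l)
    (h' : Row C W1 z W2 l') (hz : C.St z g) : C.St l l' := by
  induction h generalizing z W2 l' with
  | one h => exact absurd rfl (row_ne_nil h')
  | @cons w w2 b g g2 a l W W1 hT hSt hI hT2 hR ih =>
    have hagb : C.T a g2 b := T_rot2 hT2
    cases h' with
    | one hT' =>
      have hA : l' ≠ g2 := by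
        intro he
        subst he
        have := C.uniq hT' hagb
        subst this
        exact hz.2 (I_of_T2 hT)
      obtain ⟨w2', hw, hTl⟩ := row_single hR
      have hw2 : w2 = w2' := by
        have := congrArg List.head? hw
        simpa using this
      subst hw2
      refine ⟨?_, ?_⟩
      · have h1 := (T_comp hTl).2.1
        have h2 := (T_comp hagb).1
        have h3 := (T_comp hT').1
        rw [h1, ← h2, h3]
      · intro hll
        rcases I_two (I_of_T2 hTl) hll (I_of_T1 hagb) (I_of_T1 hT') with h | h
        · subst h
          have h4 := C.uniq (C.rot hTl) hagb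
          subst h4
          exact hSt.2 (I_of_T1 hT)
        · exact hA h.symm
    | @cons _ a2 b' _ z2 a1 _ W' W2' hT' hSt' hI' hT2' hR' =>
      have hA : b' ≠ g2 := by
        intro he
        subst he
        have := C.uniq hT' hagb
        subst this
        exact hz.2 (I_of_T2 hT)
      refine ih hR' ⟨?_, ?_⟩
      · have h1 := (T_comp hT2').1
        have h2 := (T_comp hagb).1
        have h3 := (T_comp hT').1
        rw [h1, ← h2, h3]
      · intro hzg
        rcases I_two (I_of_T1 hT2') hzg (I_of_T1 hT') (I_of_T1 hagb) with h | h
        · subst h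
          exact hSt'.2 hI'
        · exact hA h

end Pool.A2L
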