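import Pool.Agent.A2L.TriB
import Pool.Agent.A2L.Pair0
import Pool.Agent.A2L.Pair1

/-! Module SMa: the second moment as a sum over pairs of words, and its recursion.

* `card_inc'`: by `tri_reflA` (for `C` and `C.op`), `(∃ D, Tri C W D Z) ↔ (∃ D, Tri C.op Z D W)`,
  so the set is `C.op.inc (n+1) Z` (note `C.op.op = C`), use `card_inc C.op`.
* `Qf_pair`: expand the square, `(∑ W, f W)^2 = ∑ W, ∑ W', f W * f W'`, exchange sums; a word `W`
  with `Tri C W D Z` starts at `tgt` of the first letter of `Z` (`tri_endA`); for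
  `W, W' ∈ wfrom (n+1) v` the number of `Z ∈ C.op.words (n+1)` with `∃ D, Tri C W D Z`,
  `∃ D, Tri C W' D Z` is the cardinality of the intersection of the two `inc` sets (such `Z`
  automatically satisfy `tgt Z.head = v`).
* `Qf_succ`: from `Qf_pair`, `sum_wfrom_succ` twice, splitting the pairs of first letters
  `u, u'`: for `u ≠ u'` the cardinality is `1` (`pair_distinct`) and the double sum factorises;
  for `u = u'` it is `q` times the cardinality for the tails (`pair_cons`), and the sum over the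
  tails in `C.aft (n+1) u` is `Qf C (n+1) (tgt u)` of the function extended by zero (`Qf_pair`
  again; `aft (n+1) u ⊆ wfrom (n+1) (tgt u)`). -/

set_option autoImplicit false

open Finset
open scoped Classical

noncomputable section

namespace Pool.A2L

variable {V E : Type} [Fintype V] [Fintype E]

private theorem SMa_iff (C : Cx V E) {W Z : List E} :
    (∃ D, Tri C W D Z) ↔ (∃ D, Tri C.op Z D W) := by
  constructor
  · rintro ⟨D, h⟩
    exact ⟨D.reverse, tri_reflA h⟩
  · rintro ⟨D, h⟩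
    exact ⟨D.reverse, tri_reflA h⟩

theorem card_inc' (C : Cx V E) {n : ℕ} {Z : List E} (hZ : Z ∈ C.op.words (n + 1)) :
    ((C.words (n + 1)).filter (fun W => ∃ D, Tri C W D Z)).card = (C.q + 1) * C.q ^ n := by
  have h := card_inc C.op hZ
  have h2 : (C.words (n + 1)).filter (fun W => ∃ D, Tri C W D Z) = C.op.inc (n + 1) Z := by
    ext W
    unfold Cx.inc
    rw [mem_filter, mem_filter, SMa_iff C]
    exact Iff.rfl
  rw [h2]
  exact h

/-- a side `Z` of a triangle over a nonempty word starts at the source of the word -/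
private theorem SMa_head (C : Cx V E) {n : ℕ} {W Z : List E} (hW : W ∈ C.words (n + 1))
    (h : ∃ D, Tri C W D Z) : ∀ v : V, (∀ z ∈ Z.head?, C.tgt z = v) ↔ (∀ f ∈ W.head?, C.src f = v) := by
  intro v
  obtain ⟨D, h⟩ := h
  have h1 := (tri_length h).2
  rw [mem_words] at hW
  obtain ⟨h2, _⟩ := hW
  cases W with
  | nil => simp at h2
  | cons w W =>
    cases Z with
    | nil => simp at h1
    | cons z Z =>
      have h3 := I_comp (tri_endA h)
      simp only [List.head?_cons, Option.mem_def, Option.some.injEq, forall_eq']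
      rw [h3]

private theorem SMa_mem_inc (C : Cx V E) {n : ℕ} {v : V} {W Z : List E}
    (hW : W ∈ C.wfrom (n + 1) v) :
    Z ∈ C.inc (n + 1) W ↔ Z ∈ (C.op.words (n + 1)).filter (fun Z => ∀ z ∈ Z.head?, C.tgt z = v) ∧
      (∃ D, Tri C W D Z) := by
  unfold Cx.wfrom at hW
  rw [mem_filter] at hW
  unfold Cx.inc
  rw [mem_filter, mem_filter]
  constructor
  · rintro ⟨h1, h2⟩
    exact ⟨⟨h1, (SMa_head C hW.1 h2 v).2 hW.2⟩, h2⟩
  · rintro ⟨⟨h1, _⟩, h2⟩
    exact ⟨h1, h2⟩

theorem Qf_pair (C : Cx V E) (n : ℕ) (v : V) (f : List E → ℝ) :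
    Qf C (n + 1) v f = ∑ W ∈ C.wfrom (n + 1) v, ∑ W' ∈ C.wfrom (n + 1) v,
      f W * f W' * ((C.inc (n + 1) W ∩ C.inc (n + 1) W').card : ℝ) := by
  unfold Qf
  have h1 : ∀ Z ∈ (C.op.words (n + 1)).filter (fun Z => ∀ z ∈ Z.head?, C.tgt z = v),
      (∑ W ∈ (C.words (n + 1)).filter (fun W => ∃ D, Tri C W D Z), f W) ^ 2 =
      ∑ W ∈ C.wfrom (n + 1) v, ∑ W' ∈ C.wfrom (n + 1) v,
        (if ∃ D, Tri C W D Z then f W else 0) * (if ∃ D, Tri C W' D Z then f W' else 0) := by
    intro Z hZ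
    rw [mem_filter] at hZ
    have h2 : ∑ W ∈ (C.words (n + 1)).filter (fun W => ∃ D, Tri C W D Z), f W =
        ∑ W ∈ C.wfrom (n + 1) v, (if ∃ D, Tri C W D Z then f W else 0) := by
      rw [← Finset.sum_filter]
      apply Finset.sum_congr
      · ext W
        unfold Cx.wfrom
        rw [mem_filter, mem_filter, mem_filter]
        constructor
        · rintro ⟨h3, h4⟩
          exact ⟨⟨h3, (SMa_head C h3 h4 v).1 hZ.2⟩, h4⟩
        · rintro ⟨⟨h3, _⟩, h4⟩
          exact ⟨h3, h4⟩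
      · intro _ _
        rfl
    rw [h2, pow_two, Finset.sum_mul_sum]
  rw [Finset.sum_congr rfl h1, Finset.sum_comm]
  apply Finset.sum_congr rfl
  intro W hW
  rw [Finset.sum_comm]
  apply Finset.sum_congr rfl
  intro W' hW'
  have h5 : C.inc (n + 1) W ∩ C.inc (n + 1) W' =
      ((C.op.words (n + 1)).filter (fun Z => ∀ z ∈ Z.head?, C.tgt z = v)).filter
        (fun Z => (∃ D, Tri C W D Z) ∧ (∃ D, Tri C W' D Z)) := by
    ext Z
    rw [mem_inter, SMa_mem_inc C hW, SMa_mem_inc C hW']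
    constructor
    · rintro ⟨⟨h6, h7⟩, ⟨_, h8⟩⟩
      exact Finset.mem_filter.2 ⟨h6, h7, h8⟩
    · intro h
      obtain ⟨h6, h7, h8⟩ := Finset.mem_filter.1 h
      exact ⟨⟨h6, h7⟩, ⟨h6, h8⟩⟩
  rw [h5, Finset.card_filter, Nat.cast_sum, Finset.mul_sum]
  apply Finset.sum_congr rfl
  intro Z _
  by_cases h6 : ∃ D, Tri C W D Z
  · by_cases h7 : ∃ D, Tri C W' D Z
    · rw [if_pos h6, if_pos h7, if_pos ⟨h6, h7⟩]
      push_cast
      ring
    · rw [if_pos h6, if_neg h7, if_neg (fun h => h7 h.2)]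
      push_cast
      ring
  · rw [if_neg h6]
    have h9 : ¬ ((∃ D, Tri C W D Z) ∧ (∃ D, Tri C W' D Z)) := fun h => h6 h.1
    rw [if_neg h9]
    push_cast
    ring

private theorem SMa_aft_wfrom (C : Cx V E) (n : ℕ) (u : E) :
    C.aft (n + 1) u ⊆ C.wfrom (n + 1) (C.tgt u) := by
  intro W hW
  unfold Cx.aft at hW
  unfold Cx.wfrom
  rw [mem_filter] at hW ⊢
  exact ⟨hW.1, fun f hf => (hW.2 f hf).1.symm⟩

private theorem SMa_ext (C : Cx V E) (n : ℕ) (u : E) (F : List E → ℝ) :
    ∑ W ∈ C.wfrom (n + 1) (C.tgt u), (if W ∈ C.aft (n + 1) u then F W else 0) =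
      ∑ W ∈ C.aft (n + 1) u, F W := by
  rw [← Finset.sum_filter]
  apply Finset.sum_congr
  · ext W
    rw [mem_filter]
    exact ⟨fun h => h.2, fun h => ⟨SMa_aft_wfrom C n u h, h⟩⟩
  · intro _ _
    rfl

theorem Qf_succ (C : Cx V E) (n : ℕ) (v : V) (f : List E → ℝ) :
    Qf C (n + 2) v f =
      (∑ u ∈ univ.filter (fun u => C.src u = v), ∑ u' ∈ univ.filter (fun u => C.src u = v),
        if u = u' then 0 else (∑ W ∈ C.aft (n + 1) u, f (u :: W)) *
          (∑ W ∈ C.aft (n + 1) u', f (u' :: W))) +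
      (C.q : ℝ) * ∑ u ∈ univ.filter (fun u => C.src u = v),
        Qf C (n + 1) (C.tgt u) (fun W => if W ∈ C.aft (n + 1) u then f (u :: W) else 0) := by
  have hQ : ∀ u : E, Qf C (n + 1) (C.tgt u)
      (fun W => if W ∈ C.aft (n + 1) u then f (u :: W) else 0) =
      ∑ W ∈ C.aft (n + 1) u, ∑ W' ∈ C.aft (n + 1) u,
        f (u :: W) * f (u :: W') * ((C.inc (n + 1) W ∩ C.inc (n + 1) W').card : ℝ) := by
    intro u
    rw [Qf_pair, ← SMa_ext C n u]
    apply Finset.sum_congr rfl
    intro W _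
    by_cases hW : W ∈ C.aft (n + 1) u
    · simp only [if_pos hW]
      rw [← SMa_ext C n u]
      apply Finset.sum_congr rfl
      intro W' _
      by_cases hW' : W' ∈ C.aft (n + 1) u
      · simp only [if_pos hW']
      · simp only [if_neg hW', mul_zero, zero_mul]
    · simp only [if_neg hW, zero_mul, Finset.sum_const_zero]
  rw [Qf_pair C (n + 1) v f, sum_wfrom_succ C (n + 1) v]
  have hterm : ∀ u ∈ univ.filter (fun u => C.src u = v),
      ∑ W ∈ C.aft (n + 1) u, ∑ W' ∈ C.wfrom (n + 1 + 1) v,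
        f (u :: W) * f W' * ((C.inc (n + 1 + 1) (u :: W) ∩ C.inc (n + 1 + 1) W').card : ℝ) =
      ∑ u' ∈ univ.filter (fun u => C.src u = v),
        ((if u = u' then 0 else (∑ W ∈ C.aft (n + 1) u, f (u :: W)) *
          (∑ W ∈ C.aft (n + 1) u', f (u' :: W))) +
        (if u = u' then (C.q : ℝ) * Qf C (n + 1) (C.tgt u)
          (fun W => if W ∈ C.aft (n + 1) u then f (u :: W) else 0) else 0)) := by
    intro u hu
    have hu1 : C.src u = v := (mem_filter.1 hu).2
    have h1 : ∑ W ∈ C.aft (n + 1) u, ∑ W' ∈ C.wfrom (n + 1 + 1) v,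
        f (u :: W) * f W' * ((C.inc (n + 1 + 1) (u :: W) ∩ C.inc (n + 1 + 1) W').card : ℝ) =
        ∑ W ∈ C.aft (n + 1) u, ∑ u' ∈ univ.filter (fun u => C.src u = v),
          ∑ W' ∈ C.aft (n + 1) u', f (u :: W) * f (u' :: W') *
            ((C.inc (n + 1 + 1) (u :: W) ∩ C.inc (n + 1 + 1) (u' :: W')).card : ℝ) := by
      apply Finset.sum_congr rfl
      intro W _
      rw [sum_wfrom_succ C (n + 1) v]
    rw [h1, Finset.sum_comm]
    apply Finset.sum_congr rfl
    intro u' hu'
    have hu2 : C.src u' = v := (mem_filter.1 hu').2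
    by_cases huu : u = u'
    · subst huu
      rw [if_pos rfl, if_pos rfl, zero_add, hQ u, Finset.mul_sum]
      apply Finset.sum_congr rfl
      intro W hW
      rw [Finset.mul_sum]
      apply Finset.sum_congr rfl
      intro W' hW'
      have hc := pair_cons C (n := n) (u := u) (W := W) (W' := W') (mem_aft.1 hW) (mem_aft.1 hW')
      have hc' : ((C.inc (n + 1 + 1) (u :: W) ∩ C.inc (n + 1 + 1) (u :: W')).card : ℝ) =
          (C.q : ℝ) * ((C.inc (n + 1) W ∩ C.inc (n + 1) W').card : ℝ) := by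
        exact_mod_cast hc
      rw [hc']
      ring
    · rw [if_neg huu, if_neg huu, add_zero, Finset.sum_mul_sum]
      apply Finset.sum_congr rfl
      intro W hW
      apply Finset.sum_congr rfl
      intro W' hW'
      have hc := pair_distinct C (n := n + 1) (w := u) (w' := u') (W := W) (W' := W')
        (mem_aft.1 hW) (mem_aft.1 hW') huu (hu1.trans hu2.symm)
      rw [hc]
      push_cast
      ring
  rw [Finset.sum_congr rfl hterm]
  have h2 : ∀ u ∈ univ.filter (fun u => C.src u = v),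
      ∑ u' ∈ univ.filter (fun u => C.src u = v),
        ((if u = u' then 0 else (∑ W ∈ C.aft (n + 1) u, f (u :: W)) *
          (∑ W ∈ C.aft (n + 1) u', f (u' :: W))) +
        (if u = u' then (C.q : ℝ) * Qf C (n + 1) (C.tgt u)
          (fun W => if W ∈ C.aft (n + 1) u then f (u :: W) else 0) else 0)) =
      (∑ u' ∈ univ.filter (fun u => C.src u = v),
        (if u = u' then 0 else (∑ W ∈ C.aft (n + 1) u, f (u :: W)) *
          (∑ W ∈ C.aft (n + 1) u', f (u' :: W)))) +
      (C.q : ℝ) * Qf C (n + 1) (C.tgt u)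
          (fun W => if W ∈ C.aft (n + 1) u then f (u :: W) else 0) := by
    intro u hu
    rw [Finset.sum_add_distrib]
    congr 1
    rw [Finset.sum_ite_eq, if_pos hu]
  rw [Finset.sum_congr rfl h2, Finset.sum_add_distrib, Finset.mul_sum]

end Pool.A2L
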