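import Pool.Agent.A2L.TriB
import Pool.Agent.A2L.Nae
import Pool.Agent.A2L.SMa

set_option autoImplicit false

open Finset
open scoped Classical

noncomputable section

namespace Pool.A2L

variable {V E : Type} [Fintype V] [Fintype E] {X : Type} [LinearOrder X]

/-- indicator of the triangles -/
private def TF (C : Cx V E) (W D Z : List E) : ℝ := if Tri C W D Z.reverse then 1 else 0

private theorem TF_rot (C : Cx V E) (W D Z : List E) : TF C D Z W = TF C W D Z := by
  have key : ∀ W D Z : List E, Tri C W D Z.reverse → Tri C D Z W.reverse := by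
    intro W D Z h
    have := tri_rot h
    rwa [List.reverse_reverse] at this
  unfold TF
  have : Tri C D Z W.reverse ↔ Tri C W D Z.reverse :=
    ⟨fun h => key _ _ _ (key _ _ _ h), key _ _ _⟩
  simp only [this]

private def TS (C : Cx V E) (n : ℕ) (G : List E → List E → List E → ℝ) : ℝ :=
  ∑ W ∈ C.words n, ∑ D ∈ C.words n, ∑ Z ∈ C.words n, TF C W D Z * G W D Z

private theorem TS_rot (C : Cx V E) (n : ℕ) (G : List E → List E → List E → ℝ) :
    TS C n (fun W D Z => G D Z W) = TS C n G := by
  unfold TS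
  have h1 : ∑ W ∈ C.words n, ∑ D ∈ C.words n, ∑ Z ∈ C.words n, TF C W D Z * G D Z W =
      ∑ W ∈ C.words n, ∑ D ∈ C.words n, ∑ Z ∈ C.words n, TF C D Z W * G D Z W := by
    refine Finset.sum_congr rfl fun W _ => Finset.sum_congr rfl fun D _ =>
      Finset.sum_congr rfl fun Z _ => ?_
    rw [TF_rot C W D Z]
  rw [h1, Finset.sum_comm]
  refine Finset.sum_congr rfl fun D _ => ?_
  rw [Finset.sum_comm]

private theorem sum_D (C : Cx V E) (n : ℕ) (W Z : List E) (hW : W ∈ C.words n) (c : ℝ) :
    ∑ D ∈ C.words n, TF C W D Z * c = if ∃ D, Tri C W D Z.reverse then c else 0 := by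
  split_ifs with h
  · obtain ⟨D, hD⟩ := h
    have hDw : D ∈ C.words n := by
      have := (tri_words hD).2.1
      rwa [(mem_words.mp hW).1] at this
    rw [Finset.sum_eq_single_of_mem D hDw]
    · unfold TF; rw [if_pos hD, one_mul]
    · intro D' _ hne
      unfold TF
      rw [if_neg (fun h => hne (tri_uniq h hD)), zero_mul]
  · refine Finset.sum_eq_zero fun D _ => ?_
    unfold TF
    rw [if_neg (fun h' => h ⟨D, h'⟩), zero_mul]

private theorem sum_rev (C : Cx V E) (n : ℕ) (F : List E → ℝ) :
    ∑ Z ∈ C.op.words n, F Z = ∑ Z ∈ C.words n, F Z.reverse := by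
  refine Finset.sum_bij' (fun Z _ => Z.reverse) (fun Z _ => Z.reverse) ?_ ?_ ?_ ?_ ?_
  · intro Z hZ; exact mem_words_op.mp hZ
  · intro Z hZ; exact mem_words_op.mpr (by rwa [List.reverse_reverse])
  · intro Z _; exact List.reverse_reverse Z
  · intro Z _; exact List.reverse_reverse Z
  · intro Z _; rw [List.reverse_reverse]

private theorem TS_13 (C : Cx V E) (n : ℕ) (g : List E → List E → ℝ) :
    TS C n (fun W _ Z => g W Z) = ∑ W ∈ C.words n, ∑ Z ∈ C.words n,
      if ∃ D, Tri C W D Z.reverse then g W Z else 0 := by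
  unfold TS
  refine Finset.sum_congr rfl fun W hW => ?_
  rw [Finset.sum_comm]
  refine Finset.sum_congr rfl fun Z _ => ?_
  exact sum_D C n W Z hW (g W Z)

private theorem Th_eq (C : Cx V E) (a : E → X ≃o X) (x : V → X) (n : ℕ) :
    Th C a x n = TS C n (fun W _ Z => sigma C a x W * sigma C a x Z) := by
  rw [TS_13 C n (fun W Z => sigma C a x W * sigma C a x Z)]
  unfold Th
  rw [sum_rev, Finset.sum_comm]
  have h1 : ∀ Z ∈ C.words n, ∑ W ∈ (C.words n).filter (fun W => ∃ D, Tri C W D Z.reverse),
      sigma C a x W * sigma C a x Z.reverse.reverse =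
      ∑ W ∈ C.words n, if ∃ D, Tri C W D Z.reverse then sigma C a x W * sigma C a x Z else 0 := by
    intro Z _
    rw [Finset.sum_filter, List.reverse_reverse]
  rw [← Finset.sum_congr rfl h1]

private theorem TS_W (C : Cx V E) (n : ℕ) (g : List E → ℝ) :
    TS C (n + 1) (fun W _ _ => g W) =
      ((C.q : ℝ) + 1) * (C.q : ℝ) ^ n * ∑ W ∈ C.words (n + 1), g W := by
  rw [TS_13 C (n + 1) (fun W _ => g W), Finset.mul_sum]
  refine Finset.sum_congr rfl fun W hW => ?_
  rw [← Finset.sum_filter, Finset.sum_const, nsmul_eq_mul]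
  have h1 : ((C.words (n + 1)).filter (fun Z => ∃ D, Tri C W D Z.reverse)).card =
      (C.inc (n + 1) W).card := by
    refine Finset.card_bij' (fun Z _ => Z.reverse) (fun Z _ => Z.reverse) ?_ ?_ ?_ ?_
    · intro Z hZ
      rw [mem_filter] at hZ
      unfold Cx.inc
      rw [mem_filter]
      exact ⟨mem_words_op.mpr (by rw [List.reverse_reverse]; exact hZ.1), hZ.2⟩
    · intro Z hZ
      unfold Cx.inc at hZ
      rw [mem_filter] at hZ
      rw [mem_filter, List.reverse_reverse]
      exact ⟨mem_words_op.mp hZ.1, hZ.2⟩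
    · intro Z _; exact List.reverse_reverse Z
    · intro Z _; exact List.reverse_reverse Z
  rw [h1, card_inc C hW]
  push_cast
  ring

theorem theta_upper (C : Cx V E) {a : E → X ≃o X} (ha : Lab C a) (x : V → X) (n : ℕ) :
    3 * Th C a x (n + 1) ≤
      -((Fintype.card V : ℝ) * ((C.q : ℝ) ^ 2 + C.q + 1) * ((C.q : ℝ) + 1) * (C.q : ℝ) ^ (3 * n)) +
      ((C.q : ℝ) + 1) * (C.q : ℝ) ^ n *
        (((C.words (n + 1)).filter (fun W => sigma C a x W = 0)).card : ℝ) := by
  have e1 : Th C a x (n + 1) =
      TS C (n + 1) (fun W _ Z => sigma C a x Z * sigma C a x W) := by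
    rw [Th_eq]
    congr 1
    funext W D Z
    ring
  have e3 : Th C a x (n + 1) =
      TS C (n + 1) (fun _ D Z => sigma C a x D * sigma C a x Z) := by
    rw [e1]
    exact TS_rot C (n + 1) (fun _ y z => sigma C a x y * sigma C a x z)
  have e2 : Th C a x (n + 1) =
      TS C (n + 1) (fun W D _ => sigma C a x W * sigma C a x D) := by
    rw [e3]
    exact TS_rot C (n + 1) (fun y z _ => sigma C a x y * sigma C a x z)
  have h1 : TS C (n + 1) (fun W D Z => sigma C a x W * sigma C a x D +
      sigma C a x D * sigma C a x Z + sigma C a x Z * sigma C a x W) ≤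
      TS C (n + 1) (fun W _ _ => -1 + (if sigma C a x W = 0 then 1 else 0)) := by
    unfold TS
    refine Finset.sum_le_sum fun W hW => Finset.sum_le_sum fun D _ =>
      Finset.sum_le_sum fun Z _ => ?_
    unfold TF
    by_cases h : Tri C W D Z.reverse
    · have := tri_nae (x := x) ha h (by
        rintro rfl
        have := (mem_words.mp hW).1
        simp at this)
      rw [List.reverse_reverse] at this
      rw [if_pos h, one_mul, one_mul]
      exact this
    · rw [if_neg h, zero_mul, zero_mul]
  have h2 : TS C (n + 1) (fun W D Z => sigma C a x W * sigma C a x D +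
      sigma C a x D * sigma C a x Z + sigma C a x Z * sigma C a x W) =
      TS C (n + 1) (fun W D _ => sigma C a x W * sigma C a x D) +
      TS C (n + 1) (fun _ D Z => sigma C a x D * sigma C a x Z) +
      TS C (n + 1) (fun W _ Z => sigma C a x Z * sigma C a x W) := by
    unfold TS
    simp only [mul_add, Finset.sum_add_distrib]
  rw [h2, ← e1, ← e2, ← e3, TS_W, Finset.sum_add_distrib, Finset.sum_const, card_words,
    ← Finset.sum_filter, Finset.sum_const, nsmul_eq_mul, nsmul_eq_mul] at h1
  push_cast at h1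
  have h3 : (C.q : ℝ) ^ (3 * n) = (C.q : ℝ) ^ n * (C.q : ℝ) ^ (2 * n) := by
    rw [← pow_add]; congr 1; ring
  rw [h3]
  linarith

end Pool.A2L
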