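import Pool.Agent.A2L.Basic

/-! Module Trap: the trap lemma (finite combinatorics of projective planes).

`ρ e = (a e).symm (R e)` (value of the incoming edge = line `e` at the vertex `tgt e`), `R f` value
of the outgoing edge = point `f` at `src f`. Hypothesis: `ρ e ≤ R f` whenever `St e f` (line `e`
does not contain the point `f`). For incident pairs `I e f` call it plus if `ρ e < R f`, minus if
`R f < ρ e`.
(1) For `T e f g`: if `ρ e ≤ R f`, `ρ f ≤ R g`, `ρ g ≤ R e` then all three are equalities:
`R e ≥ a_g⁻¹ R g ≥ a_g⁻¹ a_f⁻¹ R f ≥ a_g⁻¹ a_f⁻¹ a_e⁻¹ R e = R e` (`Lab`). Same with `≥`.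
So a triangle with a plus pair `(e,f)` has a minus pair among `(f,g)`, `(g,e)`; hence
`#plus ≤ 2 #minus` (injections `(e,f) ↦ (f,g)` and `(e,f) ↦ (g,e)` on incident pairs).
(2) Fix a vertex `v`; lines = edges `e` with `tgt e = v`, points = edges `f` with `src f = v`
(`q^2+q+1` each). Let `e*` be a line with maximal `ρ`, `f*` a point with minimal `R`. If
`ρ e* ≤ R f*`, there are no minus pairs at `v`. Otherwise `I e* f*`. Claim: then
`#plus(v) ≥ q^2 (q+1)` and `#minus(v) ≤ 2q+1`.
 (2a) if `ρ e < ρ e*` for all lines `e ≠ e*`: for a point `f` not on `e*`, `R f ≥ ρ e* > ρ e` for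
 all lines `e` through `f`: plus pairs `≥ q^2 (q+1)`. A minus pair `(e,f)` has `e = e*` or
 `f = f*`: suppose `e ≠ e*`, `f ≠ f*`; if `f*` not on `e` then `ρ e ≤ R f* ≤ R f`; if `f*` on `e` then
 `f` is not on `e*` (`I_two`), so `R f ≥ ρ e* ≥ ρ e`. So `#minus(v) ≤ (q+1) + (q+1) - 1`
 (the pair `(e*, f*)` counted twice).
 (2b) if another line `e' ≠ e*` has `ρ e' = ρ e*`: then `R f* < ρ e'` gives `I e' f*`. Every point
 `f ≠ f*` is off `e*` or off `e'` so `R f ≥ ρ e*`. Minus pairs have `f = f*`: at most `q+1`. For a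
 line `e` not through `f*` (`q^2` of them): `ρ e ≤ R f* < ρ e* ≤ R f` for all points `f` on `e`:
 plus pairs `≥ q^2 (q+1)`.
(3) If some vertex is bad (there is `ρ e* > R f*`), summing over the vertices:
`#plus ≥ B q^2 (q+1)`, `#minus ≤ B (2q+1)`, `B ≥ 1` = number of bad vertices; with (1):
`q^2 (q+1) ≤ 2 (2q+1)`, false for `q ≥ 2` (`q = 2`: `12 ≤ 10`).
(4) So `ρ e ≤ R f` whenever `tgt e = src f`; by (1) `ρ e = R f` for incident pairs. At a vertex, any
two points `f ≠ f'` lie on a common line `e`, so `R f = ρ e = R f'`; for a line `e` and a point `f`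
not on it, take a point `f'` on `e`: `ρ e = R f' = R f`. -/

set_option autoImplicit false

open Finset
open scoped Classical

noncomputable section

namespace Pool.A2L

variable {V E : Type} [Fintype V] [Fintype E]

private theorem trap_out (C : Cx V E) (e : E) :
    ((univ : Finset E).filter (fun f => C.I e f)).card = C.q + 1 := by
  rw [← C.card_out e]
  congr 1
  ext f
  simp only [mem_filter, mem_univ, true_and]
  exact Iff.rfl

private theorem trap_in (C : Cx V E) (f : E) :
    ((univ : Finset E).filter (fun e => C.I e f)).card = C.q + 1 := by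
  rw [← C.card_in f]
  congr 1
  ext e
  simp only [mem_filter, mem_univ, true_and]
  exact Iff.rfl

/-- the third letter of a triangle -/
private def trapNxt (C : Cx V E) (p : E × E) : E × E :=
  (p.2, if h : ∃ g, C.T p.1 p.2 g then h.choose else p.1)

private theorem trapNxt_eq {C : Cx V E} {e f g : E} (h : C.T e f g) :
    trapNxt C (e, f) = (f, g) := by
  have h1 : ∃ g, C.T e f g := ⟨g, h⟩
  unfold trapNxt
  simp only [h1, dif_pos]
  rw [C.uniq h1.choose_spec h]

private theorem trap_key {Λ : Type} [LinearOrder Λ] (C : Cx V E) (a : E → Λ ≃o Λ)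
    (ha : Lab C a) (R ρ : E → Λ) (haρ : ∀ e, a e (ρ e) = R e) {e f g : E} (h : C.T e f g)
    (h1 : ρ e ≤ R f) (h2 : ρ f ≤ R g) (h3 : ρ g ≤ R e) :
    ρ e = R f := by
  have hL := ha e f g h (R e)
  have c1 : R e ≤ a e (R f) := by
    calc R e = a e (ρ e) := (haρ e).symm
      _ ≤ a e (R f) := (a e).monotone h1
  have c2 : a e (R f) ≤ a e (a f (R g)) := by
    apply (a e).monotone
    calc R f = a f (ρ f) := (haρ f).symm
      _ ≤ a f (R g) := (a f).monotone h2
  have c3 : a e (a f (R g)) ≤ R e := by
    calc a e (a f (R g)) = a e (a f (a g (ρ g))) := by rw [haρ g]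
      _ ≤ a e (a f (a g (R e))) := (a e).monotone ((a f).monotone ((a g).monotone h3))
      _ = R e := hL
  have e1 : a e (R f) = R e := le_antisymm (c2.trans c3) c1
  apply (a e).injective
  rw [haρ, e1]

private theorem trap_vertex {Λ : Type} [LinearOrder Λ] (C : Cx V E) (R ρ : E → Λ)
    (hR : ∀ e f, C.St e f → ρ e ≤ R f) (v : V)
    (hbad : ∃ e f, C.tgt e = v ∧ C.src f = v ∧ R f < ρ e) :
    C.q ^ 2 * (C.q + 1) ≤
      ((univ : Finset (E × E)).filter
        (fun p => C.tgt p.1 = v ∧ C.I p.1 p.2 ∧ ρ p.1 < R p.2)).card ∧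
    ((univ : Finset (E × E)).filter
        (fun p => C.tgt p.1 = v ∧ C.I p.1 p.2 ∧ R p.2 < ρ p.1)).card ≤ 2 * C.q + 1 := by
  have hout : ∀ e, ((univ : Finset E).filter (fun f => C.I e f)).card = C.q + 1 :=
    trap_out C
  have hin : ∀ f, ((univ : Finset E).filter (fun e => C.I e f)).card = C.q + 1 :=
    trap_in C
  obtain ⟨e0, f0, he0, hf0, hlt⟩ := hbad
  obtain ⟨es, hes, hmax⟩ := Finset.exists_max_image ((univ : Finset E).filter (fun e => C.tgt e = v)) ρ
    ⟨e0, by simp [he0]⟩
  obtain ⟨fs, hfs, hmin⟩ := Finset.exists_min_image ((univ : Finset E).filter (fun f => C.src f = v)) R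
    ⟨f0, by simp [hf0]⟩
  simp only [mem_filter, mem_univ, true_and] at hes hfs hmax hmin
  have hstar : R fs < ρ es :=
    lt_of_le_of_lt (hmin f0 hf0) (lt_of_lt_of_le hlt (hmax e0 he0))
  have hI : ∀ e f, C.tgt e = v → C.src f = v → R f < ρ e → C.I e f := by
    intro e f he hf h
    by_contra hn
    exact absurd (hR e f ⟨by rw [he, hf], hn⟩) (not_le.2 h)
  have hIs : C.I es fs := hI es fs hes hfs hstar
  -- counting maps
  have cardA : ((((univ : Finset E).filter (fun f => C.St es f)).sigma
      (fun f => (univ : Finset E).filter (fun e => C.I e f))) : Finset (Σ _ : E, E)).card =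
      C.q ^ 2 * (C.q + 1) := by
    rw [Finset.card_sigma, Finset.sum_congr rfl (fun f _ => hin f), Finset.sum_const,
      card_succ, smul_eq_mul]
  have cardB : ((((univ : Finset E).filter (fun e => C.St e fs)).sigma
      (fun e => (univ : Finset E).filter (fun f => C.I e f))) : Finset (Σ _ : E, E)).card =
      C.q ^ 2 * (C.q + 1) := by
    rw [Finset.card_sigma, Finset.sum_congr rfl (fun e _ => hout e), Finset.sum_const,
      card_pred, smul_eq_mul]
  have cardF : (((univ : Finset E).filter (fun e => C.I e fs)).image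
      (fun e => (e, fs))).card ≤ C.q + 1 := by
    refine le_trans Finset.card_image_le ?_
    rw [hin]
  have cardE : (((univ : Finset E).filter (fun f => C.I es f)).image
      (fun f => (es, f))).card ≤ C.q + 1 := by
    refine le_trans Finset.card_image_le ?_
    rw [hout]
  by_cases hcase : ∃ e', e' ≠ es ∧ C.tgt e' = v ∧ ρ e' = ρ es
  · -- case (2b)
    obtain ⟨e', hne, he', heq⟩ := hcase
    have hI' : C.I e' fs := hI e' fs he' hfs (by rw [heq]; exact hstar)
    have hbig : ∀ f, C.src f = v → f ≠ fs → ρ es ≤ R f := by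
      intro f hf hffs
      by_cases h1 : C.I es f
      · by_cases h2 : C.I e' f
        · rcases I_two h1 hIs h2 hI' with h | h
          · exact absurd h.symm hne
          · exact absurd h hffs
        · have := hR e' f ⟨by rw [he', hf], h2⟩
          rwa [heq] at this
      · exact hR es f ⟨by rw [hes, hf], h1⟩
    constructor
    · rw [← cardB]
      refine Finset.card_le_card_of_injOn (fun s => (s.1, s.2)) ?_ ?_
      · rintro ⟨e, f⟩ h
        simp only [Finset.coe_sigma, Set.mem_sigma_iff, Finset.mem_coe, mem_filter, mem_univ,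
          true_and] at h
        obtain ⟨h1, h2⟩ := h
        have htv : C.tgt e = v := by rw [h1.1, hfs]
        simp only [Finset.coe_filter, mem_univ, true_and, Set.mem_ofPred_eq]
        refine ⟨htv, h2, ?_⟩
        have h3 : ρ e ≤ R fs := hR e fs h1
        have h4 : f ≠ fs := by
          rintro rfl; exact h1.2 h2
        have h5 : C.src f = v := by rw [← I_comp h2, htv]
        exact lt_of_le_of_lt h3 (lt_of_lt_of_le hstar (hbig f h5 h4))
      · rintro ⟨e, f⟩ _ ⟨e1, f1⟩ _ h
        simp only [Prod.mk.injEq] at h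
        obtain ⟨rfl, rfl⟩ := h
        rfl
    · refine le_trans (Finset.card_le_card ?_) (le_trans cardF (by omega))
      rintro ⟨e, f⟩ h
      simp only [mem_filter, mem_univ, true_and] at h
      obtain ⟨h1, h2, h3⟩ := h
      have h5 : C.src f = v := by rw [← I_comp h2, h1]
      have h4 : f = fs := by
        by_contra hn
        exact absurd (le_trans (hmax e h1) (hbig f h5 hn)) (not_le.2 h3)
      subst h4
      simp only [mem_image, mem_filter, mem_univ, true_and, Prod.mk.injEq, and_true]
      exact ⟨e, h2, rfl⟩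
  · -- case (2a)
    have hlt' : ∀ e, C.tgt e = v → e ≠ es → ρ e < ρ es := by
      intro e he hne
      rcases lt_or_eq_of_le (hmax e he) with h | h
      · exact h
      · exact absurd ⟨e, hne, he, h⟩ hcase
    constructor
    · rw [← cardA]
      refine Finset.card_le_card_of_injOn (fun s => (s.2, s.1)) ?_ ?_
      · rintro ⟨f, e⟩ h
        simp only [Finset.coe_sigma, Set.mem_sigma_iff, Finset.mem_coe, mem_filter, mem_univ,
          true_and] at h
        obtain ⟨h1, h2⟩ := h
        have hfv : C.src f = v := by rw [← h1.1, hes]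
        have htv : C.tgt e = v := by rw [I_comp h2, hfv]
        simp only [Finset.coe_filter, mem_univ, true_and, Set.mem_ofPred_eq]
        refine ⟨htv, h2, ?_⟩
        have h3 : ρ es ≤ R f := hR es f h1
        have h4 : e ≠ es := by
          rintro rfl; exact h1.2 h2
        exact lt_of_lt_of_le (hlt' e htv h4) h3
      · rintro ⟨f, e⟩ _ ⟨f1, e1⟩ _ h
        simp only [Prod.mk.injEq] at h
        obtain ⟨rfl, rfl⟩ := h
        rfl
    · have hsub : ((univ : Finset (E × E)).filter
          (fun p => C.tgt p.1 = v ∧ C.I p.1 p.2 ∧ R p.2 < ρ p.1)) ⊆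
          ((univ : Finset E).filter (fun e => C.I e fs)).image (fun e => (e, fs)) ∪
          ((univ : Finset E).filter (fun f => C.I es f)).image (fun f => (es, f)) := by
        rintro ⟨e, f⟩ h
        simp only [mem_filter, mem_univ, true_and] at h
        obtain ⟨h1, h2, h3⟩ := h
        have h5 : C.src f = v := by rw [← I_comp h2, h1]
        rw [mem_union]
        by_cases h6 : f = fs
        · left
          subst h6
          simp only [mem_image, mem_filter, mem_univ, true_and, Prod.mk.injEq, and_true]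
          exact ⟨e, h2, rfl⟩
        · by_cases h7 : e = es
          · right
            subst h7
            simp only [mem_image, mem_filter, mem_univ, true_and, Prod.mk.injEq]
            exact ⟨f, h2, rfl⟩
          · exfalso
            have h8 : C.I e fs := hI e fs h1 hfs (lt_of_le_of_lt (hmin f h5) h3)
            by_cases h9 : C.I es f
            · rcases I_two h9 hIs h2 h8 with h | h
              · exact h7 h.symm
              · exact h6 h
            · have h10 : ρ es ≤ R f := hR es f ⟨by rw [hes, h5], h9⟩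
              exact absurd (le_trans (hmax e h1) h10) (not_le.2 h3)
      refine le_trans (Finset.card_le_card hsub) ?_
      have h11 := Finset.card_union_add_card_inter
        (((univ : Finset E).filter (fun e => C.I e fs)).image (fun e => (e, fs)))
        (((univ : Finset E).filter (fun f => C.I es f)).image (fun f => (es, f)))
      have h12 : 0 < ((((univ : Finset E).filter (fun e => C.I e fs)).image (fun e => (e, fs))) ∩
        (((univ : Finset E).filter (fun f => C.I es f)).image (fun f => (es, f)))).card := by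
        rw [Finset.card_pos]
        refine ⟨(es, fs), ?_⟩
        rw [mem_inter]
        constructor
        · simp only [mem_image, mem_filter, mem_univ, true_and, Prod.mk.injEq, and_true]
          exact ⟨es, hIs, rfl⟩
        · simp only [mem_image, mem_filter, mem_univ, true_and, Prod.mk.injEq]
          exact ⟨fs, hIs, rfl⟩
      omega

theorem trap_lemma {Λ : Type} [LinearOrder Λ] (C : Cx V E) (a : E → Λ ≃o Λ) (ha : Lab C a)
    (R : E → Λ) (hR : ∀ e f, C.St e f → (a e).symm (R e) ≤ R f) :
    ∀ e f, C.tgt e = C.src f → (a e).symm (R e) = R f := by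
  obtain ⟨ρ, hρ⟩ : ∃ ρ : E → Λ, ρ = fun e => (a e).symm (R e) := ⟨_, rfl⟩
  have hρe : ∀ e, (a e).symm (R e) = ρ e := fun e => by rw [hρ]
  have haρ : ∀ e, a e (ρ e) = R e := fun e => by rw [← hρe]; exact (a e).apply_symm_apply _
  simp only [hρe] at hR ⊢
  -- no bad vertex
  have hnobad : ∀ v, ¬ ∃ e f, C.tgt e = v ∧ C.src f = v ∧ R f < ρ e := by
    intro v0 hv0
    obtain ⟨B, hB⟩ : ∃ B : Finset V, B = (univ : Finset V).filter
      (fun v => ∃ e f, C.tgt e = v ∧ C.src f = v ∧ R f < ρ e) := ⟨_, rfl⟩
    obtain ⟨P, hP⟩ : ∃ P : Finset (E × E), P = (univ : Finset (E × E)).filter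
      (fun p => C.I p.1 p.2 ∧ ρ p.1 < R p.2) := ⟨_, rfl⟩
    obtain ⟨M, hM⟩ : ∃ M : Finset (E × E), M = (univ : Finset (E × E)).filter
      (fun p => C.I p.1 p.2 ∧ R p.2 < ρ p.1) := ⟨_, rfl⟩
    have memB : ∀ v, v ∈ B ↔ ∃ e f, C.tgt e = v ∧ C.src f = v ∧ R f < ρ e := by
      intro v; rw [hB]; simp only [mem_filter, mem_univ, true_and]
    have memP : ∀ e f, (e, f) ∈ P ↔ C.I e f ∧ ρ e < R f := by
      intro e f; rw [hP]; simp only [mem_filter, mem_univ, true_and]
    have memM : ∀ e f, (e, f) ∈ M ↔ C.I e f ∧ R f < ρ e := by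
      intro e f; rw [hM]; simp only [mem_filter, mem_univ, true_and]
    have hBpos : 0 < B.card := Finset.card_pos.2 ⟨v0, (memB v0).2 hv0⟩
    -- plus count
    have hPM : P.card ≤ 2 * M.card := by
      have hsub : P ⊆ P.filter (fun p => trapNxt C p ∈ M) ∪
          P.filter (fun p => trapNxt C (trapNxt C p) ∈ M) := by
        rintro ⟨e, f⟩ hp
        obtain ⟨⟨g, hT⟩, hlt⟩ := (memP e f).1 hp
        by_cases h1 : R g < ρ f
        · refine mem_union_left _ (mem_filter.2 ⟨hp, ?_⟩)
          rw [trapNxt_eq hT]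
          exact (memM f g).2 ⟨I_of_T2 hT, h1⟩
        · refine mem_union_right _ (mem_filter.2 ⟨hp, ?_⟩)
          rw [trapNxt_eq hT, trapNxt_eq (C.rot hT)]
          refine (memM g e).2 ⟨I_of_T3 hT, ?_⟩
          by_contra h2
          have h3 := trap_key C a ha R ρ haρ hT hlt.le (not_lt.1 h1) (not_lt.1 h2)
          exact absurd h3 (ne_of_lt hlt)
      have hc1 : (P.filter (fun p => trapNxt C p ∈ M)).card ≤ M.card := by
        refine Finset.card_le_card_of_injOn (fun p => trapNxt C p) ?_ ?_
        · intro p hp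
          exact (mem_filter.1 hp).2
        · rintro ⟨e, f⟩ hp ⟨e', f'⟩ hp' h
          obtain ⟨g, hT⟩ := ((memP e f).1 (mem_filter.1 hp).1).1
          obtain ⟨g', hT'⟩ := ((memP e' f').1 (mem_filter.1 hp').1).1
          simp only at h
          rw [trapNxt_eq hT, trapNxt_eq hT', Prod.mk.injEq] at h
          obtain ⟨rfl, rfl⟩ := h
          rw [T_uniq1 hT hT']
      have hc2 : (P.filter (fun p => trapNxt C (trapNxt C p) ∈ M)).card ≤ M.card := by
        refine Finset.card_le_card_of_injOn (fun p => trapNxt C (trapNxt C p)) ?_ ?_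
        · intro p hp
          exact (mem_filter.1 hp).2
        · rintro ⟨e, f⟩ hp ⟨e', f'⟩ hp' h
          obtain ⟨g, hT⟩ := ((memP e f).1 (mem_filter.1 hp).1).1
          obtain ⟨g', hT'⟩ := ((memP e' f').1 (mem_filter.1 hp').1).1
          simp only at h
          rw [trapNxt_eq hT, trapNxt_eq hT', trapNxt_eq (C.rot hT), trapNxt_eq (C.rot hT'),
            Prod.mk.injEq] at h
          obtain ⟨rfl, rfl⟩ := h
          rw [T_uniq2 hT hT']
      have := Finset.card_le_card hsub
      have h3 := Finset.card_union_le (P.filter (fun p => trapNxt C p ∈ M))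
        (P.filter (fun p => trapNxt C (trapNxt C p) ∈ M))
      omega
    -- lower bound for plus
    have hPlow : B.card * (C.q ^ 2 * (C.q + 1)) ≤ P.card := by
      have h1 : ∑ v ∈ B, ((univ : Finset (E × E)).filter
        (fun p => C.tgt p.1 = v ∧ C.I p.1 p.2 ∧ ρ p.1 < R p.2)).card ≤ P.card := by
        rw [← Finset.card_biUnion]
        · apply Finset.card_le_card
          intro p hp
          rw [mem_biUnion] at hp
          obtain ⟨v, _, hp⟩ := hp
          have hp2 := (mem_filter.1 hp).2
          exact (memP p.1 p.2).2 hp2.2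
        · intro v _ w _ hvw
          refine Finset.disjoint_left.2 ?_
          intro p hp hp'
          have h1 := (mem_filter.1 hp).2.1
          have h2 := (mem_filter.1 hp').2.1
          exact hvw (by rw [← h1, ← h2])
      refine le_trans ?_ h1
      rw [← smul_eq_mul, ← Finset.sum_const]
      refine Finset.sum_le_sum fun v hv => ?_
      exact (trap_vertex C R ρ hR v ((memB v).1 hv)).1
    have hMup : M.card ≤ B.card * (2 * C.q + 1) := by
      have h1 : M ⊆ B.biUnion (fun v => (univ : Finset (E × E)).filter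
        (fun p => C.tgt p.1 = v ∧ C.I p.1 p.2 ∧ R p.2 < ρ p.1)) := by
        intro p hp
        have hp2 := (memM p.1 p.2).1 hp
        rw [mem_biUnion]
        refine ⟨C.tgt p.1, ?_, ?_⟩
        · exact (memB _).2 ⟨p.1, p.2, rfl, (I_comp hp2.1).symm, hp2.2⟩
        · rw [mem_filter]
          exact ⟨mem_univ _, rfl, hp2.1, hp2.2⟩
      refine le_trans (Finset.card_le_card h1) ?_
      refine le_trans Finset.card_biUnion_le ?_
      rw [← smul_eq_mul, ← Finset.sum_const]
      refine Finset.sum_le_sum fun v hv => ?_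
      exact (trap_vertex C R ρ hR v ((memB v).1 hv)).2
    have hq := C.two_le
    have h1 : B.card * (C.q ^ 2 * (C.q + 1)) ≤ B.card * (2 * (2 * C.q + 1)) := by
      calc B.card * (C.q ^ 2 * (C.q + 1)) ≤ P.card := hPlow
        _ ≤ 2 * M.card := hPM
        _ ≤ 2 * (B.card * (2 * C.q + 1)) := by omega
        _ = B.card * (2 * (2 * C.q + 1)) := by ring
    have h2 := Nat.le_of_mul_le_mul_left h1 hBpos
    nlinarith [hq, Nat.mul_le_mul hq hq, sq_nonneg (C.q : ℤ)]
  have hle : ∀ e f, C.tgt e = C.src f → ρ e ≤ R f := by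
    intro e f h
    by_contra hn
    exact hnobad (C.tgt e) ⟨e, f, rfl, h.symm, not_le.1 hn⟩
  have hinc : ∀ e f, C.I e f → ρ e = R f := by
    rintro e f ⟨g, hT⟩
    obtain ⟨h1, h2, h3⟩ := T_comp hT
    exact trap_key C a ha R ρ haρ hT (hle _ _ h1) (hle _ _ h2) (hle _ _ h3)
  intro e f h
  by_cases hI : C.I e f
  · exact hinc e f hI
  · have hne : ((univ : Finset E).filter (fun f => C.I e f)).Nonempty := by
      rw [← Finset.card_pos, trap_out]; omega
    obtain ⟨f', hf'⟩ := hne
    have hf'' : C.I e f' := (mem_filter.1 hf').2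
    have hff : f ≠ f' := by
      rintro rfl; exact hI hf''
    have hsrc : C.src f = C.src f' := by rw [← h, I_comp hf'']
    obtain ⟨e'', h1, h2⟩ := C.join hff hsrc
    rw [hinc e f' hf'', ← hinc e'' f' h2, hinc e'' f h1]

end Pool.A2L
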