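import Pool.Agent.A2L.Ener
import Pool.Agent.A2L.Trap

/-! Module TrapK: the cuts `RK` form a trap, so they are invariant.

`RK h K s e = {y | 0 < K e (1_{z ≥ y} (h z e - s)_+)}` is a lower set: for `y' ≤ y` the function
increases (`K_mono`). Trap inequality: for `St e f`, `y ∈ RK e → (a e).symm y ∈ RK f`:
`K f (1_{z ≥ (a e).symm y} (h z f - s)_+) ≥ q^(-2) K e (1_{(a e).symm z ≥ (a e).symm y}
(h ((a e).symm z) f - s)_+)` (`K_stat`, all terms nonnegative, keep the term `e`), and
`|(h ((a e).symm z) f - s)_+ - (h z e - s)_+| ≤ |h ((a e).symm z) f - h z e|`, whose `K e` is `0`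
(`energy`, `K_abs_zero`), so the right side equals `q^(-2) K e (1_{z ≥ y} (h z e - s)_+) > 0`.
Now apply `trap_lemma` with `Λ = LowerSet X` (a linear order since `X` is; if the instance is hard
to find, use `LowerSet` with `LowerSet.instCompleteLinearOrder..` or the subtype of lower sets of
`Set X`, totality: two lower sets of a linear order are comparable), with the order
automorphisms `LowerSet.map (a e)`, `R e = RK e`. -/

set_option autoImplicit false

open Finset
open scoped Classical

noncomputable section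

namespace Pool.A2L

variable {V E : Type} [Fintype V] [Fintype E] {X : Type} [LinearOrder X]

/-- the cut -/
def RK (h : X → E → ℝ) (K : E → (X → ℝ) → ℝ) (s : ℝ) (e : E) : Set X :=
  {y | 0 < K e (fun z => if y ≤ z then max (h z e - s) 0 else 0)}

private theorem TrapK_bdd {C : Cx V E} {a : E → X ≃o X} {O : V → Set X} {h : X → E → ℝ}
    {K : E → (X → ℝ) → ℝ} (H : HK C a O h K) (s : ℝ) (e : E) (g : X → X) (P : X → Prop)
    [DecidablePred P] : BdX (fun z => if P z then max (h (g z) e - s) 0 else 0) := by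
  refine ⟨1 + |s|, fun z => ?_⟩
  have h1 := H.h_bdd (g z) e
  have h2 : |h (g z) e - s| ≤ 1 + |s| := (abs_sub _ _).trans (by linarith)
  have h3 : (0 : ℝ) ≤ 1 + |s| := by positivity
  have h4 : |max (h (g z) e - s) 0| ≤ 1 + |s| := by
    rw [abs_of_nonneg (le_max_right _ _)]
    exact max_le ((le_abs_self _).trans h2) h3
  show |if P z then max (h (g z) e - s) 0 else 0| ≤ 1 + |s|
  split_ifs
  · exact h4
  · simpa using h3

private theorem TrapK_lower {C : Cx V E} {a : E → X ≃o X} {O : V → Set X} {h : X → E → ℝ}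
    {K : E → (X → ℝ) → ℝ} (H : HK C a O h K) (s : ℝ) (e : E) : IsLowerSet (RK h K s e) := by
  intro y y' hle hy
  have h0 : 0 < K e (fun z => if y ≤ z then max (h z e - s) 0 else 0) := hy
  show 0 < K e (fun z => if y' ≤ z then max (h z e - s) 0 else 0)
  refine h0.trans_le (H.K_mono e _ _ (TrapK_bdd H s e id (fun z => y ≤ z))
    (TrapK_bdd H s e id (fun z => y' ≤ z)) (fun z _ => ?_))
  by_cases h1 : y ≤ z
  · rw [if_pos h1, if_pos (hle.trans h1)]
  · rw [if_neg h1]
    split_ifs
    · exact le_max_right _ _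
    · exact le_refl _

private theorem TrapK_step {C : Cx V E} {a : E → X ≃o X} {O : V → Set X} {h : X → E → ℝ}
    {K : E → (X → ℝ) → ℝ} (H : HK C a O h K) (s : ℝ) {e f : E} (hst : C.St e f) {y : X}
    (hy : y ∈ RK h K s e) : (a e).symm y ∈ RK h K s f := by
  have h0 : 0 < K e (fun z => if y ≤ z then max (h z e - s) 0 else 0) := hy
  show 0 < K f (fun z => if (a e).symm y ≤ z then max (h z f - s) 0 else 0)
  have hbf := TrapK_bdd H s f id (fun z => (a e).symm y ≤ z)
  simp only [id] at hbf
  rw [H.K_stat f _ hbf]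
  have hq : (0 : ℝ) < (C.q : ℝ) ^ 2 := by
    have : (0 : ℝ) < (C.q : ℝ) := by exact_mod_cast q_pos C
    positivity
  apply div_pos _ hq
  have hnn : ∀ e' ∈ univ.filter (fun e' => C.St e' f), 0 ≤ K e' (fun z =>
      if (a e).symm y ≤ (a e').symm z then max (h ((a e').symm z) f - s) 0 else 0) := by
    intro e' _
    refine K_nonneg H e' (TrapK_bdd H s f (fun z => (a e').symm z)
      (fun z => (a e).symm y ≤ (a e').symm z)) (fun z _ => ?_)
    split_ifs
    · exact le_max_right _ _
    · exact le_refl _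
  have hmem : e ∈ univ.filter (fun e' => C.St e' f) := by
    simp only [mem_filter, mem_univ, true_and]; exact hst
  have h1 := Finset.single_le_sum hnn hmem
  refine lt_of_lt_of_le ?_ h1
  have hb1 := TrapK_bdd H s f (fun z => (a e).symm z) (fun z => (a e).symm y ≤ (a e).symm z)
  have hbd : BdX (fun z => h ((a e).symm z) f - h z e) := by
    refine ⟨2, fun z => ?_⟩
    have k1 := H.h_bdd ((a e).symm z) f
    have k2 := H.h_bdd z e
    rw [abs_le] at k1 k2 ⊢
    constructor <;> linarith
  have hb2 : BdX (fun z => |h ((a e).symm z) f - h z e|) := by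
    obtain ⟨M, hM⟩ := hbd
    exact ⟨M, fun z => by rw [abs_abs]; exact hM z⟩
  have hE := K_abs_zero H e hbd (energy H hst)
  have hadd := H.K_add e _ _ hb1 hb2
  rw [hE, add_zero] at hadd
  rw [← hadd]
  refine h0.trans_le (H.K_mono e _ _ (TrapK_bdd H s e id (fun z => y ≤ z)) ?_ (fun z _ => ?_))
  · obtain ⟨M1, hM1⟩ := hb1
    obtain ⟨M2, hM2⟩ := hb2
    exact ⟨M1 + M2, fun z => (abs_add_le _ _).trans (add_le_add (hM1 z) (hM2 z))⟩
  · simp only [OrderIso.le_iff_le]
    by_cases hyz : y ≤ z
    · rw [if_pos hyz, if_pos hyz]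
      have k1 := le_abs_self (h z e - h ((a e).symm z) f)
      rw [abs_sub_comm] at k1
      apply max_le
      · have k2 := le_max_left (h ((a e).symm z) f - s) 0
        linarith
      · have k2 := le_max_right (h ((a e).symm z) f - s) 0
        have k3 := abs_nonneg (h ((a e).symm z) f - h z e)
        linarith
    · rw [if_neg hyz, if_neg hyz]
      have k3 := abs_nonneg (h ((a e).symm z) f - h z e)
      linarith

theorem RK_inv {C : Cx V E} {a : E → X ≃o X} (ha : Lab C a) {O : V → Set X} {h : X → E → ℝ}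
    {K : E → (X → ℝ) → ℝ} (H : HK C a O h K) (s : ℝ) :
    ∀ e f, C.tgt e = C.src f → ∀ y, y ∈ RK h K s e ↔ (a e).symm y ∈ RK h K s f := by
  intro e f hef y
  let R : E → LowerSet X := fun e => ⟨RK h K s e, TrapK_lower H s e⟩
  have hlab : Lab C (fun e => LowerSet.map (a e)) := by
    intro e f g hT S
    ext z
    have h1 := ha e f g hT ((a g).symm ((a f).symm ((a e).symm z)))
    simp only [OrderIso.apply_symm_apply] at h1
    simp only [LowerSet.coe_map, Set.mem_image, SetLike.mem_coe, exists_exists_and_eq_and]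
    constructor
    · rintro ⟨w, hw, rfl⟩
      rw [ha e f g hT w]; exact hw
    · intro hz
      exact ⟨z, hz, ha e f g hT z⟩
  have key := trap_lemma C (fun e => LowerSet.map (a e)) hlab R (by
    intro e f hst z hz
    rw [LowerSet.symm_map] at hz
    have hz' : z ∈ LowerSet.map (a e).symm (R e) := hz
    rw [LowerSet.mem_map] at hz'
    have h2 : (a e).symm ((a e).symm.symm z) ∈ RK h K s f := TrapK_step H s hst hz'
    have h3 : (a e).symm ((a e).symm.symm z) = z := (a e).symm_apply_apply z
    rw [h3] at h2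
    exact h2) e f hef
  have h3 : (a e).symm y ∈ (LowerSet.map (a e)).symm (R e) ↔ (a e).symm y ∈ R f := by
    rw [key]
  rw [LowerSet.symm_map, LowerSet.mem_map, OrderIso.symm_symm, OrderIso.apply_symm_apply] at h3
  exact h3

end Pool.A2L
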