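import Pool.Agent.A2L.Row2

/-! Module TriA: basic properties of flat triangles. Induction on the derivation of `Tri`
(`Tri.cons` with `Row C W g W1 l`, `Tri C W1 D Z`, `St Z.head g`).

* `tri_chain`: `W` straight by `row_chain` (or `nil`); `g :: Z` is straight for `C.op`
  (`St_op`, hypothesis on the head); `l :: D` straight: if `D = l' :: _` then
  `Tri C W1 D Z` is a `cons` with `Row C W1 z W2 l'`, `Z = z :: _`, so `row_compat`.
* `tri_reflC`: induction: `row_rev`, the induction hypothesis `Tri C.op W1.reverse Z D`, and the
  condition on the head of `D` is the straightness of `l :: D` (`tri_chain`).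
* `tri_ends`: `row_first`, `row_last_src`, and `tri_reflC` or induction (`row_last_tgt`). -/

set_option autoImplicit false

open Finset
open scoped Classical

noncomputable section

namespace Pool.A2L

variable {V E : Type} [Fintype V] [Fintype E]

theorem tri_length {C : Cx V E} {W D Z : List E} (h : Tri C W D Z) :
    D.length = W.length ∧ Z.length = W.length := by
  induction h with
  | nil => exact ⟨rfl, rfl⟩
  | cons h1 h2 h3 ih =>
    have := row_length h1
    simp only [List.length_cons]
    omega

theorem tri_chain {C : Cx V E} {W D Z : List E} (h : Tri C W D Z) :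
    W.IsChain C.St ∧ D.IsChain C.St ∧ Z.IsChain C.op.St := by
  induction h with
  | nil => exact ⟨List.isChain_nil, List.isChain_nil, List.isChain_nil⟩
  | cons h1 h2 h3 ih =>
    refine ⟨row_chain h1, ?_, ?_⟩
    · rw [List.isChain_cons]
      refine ⟨?_, ih.2.1⟩
      cases h2 with
      | nil => intro y hy; simp at hy
      | cons k1 k2 k3 =>
        intro y hy
        simp only [List.head?_cons, Option.mem_def, Option.some.injEq] at hy
        subst hy
        exact row_compat h1 k1 (h3 _ (by simp))
    · rw [List.isChain_cons]
      exact ⟨fun z hz => St_op.mpr (h3 z hz), ih.2.2⟩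

theorem tri_words {C : Cx V E} {W D Z : List E} (h : Tri C W D Z) :
    W ∈ C.words W.length ∧ D ∈ C.words W.length ∧ Z ∈ C.op.words W.length := by
  have h1 := tri_length h
  have h2 := tri_chain h
  exact ⟨mem_words.mpr ⟨rfl, h2.1⟩, mem_words.mpr ⟨h1.1, h2.2.1⟩, mem_words.mpr ⟨h1.2, h2.2.2⟩⟩

theorem tri_uniq {C : Cx V E} {W D D' Z : List E} (h : Tri C W D Z) (h' : Tri C W D' Z) :
    D = D' := by
  induction h generalizing D' with
  | nil => cases h'; rfl
  | cons h1 h2 h3 ih =>
    cases h' with
    | cons k1 k2 k3 =>
      obtain ⟨rfl, rfl⟩ := row_unique h1 k1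
      rw [ih k2]

theorem tri_reflC {C : Cx V E} {W D Z : List E} (h : Tri C W D Z) :
    Tri C.op W.reverse Z D := by
  induction h with
  | nil => exact Tri.nil
  | cons h1 h2 h3 ih =>
    refine Tri.cons (row_rev h1) ih ?_
    intro z hz
    have h4 := (tri_chain (Tri.cons h1 h2 h3)).2.1
    rw [List.isChain_cons] at h4
    exact St_op.mpr (h4.1 z hz)

/-- first letters of `Z` and `W`: incident at the vertex `A` -/
theorem tri_endA {C : Cx V E} {w z : E} {W D Z : List E} (h : Tri C (w :: W) D (z :: Z)) :
    C.I z w := by
  cases h with
  | cons h1 h2 h3 => exact row_first h1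

/-- last letter of `W` and first letter of `D`: incident at the vertex `B` -/
theorem tri_endB {C : Cx V E} {w d : E} {W D Z : List E} (h : Tri C (W ++ [w]) (d :: D) Z) :
    C.I w d := by
  generalize hU : W ++ [w] = U at h
  cases h with
  | cons h1 h2 h3 =>
    subst hU
    exact (row_last_src h1).2

/-- last letters of `D` and `Z`: incident at the third vertex -/
theorem tri_endC {C : Cx V E} {d z : E} {W D Z : List E} (h : Tri C W (D ++ [d]) (Z ++ [z])) :
    C.I d z := by
  generalize hU : D ++ [d] = U at h
  generalize hX : Z ++ [z] = X at h
  induction h generalizing D Z with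
  | nil => simp at hU
  | cons h1 h2 h3 ih =>
    cases h2 with
    | nil =>
      obtain ⟨w, rfl, hT⟩ := row_single h1
      cases D with
      | nil =>
        cases Z with
        | nil =>
          simp only [List.nil_append, List.cons.injEq, and_true] at hU hX
          subst hU
          subst hX
          exact I_of_T2 hT
        | cons x Z => simp at hX
      | cons x D => simp at hU
    | cons k1 k2 k3 =>
      cases D with
      | nil => simp at hU
      | cons x D =>
        cases Z with
        | nil => simp at hX
        | cons y Z =>
          simp only [List.cons_append, List.cons.injEq] at hU hX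
          exact ih (by simpa using hU.2) (by simpa using hX.2)

end Pool.A2L
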