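import Pool.Agent.A2L.TriA

/-! Module TriB: the reflection of a flat triangle fixing the vertex `A`, and the rotation.

`tri_reflA`: strong induction on `W.length` (for all `C`, `W`, `D`, `Z` simultaneously; note that
`C.op.op = C` definitionally, theorem `op_op`). Write `W = w :: W'`, `Z = g :: Z'`, `D = l :: D'`,
`Row C W g W1 l`, `Tri C W1 D' Z'`, `St Z'.head g`.
* `W' = []`: then `W1 = []`, `D' = []`, `Z' = []` and `Tri C.op [g] [l] [w]` by `Row.one`
  (`C.op.T g l w` is `C.T w l g`).
* `W' = w2 :: W''`: the row is `T w b g`, `St w w2`, `I g2 w2`, `T g2 b a`,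
  `Row C (w2 :: W'') g2 W1t l`, `W1 = a :: W1t`, and `Z' = z' :: Z''`, `I z' a`. The induction
  hypothesis for `Tri C W1 D' Z'` gives `Tri C.op Z' D'.reverse (a :: W1t)`, i.e.
  `Row C.op Z' a Z1 m`, `Tri C.op Z1 D1 W1t`, `D'.reverse = m :: D1`.
  (i) `Row C.op (g :: Z') w (g2 :: Z1) m` by `Row.cons`: `C.op.T g b w` is `C.T w b g`,
  `C.op.St g z'` is `C.St z' g`, `C.op.I a z'` is `C.I z' a`, `C.op.T a b g2` is `C.T g2 b a`.
  (ii) The induction hypothesis for `C.op` and `Tri C.op Z1 D1 W1t` gives `Tri C W1t D1.reverse Z1`;
  hence `Tri C (w2 :: W'') (l :: D1.reverse) (g2 :: Z1)` by `Tri.cons` (the condition on the head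
  of `Z1` comes from `row_out_chain` applied to (i): `g2 :: Z1` is straight for `C.op`).
  (iii) The induction hypothesis for (ii) gives `Tri C.op (g2 :: Z1) (D1 ++ [l]) (w2 :: W'')`.
  (iv) `Tri.cons` with (i), (iii) and `C.op.St w2 w` gives
  `Tri C.op (g :: Z') (m :: (D1 ++ [l])) (w :: w2 :: W'')`, and
  `(l :: D').reverse = D'.reverse ++ [l] = m :: D1 ++ [l]`.
`tri_rot`: `tri_reflC` followed by `tri_reflA` for `C.op`. `tri_rot'`: apply `tri_rot` twice. -/

set_option autoImplicit false

open Finset
open scoped Classical

noncomputable section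

namespace Pool.A2L

variable {V E : Type} [Fintype V] [Fintype E]

private theorem TriB_aux (n : ℕ) : ∀ (C : Cx V E) (W D Z : List E), W.length = n →
    Tri C W D Z → Tri C.op Z D.reverse W := by
  induction n using Nat.strong_induction_on with
  | _ n ih =>
    intro C W D Z hn h
    cases h with
    | nil => exact Tri.nil
    | cons h1 h2 h3 =>
      rename_i W1 D' Z' g l
      cases h1 with
      | one hT =>
        cases h2 with
        | nil =>
          refine Tri.cons (Row.one ?_) Tri.nil (by simp)
          exact hT
        | cons k1 k2 k3 => exact absurd rfl (row_ne_nil k1)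
      | cons t1 t2 t3 t4 t5 =>
        rename_i w w2 b g2 a W'' W1t
        have hlen := row_length t5
        simp only [List.length_cons] at hn hlen
        have e1 := ih (n - 1) (by omega) C (a :: W1t) D' Z' (by simp only [List.length_cons]; omega) h2
        generalize hR : D'.reverse = R at e1
        cases e1 with
        | cons r1 r2 r3 =>
          rename_i Z1 D1 m
          obtain ⟨z', Z'', rfl⟩ : ∃ z' Z'', Z' = z' :: Z'' := by
            cases Z' with
            | nil => exact absurd rfl (row_ne_nil r1)
            | cons z' Z'' => exact ⟨z', Z'', rfl⟩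
          have i1 : Row C.op (g :: z' :: Z'') w (g2 :: Z1) m := by
            refine Row.cons (b := b) (g2 := a) ?_ ?_ ?_ ?_ r1
            · exact t1
            · exact St_op.mpr (h3 z' (by simp))
            · exact I_op.mpr (tri_endA h2)
            · exact t4
          have hlen2 := row_length r1
          have hlen3 := (tri_length h2).2
          simp only [List.length_cons] at hlen2 hlen3
          have i2 : Tri C W1t D1.reverse Z1 :=
            ih (n - 2) (by omega) C.op Z1 D1 W1t (by omega) r2
          have hch := row_out_chain i1
          rw [List.isChain_cons] at hch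
          have i3 : Tri C (w2 :: W'') (l :: D1.reverse) (g2 :: Z1) :=
            Tri.cons t5 i2 (fun z hz => St_op.mp (hch.1 z hz))
          have i4 := ih (n - 1) (by omega) C (w2 :: W'') (l :: D1.reverse) (g2 :: Z1)
            (by simp only [List.length_cons]; omega) i3
          have i5 : Tri C.op (g :: z' :: Z'') (m :: (l :: D1.reverse).reverse) (w :: w2 :: W'') :=
            Tri.cons i1 i4 (fun z hz => by
              simp only [List.head?_cons, Option.mem_def, Option.some.injEq] at hz
              subst hz
              exact St_op.mpr t2)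
          have e2 : (l :: D').reverse = m :: (l :: D1.reverse).reverse := by
            rw [List.reverse_cons, hR, List.reverse_cons, List.reverse_reverse, List.cons_append]
          rw [e2]
          exact i5

theorem tri_reflA {C : Cx V E} {W D Z : List E} (h : Tri C W D Z) :
    Tri C.op Z D.reverse W := TriB_aux W.length C W D Z rfl h

theorem tri_rot {C : Cx V E} {W D Z : List E} (h : Tri C W D Z) :
    Tri C D Z.reverse W.reverse := tri_reflA (C := C.op) (tri_reflC h)

theorem tri_rot' {C : Cx V E} {W D Z : List E} (h : Tri C W D Z) :
    Tri C Z.reverse W D.reverse := by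
  have h2 := tri_rot (tri_rot h)
  rwa [List.reverse_reverse] at h2

end Pool.A2L
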