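import Pool.Agent.A2L.TriA

/-! Module TriProd: the product around a flat triangle is trivial.

`row_prod`: for `Row C W g W1 l` and all `y`:
`a g (app a W (a l y))`... the strip relation is: `g · W · l = W1` composed appropriately. For
`Row.one` (`T w b g`, `l = b`): `a w (a b (a g y)) = y` for all `y`, rotated
`a g (a w (a b y)) = y`, i.e. `a g (app a [w] (a l y)) = app a [] y`. For `Row.cons`: `a g (a w z)`
equals `a a' (a g2 z)` for all `z` (here `a'` is the letter `a` of the row): both are the inverse
of `a b`: from `T w b g` (rotated: `T b g w`, `a b (a g (a w z)) = z`) and `T g2 b a'`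
(rotated: `T b a' g2`, `a b (a a' (a g2 z)) = z`) and injectivity of `a b`.
`tri_prod`: induction on `Tri`: for `cons`: `app a W (a l (app a D (app a Z.reverse (a g y))))`.
By `row_prod` applied at the point `y' = app a D (app a Z.reverse (a g y))`:
`a g (app a W (a l y')) = app a W1 y' = a g y` (induction hypothesis at `a g y`), cancel `a g`. -/

set_option autoImplicit false

open Finset
open scoped Classical

noncomputable section

namespace Pool.A2L

variable {V E : Type} [Fintype V] [Fintype E] {X : Type} [LinearOrder X]

theorem app_append (a : E → X ≃o X) (W W' : List E) (y : X) :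
    app a (W ++ W') y = app a W (app a W' y) := by
  induction W with
  | nil => rfl
  | cons e W ih =>
    show a e (app a (W ++ W') y) = a e (app a W (app a W' y))
    rw [ih]

theorem row_prod {C : Cx V E} {a : E → X ≃o X} (ha : Lab C a) {g l : E} {W W1 : List E}
    (h : Row C W g W1 l) (y : X) : a g (app a W (a l y)) = app a W1 y := by
  induction h generalizing y with
  | one hT =>
    exact ha _ _ _ (C.rot (C.rot hT)) y
  | @cons w w2 b g g2 a' l W W1 hT hSt hI hT2 hR ih =>
    have h1 := ih y
    show a g (a w (app a (w2 :: W) (a l y))) = a a' (app a W1 y)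
    rw [← h1]
    apply (a b).injective
    rw [ha _ _ _ (C.rot hT) (app a (w2 :: W) (a l y)),
      ha _ _ _ (C.rot hT2) (app a (w2 :: W) (a l y))]

theorem tri_prod {C : Cx V E} {a : E → X ≃o X} (ha : Lab C a) {W D Z : List E}
    (h : Tri C W D Z) (y : X) : app a W (app a D (app a Z.reverse y)) = y := by
  induction h generalizing y with
  | nil => rfl
  | @cons W W1 D Z g l hR hT hz ih =>
    have h1 : app a (g :: Z).reverse y = app a Z.reverse (a g y) := by
      rw [List.reverse_cons, app_append]
      rfl
    rw [h1]
    apply (a g).injective
    show a g (app a W (a l (app a D (app a Z.reverse (a g y))))) = a g y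
    rw [row_prod ha hR, ih]

end Pool.A2L
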